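import Mathlib

/-! Rank bounds obtained by differentiating an invariant subspace. -/

namespace Pool.Agent.Lib.MP_a8bb0e_al

open Module LinearMap Matrix

variable {L : Type} [Field L]

lemma finrank_le_map_add {X Y : Type} [AddCommGroup X] [Module L X] [AddCommGroup Y] [Module L Y]
    [FiniteDimensional L X] (S : Submodule L X) (Ψ : X →ₗ[L] Y) :
    finrank L S = finrank L (S.map Ψ) + finrank L (S ⊓ ker Ψ : Submodule L X) := by
  rw [← finrank_range_add_finrank_ker (Ψ.domRestrict S), range_domRestrict, ker_domRestrict,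
    ← Submodule.map_comap_subtype, Submodule.finrank_map_subtype_eq]

/-- the Sylvester operator -/
def syl {W Y : Type} [AddCommGroup W] [Module L W] [AddCommGroup Y] [Module L Y]
    (e : Y →ₗ[L] Y) (f : W →ₗ[L] W) : (W →ₗ[L] Y) →ₗ[L] W →ₗ[L] Y :=
  llcomp L W Y Y e - lcomp L Y f

lemma syl_apply {W Y : Type} [AddCommGroup W] [Module L W] [AddCommGroup Y] [Module L Y]
    (e : Y →ₗ[L] Y) (f : W →ₗ[L] W) (φ : W →ₗ[L] Y) (w : W) :
    syl e f φ w = e (φ w) - φ (f w) := rfl

lemma finrank_ker_syl [IsAlgClosed L] {W : Type} [AddCommGroup W] [Module L W]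
    [FiniteDimensional L W] (f : W →ₗ[L] W) (ρ : ℕ)
    (hρ : ∀ ν : L, finrank L W ≤ ρ + finrank L (range (f - ν • LinearMap.id))) (n : ℕ) :
    ∀ (Y : Type) [AddCommGroup Y] [Module L Y] [FiniteDimensional L Y] (e : Y →ₗ[L] Y),
      finrank L Y = n → finrank L (ker (syl e f)) ≤ n * ρ := by
  induction n with
  | zero =>
    intro Y _ _ _ e hY
    have := finrank_zero_iff.1 hY
    have : Subsingleton (W →ₗ[L] Y) := inferInstance
    simp [finrank_zero_of_subsingleton]
  | succ n ih =>
    intro Y _ _ _ e hY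
    have : Nontrivial Y := nontrivial_of_finrank_eq_succ hY
    obtain ⟨ν, hν⟩ := Module.End.exists_eigenvalue e
    obtain ⟨y, hy⟩ := hν.exists_hasEigenvector
    have hy1 := hy.apply_eq_smul
    obtain ⟨N, hN⟩ : ∃ N, N = Submodule.span L {y} := ⟨_, rfl⟩
    have hNe : N ≤ N.comap e := by
      rw [hN, Submodule.span_le]
      intro z hz
      rw [Set.mem_singleton_iff.1 hz]
      change e y ∈ Submodule.span L {y}
      rw [hy1]; exact Submodule.smul_mem _ _ (Submodule.mem_span_singleton_self _)
    have h1 := ih (Y ⧸ N) (N.mapQ N e hNe) (by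
      have := N.finrank_quotient_add_finrank
      rw [hN, finrank_span_singleton hy.2, ← hN] at this
      omega)
    rw [finrank_le_map_add _ (llcomp L W Y (Y ⧸ N) N.mkQ), Nat.succ_mul]
    refine add_le_add (le_trans (Submodule.finrank_mono ?_) h1) ?_
    · rintro _ ⟨φ, hφ, rfl⟩
      ext w
      have := congrArg N.mkQ (LinearMap.congr_fun hφ w)
      simpa [syl_apply] using this
    · obtain ⟨l, hl⟩ := Module.Projective.exists_dual_eq_one L hy.2
      obtain ⟨R, hR⟩ : ∃ R, R = range (f - ν • LinearMap.id) := ⟨_, rfl⟩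
      have h2 : finrank L ((W ⧸ R) →ₗ[L] L) ≤ ρ := by
        have := R.finrank_quotient_add_finrank
        have := hρ ν
        rw [finrank_linearMap, finrank_self, ← hR] at *
        omega
      refine le_trans (Submodule.finrank_mono (t := range
        ((llcomp L W L Y (toSpanSingleton L Y y)).comp (lcomp L L R.mkQ))) ?_)
        ((finrank_range_le _).trans h2)
      rintro φ ⟨hφ, hφ'⟩
      have h3 : ∀ w, l (φ w) • y = φ w := fun w => by
        have : φ w ∈ N := (Submodule.Quotient.mk_eq_zero N).1 (LinearMap.congr_fun hφ' w)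
        rw [hN, Submodule.mem_span_singleton] at this
        obtain ⟨a, ha⟩ := this
        rw [← ha, map_smul, hl, smul_eq_mul, mul_one]
      refine ⟨R.liftQ (l.comp φ) ?_, LinearMap.ext fun w => h3 w⟩
      rw [hR]
      rintro _ ⟨w, rfl⟩
      have h4 : e (φ w) - φ (f w) = 0 := LinearMap.congr_fun hφ w
      rw [← h3 w, map_smul, hy1, smul_comm, h3 w, sub_eq_zero] at h4
      simp [← h4]

lemma dmul {a b c : Type} [Fintype b] (D : Derivation ℤ L L) (X : Matrix a b L) (Y : Matrix b c L) :
    (X * Y).map D = X.map D * Y + X * Y.map D := by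
  ext i j
  simp only [map_apply, mul_apply, map_sum, Derivation.leibniz, smul_eq_mul, Matrix.add_apply,
    ← Finset.sum_add_distrib]
  exact Finset.sum_congr rfl fun _ _ => by ring

lemma dmulVec {a b : Type} [Fintype b] (D : Derivation ℤ L L) (X : Matrix a b L) (v : b → L) :
    D ∘ (X *ᵥ v) = X.map D *ᵥ v + X *ᵥ (D ∘ v) := by
  ext i
  simp only [Function.comp, map_apply, mulVec, dotProduct, map_sum, Derivation.leibniz, smul_eq_mul,
    Pi.add_apply, ← Finset.sum_add_distrib]
  exact Finset.sum_congr rfl fun _ _ => by ring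

lemma exists_argmin {α : Type} [Nonempty α] (f : α → ℕ) : ∃ a, ∀ b, f a ≤ f b :=
  ⟨Function.argmin f, fun b => Function.argmin_le f b⟩

theorem core [IsAlgClosed L] {P I : Type} [Fintype P] [Fintype I] [DecidableEq P] [DecidableEq I]
    (A : Matrix P P L) (T : Matrix P I L) (h : Matrix I I L) (hAT : A * T = T * h)
    (hT : Function.Injective (toLin' T))
    (gen : ∀ δ : Matrix P I L, ∃ (D : Derivation ℤ L L) (X : Matrix I I L), T.map D = δ + T * X)
    (Γ : Submodule L (Matrix P P L)) (hΓ : ∀ D : Derivation ℤ L L, A.map D ∈ Γ) (h1 : 1 ∈ Γ)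
    (k : ℕ) (hk : ∀ ν : L, k ≤ finrank L (range (toLin' (A - ν • 1)))) :
    ∃ σ, (Fintype.card P - Fintype.card I) * σ ≤ finrank L Γ ∧
      (Fintype.card I - σ) * (k - σ) ≤ finrank L Γ := by
  obtain ⟨ν, hν⟩ : ∃ ν : L, ∀ μ : L, finrank L (range (toLin' (h - ν • 1))) ≤
      finrank L (range (toLin' (h - μ • 1))) :=
    exists_argmin fun μ : L => finrank L (range (toLin' (h - μ • 1)))
  obtain ⟨σ, hσ⟩ : ∃ σ, σ = finrank L (range (toLin' (h - ν • 1))) := ⟨_, rfl⟩
  have hσ1 := finrank_range_add_finrank_ker (toLin' (h - ν • 1))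
  rw [← hσ, finrank_fintype_fun_eq_card] at hσ1
  refine ⟨σ, ?_, ?_⟩
  · obtain ⟨U, hU⟩ : ∃ U, U = range (toLin' T) := ⟨_, rfl⟩
    have hUm : ∀ (Y : Matrix I I L) w, U.mkQ (toLin' (T * Y) w) = 0 := fun Y w =>
      (Submodule.Quotient.mk_eq_zero U).2 (by rw [hU, toLin'_mul]; exact ⟨_, rfl⟩)
    have hUA : U ≤ U.comap (toLin' A) := by
      rw [hU]
      rintro _ ⟨w, rfl⟩
      exact ⟨toLin' h w, by rw [← toLin'_mul_apply, ← toLin'_mul_apply, hAT]⟩
    have d1 : finrank L ((P → L) ⧸ U) = Fintype.card P - Fintype.card I := by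
      have := U.finrank_quotient_add_finrank
      rw [hU, finrank_range_of_inj hT, ← hU, finrank_fintype_fun_eq_card,
        finrank_fintype_fun_eq_card] at this
      omega
    have d2 := finrank_ker_syl (toLin' h) (Fintype.card I - σ) (fun μ => by
      have := hν μ
      rw [map_sub (toLin' (R := L)) h (μ • 1), map_smul, toLin'_one] at this
      rw [finrank_fintype_fun_eq_card]
      omega) _ _ (U.mapQ U (toLin' A) hUA) d1
    have d3 := finrank_range_add_finrank_ker (syl (U.mapQ U (toLin' A) hUA) (toLin' h))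
    rw [finrank_linearMap, d1, finrank_fintype_fun_eq_card] at d3
    have d4 : range (syl (U.mapQ U (toLin' A) hUA) (toLin' h)) ≤ Γ.map
        ((llcomp L _ _ _ U.mkQ).comp (toLin'.toLinearMap.comp (mulRightLinearMap P L T))) := by
      rintro _ ⟨φ, rfl⟩
      obtain ⟨ψ, hψ⟩ := projective_lifting_property U.mkQ φ U.mkQ_surjective
      obtain ⟨D, X, hD⟩ := gen (LinearMap.toMatrix' ψ)
      refine ⟨-A.map D, neg_mem (hΓ D), LinearMap.ext fun w => ?_⟩
      have e1 : (A * T).map D = (T * h).map D := by rw [hAT]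
      rw [dmul, dmul, hD, Matrix.mul_add, Matrix.add_mul, ← Matrix.mul_assoc A, hAT] at e1
      have e2 := congrArg (fun M => U.mkQ (toLin' M w)) e1
      simp only [map_add, LinearMap.add_apply, Matrix.mul_assoc, hUm, add_zero] at e2
      rw [toLin'_mul_apply A, toLin'_mul_apply (LinearMap.toMatrix' ψ), toLin'_toMatrix'] at e2
      rw [syl_apply, ← hψ]
      change U.mkQ (toLin' (-A.map D * T) w) = U.mkQ (toLin' A (ψ w)) - U.mkQ (ψ (toLin' h w))
      rw [← e2, Matrix.neg_mul, map_neg, LinearMap.neg_apply, map_neg]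
      abel
    have d5 := (Submodule.finrank_mono d4).trans (Submodule.finrank_map_le _ _)
    have d6 : Fintype.card I * (Fintype.card P - Fintype.card I) =
        (Fintype.card P - Fintype.card I) * (Fintype.card I - σ) +
          (Fintype.card P - Fintype.card I) * σ := by
      rw [← Nat.mul_add, Nat.sub_add_cancel (by omega), mul_comm]
    omega
  · obtain ⟨B, hB⟩ : ∃ B, B = A - ν • (1 : Matrix P P L) := ⟨_, rfl⟩
    obtain ⟨C, hC⟩ : ∃ C, C = ker (toLin' (h - ν • 1)) := ⟨_, rfl⟩
    have hBT : B * T = T * (h - ν • 1) := by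
      simp only [hB, Matrix.sub_mul, Matrix.mul_sub, hAT, Matrix.smul_mul, Matrix.mul_smul,
        Matrix.one_mul, Matrix.mul_one]
    obtain ⟨U, hU⟩ : ∃ U, U = range (toLin' (B * T)) := ⟨_, rfl⟩
    have hUm : ∀ w, U.mkQ (toLin' (B * T) w) = 0 := fun w =>
      (Submodule.Quotient.mk_eq_zero U).2 (by rw [hU]; exact ⟨_, rfl⟩)
    have d1 : finrank L U ≤ σ := by
      rw [hU, hBT, toLin'_mul, range_comp, hσ]
      exact Submodule.finrank_map_le _ _
    have d2 : k - σ ≤ finrank L (range (U.mkQ.comp (toLin' B))) := by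
      have a1 := finrank_le_map_add (range (toLin' B)) U.mkQ
      have a2 : finrank L (range (toLin' B) ⊓ ker U.mkQ : Submodule L _) ≤ finrank L U :=
        Submodule.finrank_mono (by rw [Submodule.ker_mkQ]; exact inf_le_right)
      have a3 := hk ν
      rw [← hB] at a3
      rw [range_comp]
      omega
    have d4 : range (llcomp (σ₁₂ := RingHom.id L) L C _ _
        (range (U.mkQ.comp (toLin' B))).subtype) ≤ Γ.map
        ((lcomp L _ C.subtype).comp ((llcomp L _ _ _ U.mkQ).comp
          (toLin'.toLinearMap.comp (mulRightLinearMap P L T)))) := by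
      rintro _ ⟨φ, rfl⟩
      obtain ⟨ψ, hψ⟩ := projective_lifting_property _ φ
        (surjective_rangeRestrict (U.mkQ.comp (toLin' B)))
      obtain ⟨l, hl⟩ := C.subtype.exists_leftInverse_of_injective C.ker_subtype
      obtain ⟨D, X, hD⟩ := gen (LinearMap.toMatrix' (ψ.comp l))
      have b1 : B.map D = A.map D - D ν • 1 := by
        ext i j
        simp only [hB, map_apply, Matrix.sub_apply, Matrix.smul_apply, one_apply, map_sub]
        split_ifs <;> simp
      refine ⟨-B.map D, neg_mem (b1 ▸ sub_mem (hΓ D) (Γ.smul_mem _ h1)), LinearMap.ext fun w => ?_⟩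
      have e0 : (B * T) *ᵥ (w : I → L) = 0 := by
        have : (h - ν • 1) *ᵥ (w : I → L) = 0 := by
          have := w.2
          simp only [hC] at this
          exact this
        rw [hBT, ← mulVec_mulVec, this, mulVec_zero]
      have e1 := dmulVec D (B * T) w
      rw [e0, dmul, hD, Matrix.mul_add, ← Matrix.mul_assoc] at e1
      have e2 := congrArg U.mkQ e1
      have e3 : (D ∘ (0 : P → L)) = 0 := by ext; simp
      simp only [e3, LinearMap.add_apply, map_add, map_zero, ← toLin'_apply, hUm, toLin'_mul_apply (B * T),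
        add_zero] at e2
      rw [toLin'_mul_apply B, toLin'_toMatrix', LinearMap.comp_apply,
        show l w = w from LinearMap.congr_fun hl w] at e2
      rw [← hψ]
      change U.mkQ (toLin' (-B.map D * T) w) = U.mkQ (toLin' B (ψ w))
      rw [Matrix.neg_mul, map_neg, LinearMap.neg_apply, map_neg]
      exact neg_eq_of_add_eq_zero_right e2.symm
    have d5 := (Submodule.finrank_mono d4).trans (Submodule.finrank_map_le _ _)
    rw [finrank_range_of_inj (fun φ φ' e => LinearMap.ext fun w =>
      Subtype.ext (LinearMap.congr_fun e w)), finrank_linearMap] at d5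
    refine le_trans (Nat.mul_le_mul (le_of_eq ?_) d2) d5
    rw [hC]; omega

end Pool.Agent.Lib.MP_a8bb0e_al
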