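import Pool.Agent.Lib.MP_a8bb0e_al.Core

/-! The dual rank bounds, and independent pairs of vectors for a non-scalar matrix. -/

namespace Pool.Agent.Lib.MP_a8bb0e_al

open Module LinearMap Matrix

variable {L : Type} [Field L]

lemma rk_eq {a b : Type} [Fintype b] [DecidableEq b] (X : Matrix a b L) :
    finrank L (range (toLin' X)) = X.rank := rfl

lemma left_inv {a b : Type} [Fintype a] [Fintype b] [DecidableEq a] [DecidableEq b] {S : Matrix a b L}
    (h : Function.Injective (toLin' S)) : ∃ S' : Matrix b a L, S' * S = 1 := by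
  obtain ⟨l, hl⟩ := (toLin' S).exists_leftInverse_of_injective (ker_eq_bot.2 h)
  exact ⟨LinearMap.toMatrix' l, toLin'.injective (by rw [toLin'_mul, toLin'_toMatrix', hl, toLin'_one])⟩

lemma ker_basis {a b : Type} [Fintype b] [DecidableEq b] (X : Matrix a b L) :
    ∃ (p : ℕ) (S : Matrix b (Fin p) L), X.rank + p = Fintype.card b ∧
      Function.Injective (toLin' S) ∧ X * S = 0 ∧
      ∀ (c : Type) (Y : Matrix b c L), X * Y = 0 → ∃ Z : Matrix (Fin p) c L, Y = S * Z := by
  let e := (Module.finBasis L (ker (toLin' X))).equivFun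
  have hS : toLin' (LinearMap.toMatrix' ((ker (toLin' X)).subtype.comp e.symm.toLinearMap)) =
      (ker (toLin' X)).subtype.comp e.symm.toLinearMap := toLin'_toMatrix' _
  refine ⟨_, LinearMap.toMatrix' ((ker (toLin' X)).subtype.comp e.symm.toLinearMap), ?_, ?_, ?_,
    fun c Y hY => ?_⟩
  · rw [← rk_eq, finrank_range_add_finrank_ker, finrank_fintype_fun_eq_card]
  · rw [hS]; exact Subtype.val_injective.comp e.symm.injective
  · ext i j
    exact congrFun (e.symm (Pi.single j 1)).2 i
  · have h1 : ∀ j, Yᵀ j ∈ ker (toLin' X) := fun j => funext fun i => congrFun (congrFun hY i) j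
    refine ⟨Matrix.of fun i j => e ⟨_, h1 j⟩ i, ?_⟩
    ext i j
    have := congrFun (LinearMap.congr_fun hS (e ⟨_, h1 j⟩)) i
    simp only [LinearMap.comp_apply, LinearEquiv.coe_coe, LinearEquiv.symm_apply_apply] at this
    exact this.symm

theorem core2 [IsAlgClosed L] {P I : Type} [Fintype P] [Fintype I] [DecidableEq P] [DecidableEq I]
    (A : Matrix P P L) (T : Matrix P I L) (h : Matrix I I L) (hAT : A * T = T * h)
    (hT : Function.Injective (toLin' T))
    (gen : ∀ δ : Matrix P I L, ∃ D : Derivation ℤ L L, T.map D = δ)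
    (Γ : Submodule L (Matrix P P L)) (hΓ : ∀ D : Derivation ℤ L L, A.map D ∈ Γ) (h1 : 1 ∈ Γ)
    (k : ℕ) (hk : ∀ ν : L, k ≤ (A - ν • 1).rank) :
    ∃ σ, Fintype.card I * σ ≤ finrank L Γ ∧
      (Fintype.card P - Fintype.card I - σ) * (k - σ) ≤ finrank L Γ := by
  obtain ⟨p, S, a1, a2, a3, a4⟩ := ker_basis Tᵀ
  rw [rank_transpose, ← rk_eq, finrank_range_of_inj hT, finrank_fintype_fun_eq_card] at a1
  obtain ⟨h', hh'⟩ := a4 _ (Aᵀ * S) (by
    rw [← Matrix.mul_assoc, ← transpose_mul, hAT, transpose_mul, Matrix.mul_assoc, a3,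
      Matrix.mul_zero])
  obtain ⟨S', hS'⟩ := left_inv a2
  obtain ⟨σ, b1, b2⟩ := core Aᵀ S h' hh' a2 (fun δ => by
      obtain ⟨D, hD⟩ := gen (-(Tᵀ * δ * S')ᵀ)
      have e := dmul D Tᵀ S
      rw [a3, transpose_map, hD, transpose_neg, transpose_transpose, Matrix.neg_mul,
        Matrix.mul_assoc, hS', Matrix.mul_one] at e
      obtain ⟨X, hX⟩ := a4 _ (S.map D - δ) (by
        rw [Matrix.mul_sub, sub_eq_neg_add, ← e]; ext; simp)
      exact ⟨D, X, by rw [← hX]; abel⟩)
    (Γ.map (transposeLinearEquiv P P L L).toLinearMap) (fun D => ⟨_, hΓ D, rfl⟩)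
    ⟨1, h1, transpose_one⟩ k fun ν => by
      rw [rk_eq, ← rank_transpose, transpose_sub, transpose_transpose, transpose_smul, transpose_one]
      exact hk ν
  rw [LinearEquiv.finrank_map_eq, Fintype.card_fin] at b1 b2
  refine ⟨σ, ?_, ?_⟩
  · rwa [show Fintype.card P - p = Fintype.card I by omega] at b1
  · rwa [show Fintype.card P - Fintype.card I = p by omega]

lemma exists_pair [IsAlgClosed L] {V : Type} [AddCommGroup V] [Module L V] [FiniteDimensional L V]
    (g : V →ₗ[L] V) (S : Submodule L V) (h1 : finrank L S + 2 ≤ finrank L V)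
    (h2 : ∀ μ : L, finrank L S < finrank L (range (g - μ • LinearMap.id))) :
    ∃ x, LinearIndependent L ![S.mkQ x, S.mkQ (g x)] := by
  by_contra hc
  push Not at hc
  obtain ⟨s, hs⟩ := S.mkQ.exists_rightInverse_of_surjective S.range_mkQ
  have hs' : ∀ w, S.mkQ (s w) = w := fun w => LinearMap.congr_fun hs w
  obtain ⟨μ, hμ⟩ := (S.mkQ.comp (g.comp s)).exists_eq_smul_id_of_forall_notLinearIndependent
    fun w => by simpa only [hs', LinearMap.comp_apply] using hc (s w)
  have hμ' : ∀ w, S.mkQ (g (s w)) = μ • w := fun w => LinearMap.congr_fun hμ w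
  have h3 : ∀ x ∈ S, S.mkQ (g x) = 0 := fun x hx => by
    by_contra h0
    obtain ⟨w, hw⟩ := exists_linearIndependent_pair_of_one_lt_finrank (R := L)
      (by have := S.finrank_quotient_add_finrank; omega) h0
    apply hc (s w + x)
    rw [map_add, map_add, map_add, hs', hμ', S.mkQ_apply x, (Submodule.Quotient.mk_eq_zero S).2 hx,
      add_zero, LinearIndependent.pair_iff]
    intro a b e
    obtain ⟨e1, e2⟩ := LinearIndependent.pair_iff.1 hw b (a + b * μ) (by
      rw [← e, smul_add, add_smul, mul_smul]; abel)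
    rw [e1, zero_mul, add_zero] at e2
    exact ⟨e2, e1⟩
  refine (h2 μ).not_ge (Submodule.finrank_mono ?_)
  rintro _ ⟨x, rfl⟩
  rw [← Submodule.Quotient.mk_eq_zero, ← S.mkQ_apply]
  have h4 := h3 (x - s (S.mkQ x)) (by
    rw [← Submodule.Quotient.mk_eq_zero, ← S.mkQ_apply, map_sub, hs', sub_self])
  rw [map_sub, map_sub, hμ'] at h4
  simpa using h4

lemma exists_family [IsAlgClosed L] {V : Type} [AddCommGroup V] [Module L V] [FiniteDimensional L V]
    (g : V →ₗ[L] V) (r : ℕ) (hr : ∀ μ : L, r ≤ finrank L (range (g - μ • LinearMap.id))) (j : ℕ)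
    (h1 : 2 * j ≤ finrank L V) (h2 : 2 * j ≤ r + 1) :
    ∃ x : Fin j → V, LinearIndependent L (Sum.elim x fun i => g (x i)) := by
  induction j with
  | zero => exact ⟨Fin.elim0, linearIndependent_empty_type⟩
  | succ j ih =>
    obtain ⟨x, hx⟩ := ih (by omega) (by omega)
    obtain ⟨S, hS⟩ : ∃ S, S = Submodule.span L (Set.range (Sum.elim x fun i => g (x i))) := ⟨_, rfl⟩
    have h3 : finrank L S = 2 * j := by
      rw [hS, finrank_span_eq_card hx]; simp [two_mul]
    obtain ⟨y, hy⟩ := exists_pair g S (by omega) fun μ => by have := hr μ; omega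
    refine ⟨Fin.cons y x, Fintype.linearIndependent_iff.2 fun c hc => ?_⟩
    simp only [Fintype.sum_sum_type, Fin.sum_univ_succ, Sum.elim_inl, Sum.elim_inr, Fin.cons_zero,
      Fin.cons_succ] at hc
    have h4 : ∀ i, S.mkQ (Sum.elim x (fun i => g (x i)) i) = 0 := fun i =>
      (Submodule.Quotient.mk_eq_zero S).2 (hS ▸ Submodule.subset_span ⟨i, rfl⟩)
    have h5 : ∀ i, S.mkQ (x i) = 0 := fun i => h4 (Sum.inl i)
    have h6 : ∀ i, S.mkQ (g (x i)) = 0 := fun i => h4 (Sum.inr i)
    obtain ⟨e1, e2⟩ := LinearIndependent.pair_iff.1 hy (c (Sum.inl 0)) (c (Sum.inr 0)) (by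
      have := congrArg S.mkQ hc
      simpa only [map_add, map_smul, map_sum, h5, h6, smul_zero, Finset.sum_const_zero, add_zero,
        map_zero] using this)
    have h7 := Fintype.linearIndependent_iff.1 hx (fun i => c (Sum.map Fin.succ Fin.succ i)) (by
      simpa [Fintype.sum_sum_type, e1, e2] using hc)
    rintro (i | i) <;> refine Fin.cases ?_ (fun i => ?_) i
    exacts [e1, h7 (Sum.inl i), e2, h7 (Sum.inr i)]

end Pool.Agent.Lib.MP_a8bb0e_al
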