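import Pool.Agent.Lib.MP_a8bb0e_al.Generic

/-! The local-global principle for rigid tuples of forms. -/

namespace Pool.Agent.Lib.MP_a8bb0e_al

open Matrix MvPolynomial

variable {n : ℕ} {I : Type} [Fintype I] [DecidableEq I] {t t' : Matrix (Pr n) I ℤ}

/-- an equivalence between two tuples of forms over the ring `R` -/
def Iso (t t' : Matrix (Pr n) I ℤ) {R : Type} [CommRing R] (g g' : Matrix (Fin n) (Fin n) R)
    (h h' : Matrix I I R) : Prop :=
  g * g' = 1 ∧ h * h' = 1 ∧ wedge g g * t.map (Int.castRingHom R) = t'.map (Int.castRingHom R) * h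

section
variable {R S : Type} [CommRing R] [CommRing S] {g g' : Matrix (Fin n) (Fin n) R} {h h' : Matrix I I R}

lemma iso_map_iff (φ : R →+* S) : Iso t t' (g.map φ) (g'.map φ) (h.map φ) (h'.map φ) ↔
    (g * g').map φ = (1 : Matrix _ _ R).map φ ∧ (h * h').map φ = (1 : Matrix _ _ R).map φ ∧
      (wedge g g * t.map (Int.castRingHom R)).map φ = (t'.map (Int.castRingHom R) * h).map φ := by
  have e : ∀ s : Matrix (Pr n) I ℤ, (s.map (Int.castRingHom R)).map φ = s.map (Int.castRingHom S) :=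
    fun s => by ext; simp
  simp only [Iso, Matrix.map_mul, Matrix.map_one φ (map_zero _) (map_one _), wedge_map, e]

lemma Iso.map (H : Iso t t' g g' h h') (φ : R →+* S) :
    Iso t t' (g.map φ) (g'.map φ) (h.map φ) (h'.map φ) :=
  (iso_map_iff φ).2 ⟨by rw [H.1], by rw [H.2.1], by rw [H.2.2]⟩

lemma Iso.of_map (φ : R →+* S) (hφ : Function.Injective φ)
    (H : Iso t t' (g.map φ) (g'.map φ) (h.map φ) (h'.map φ)) : Iso t t' g g' h h' :=
  have H' := (iso_map_iff φ).1 H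
  ⟨map_injective hφ H'.1, map_injective hφ H'.2.1, map_injective hφ H'.2.2⟩

lemma Iso.smul (H : Iso t t' g g' h h') {c c' : R} (hc : c * c' = 1) :
    Iso t t' (c • g) (c' • g') (c ^ 2 • h) (c' ^ 2 • h') := by
  refine ⟨?_, ?_, ?_⟩
  · rw [smul_mul_smul_comm, hc, H.1, one_smul]
  · rw [smul_mul_smul_comm, ← mul_pow, hc, H.2.1, one_pow, one_smul]
  · rw [wedge_smul, Matrix.smul_mul, H.2.2, Matrix.mul_smul]

end

lemma Iso.unique (ht : Rigid t) {F : Type} [Field F] [CharZero F]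
    {g1 g1' g2 g2' : Matrix (Fin n) (Fin n) F} {h1 h1' h2 h2' : Matrix I I F}
    (H1 : Iso t t' g1 g1' h1 h1') (H2 : Iso t t' g2 g2' h2 h2') :
    ∃ c : F, g1 = c • g2 ∧ h1 = c ^ 2 • h2 ∧ g2' = c • g1' ∧ h2' = c ^ 2 • h1' := by
  have a1 := mul_eq_one_comm.1 H2.1
  have a2 : wedge g2' g2' * t'.map (Int.castRingHom F) = t.map (Int.castRingHom F) * h2' := by
    rw [← Matrix.mul_one (t'.map _), ← H2.2.1, ← Matrix.mul_assoc (t'.map _), ← H2.2.2,
      ← Matrix.mul_assoc, ← Matrix.mul_assoc, ← wedge_mul, H2.1, wedge_one, Matrix.one_mul]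
  have a3 : wedge (g1 * g2') (g1 * g2') * t.map (Int.castRingHom F) =
      t.map (Int.castRingHom F) * (h2' * h1) := by
    rw [wedge_mul, Matrix.mul_assoc, H1.2.2, ← Matrix.mul_assoc, a2, Matrix.mul_assoc]
  obtain ⟨c, hc⟩ := (ht F).2 _ (g2 * g1') _ (by
    rw [Matrix.mul_assoc, ← Matrix.mul_assoc g2', a1, Matrix.one_mul, H1.1]) a3
  have a4 : h2' * h1 = c ^ 2 • 1 := by
    rw [hc, wedge_smul, wedge_one, Matrix.smul_mul, Matrix.one_mul] at a3
    refine Matrix.ext_of_mulVec_single fun q => sub_eq_zero.1 ((ht F).1 _ ?_)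
    rw [mulVec_sub, mulVec_mulVec, mulVec_mulVec, ← a3, Matrix.mul_smul, Matrix.mul_one, sub_self]
  refine ⟨c, ?_, ?_, ?_, ?_⟩
  · rw [← Matrix.mul_one g1, ← a1, ← Matrix.mul_assoc, hc, Matrix.smul_mul, Matrix.one_mul]
  · rw [← Matrix.one_mul h1, ← H2.2.1, Matrix.mul_assoc, a4, Matrix.mul_smul, Matrix.mul_one]
  · rw [← Matrix.one_mul g2', ← mul_eq_one_comm.1 H1.1, Matrix.mul_assoc, hc, Matrix.mul_smul,
      Matrix.mul_one]
  · rw [← Matrix.mul_one h2', ← H1.2.1, ← Matrix.mul_assoc, a4, Matrix.smul_mul, Matrix.one_mul]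

lemma Iso.closure (K : Type) [Field K] [Algebra ℚ K] [IsAlgClosed K] {F : Type} [Field F] [CharZero F]
    {g g' : Matrix (Fin n) (Fin n) F} {h h' : Matrix I I F} (H : Iso t t' g g' h h') :
    ∃ (g g' : Matrix (Fin n) (Fin n) K) (h h' : Matrix I I K), Iso t t' g g' h h' := by
  let σ := ((Fin n × Fin n) ⊕ (Fin n × Fin n)) ⊕ (I × I) ⊕ (I × I)
  let x : σ → F := Sum.elim (Sum.elim (fun p => g p.1 p.2) fun p => g' p.1 p.2)
    (Sum.elim (fun p => h p.1 p.2) fun p => h' p.1 p.2)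
  let φ := eval₂Hom (Int.castRingHom F) x
  have : ∃ y : σ → K, ∀ f, φ f = 0 → eval₂Hom (algebraMap ℤ K) y f = 0 := by
    by_contra hc
    obtain ⟨P, hP, e⟩ := spread (D := ℤ) (k := ℚ) (K := K) {f | φ f = 0} fun y hy => hc ⟨y, hy⟩
    exact hP (by simpa [φ] using e F φ fun _ hf => hf)
  obtain ⟨y, hy⟩ := this
  let G : Matrix (Fin n) (Fin n) (MvPolynomial σ ℤ) := Matrix.of fun a b => X (.inl (.inl (a, b)))
  let G' : Matrix (Fin n) (Fin n) (MvPolynomial σ ℤ) := Matrix.of fun a b => X (.inl (.inr (a, b)))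
  let E : Matrix I I (MvPolynomial σ ℤ) := Matrix.of fun a b => X (.inr (.inl (a, b)))
  let E' : Matrix I I (MvPolynomial σ ℤ) := Matrix.of fun a b => X (.inr (.inr (a, b)))
  have H1 : Iso t t' (G.map φ) (G'.map φ) (E.map φ) (E'.map φ) := by
    convert H <;> ext <;> simp [G, G', E, E', φ, x]
  refine ⟨_, _, _, _, (iso_map_iff (g := G) (g' := G') (h := E) (h' := E')
    (eval₂Hom (algebraMap ℤ K) y)).2 ?_⟩
  simp only [iso_map_iff, ← map_eq_iff] at H1 ⊢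
  exact ⟨fun i j => hy _ (H1.1 i j), fun i j => hy _ (H1.2.1 i j), fun i j => hy _ (H1.2.2 i j)⟩

lemma Iso.rat' (K : Type) [Field K] [CharZero K] [Algebra ℚ K] [IsAlgClosed K] [IsGalois ℚ K]
    (ht : Rigid t) (hn : 0 < n) {F : Type} [Field F] [CharZero F]
    {g g' : Matrix (Fin n) (Fin n) F} {h h' : Matrix I I F} (H : Iso t t' g g' h h') :
    ∃ (g g' : Matrix (Fin n) (Fin n) ℚ) (h h' : Matrix I I ℚ), Iso t t' g g' h h' := by
  obtain ⟨g, g', h, h', H⟩ := H.closure K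
  obtain ⟨i, j, hij⟩ : ∃ i j, g i j ≠ 0 := by
    by_contra hc
    push Not at hc
    simpa [Matrix.mul_apply, hc] using congrFun (congrFun H.1 ⟨0, hn⟩) ⟨0, hn⟩
  have H1 := H.smul (inv_mul_cancel₀ hij)
  have e1 : ((g i j)⁻¹ • g) i j = 1 := inv_mul_cancel₀ hij
  generalize (g i j)⁻¹ • g = G, g i j • g' = G', (g i j)⁻¹ ^ 2 • h = E, g i j ^ 2 • h' = E' at H1 e1
  have fx : ∀ s : Gal(K/ℚ), G.map s = G ∧ E.map s = E ∧ G' = G'.map s ∧ E' = E'.map s := fun s => by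
    obtain ⟨c, a1, a2, a3, a4⟩ := (H1.map (s : K →+* K)).unique ht H1
    have : c = 1 := by simpa [e1] using (congrFun (congrFun a1 i) j).symm
    rw [this, one_smul] at a1 a3
    rw [this, one_pow, one_smul] at a2 a4
    exact ⟨a1, a2, a3, a4⟩
  have mk : ∀ {a b : Type} (M : Matrix a b K), (∀ s : Gal(K/ℚ), M.map s = M) →
      ∃ M0 : Matrix a b ℚ, M0.map (algebraMap ℚ _) = M := fun M hM => by
    choose f hf using fun i j => (InfiniteGalois.mem_range_algebraMap_iff_fixed (k := ℚ) (M i j)).2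
      fun s => congrFun (congrFun (hM s) i) j
    exact ⟨Matrix.of f, Matrix.ext hf⟩
  obtain ⟨G, rfl⟩ := mk G fun s => (fx s).1
  obtain ⟨E, rfl⟩ := mk E fun s => (fx s).2.1
  obtain ⟨G', rfl⟩ := mk G' fun s => (fx s).2.2.1.symm
  obtain ⟨E', rfl⟩ := mk E' fun s => (fx s).2.2.2.symm
  exact ⟨G, G', E, E', H1.of_map _ (algebraMap ℚ _).injective⟩

lemma Iso.rat (ht : Rigid t) (hn : 0 < n) {F : Type} [Field F] [CharZero F]
    {g g' : Matrix (Fin n) (Fin n) F} {h h' : Matrix I I F} (H : Iso t t' g g' h h') :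
    ∃ (g g' : Matrix (Fin n) (Fin n) ℚ) (h h' : Matrix I I ℚ), Iso t t' g g' h h' :=
  @Iso.rat' _ _ _ _ _ _ (AlgebraicClosure ℚ) _ _ (AlgebraicClosure.instAlgebra ℚ) _
    (IsAlgClosure.isGalois ℚ _) ht hn _ _ _ _ _ _ _ H

lemma int_of_padic {a b : Type} (M : Matrix a b ℚ)
    (h : ∀ (p : ℕ) [Fact p.Prime] i j, ‖(M i j : ℚ_[p])‖ ≤ 1) :
    ∃ M0 : Matrix a b ℤ, M0.map (Int.castRingHom ℚ) = M := by
  refine ⟨Matrix.of fun i j => (M i j).num, Matrix.ext fun i j => Rat.coe_int_num_of_den_eq_one ?_⟩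
  by_contra hc
  obtain ⟨p, hp, hd⟩ := Nat.exists_prime_and_dvd hc
  have : Fact p.Prime := ⟨hp⟩
  have h1 := PadicInt.isUnit_iff.1 (PadicInt.isUnit_den _ (h p i j))
  have h2 := (PadicInt.norm_int_lt_one_iff_dvd (p := p) (M i j).den).2 (by exact_mod_cast hd)
  rw [Int.cast_natCast, h1] at h2
  exact lt_irrefl _ h2

theorem glue (ht : Rigid t) (hn : 0 < n) (loc : ∀ (p : ℕ) [Fact p.Prime],
    ∃ (g g' : Matrix (Fin n) (Fin n) ℤ_[p]) (h h' : Matrix I I ℤ_[p]), Iso t t' g g' h h') :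
    ∃ (g g' : Matrix (Fin n) (Fin n) ℤ) (h h' : Matrix I I ℤ), Iso t t' g g' h h' := by
  obtain ⟨g, g', h, h', H⟩ := loc 2
  obtain ⟨g, g', h, h', H⟩ := (H.map PadicInt.Coe.ringHom).rat ht hn
  obtain ⟨b, hb⟩ := IsLocalization.exist_integer_multiples_of_finite (nonZeroDivisors ℤ)
    fun p : Fin n × Fin n => g p.1 p.2
  choose u hu using hb
  obtain ⟨w, hw, hw1⟩ := Finset.extract_gcd (s := Finset.univ) u ⟨(⟨0, hn⟩, ⟨0, hn⟩), Finset.mem_univ _⟩
  have hb0 : ((b : ℤ) : ℚ) ≠ 0 := by exact_mod_cast nonZeroDivisors.ne_zero b.2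
  have hu' : ∀ i j, (b : ℤ) * g i j = (Finset.univ.gcd u : ℤ) * (w (i, j) : ℚ) := fun i j => by
    have := hu (i, j)
    rw [hw _ (Finset.mem_univ _)] at this
    simpa [Submonoid.smul_def] using this.symm
  have hd0 : ((Finset.univ.gcd u : ℤ) : ℚ) ≠ 0 := fun h0 => by
    simp only [h0, zero_mul, mul_eq_zero, hb0, false_or] at hu'
    simpa [Matrix.mul_apply, hu'] using congrFun (congrFun H.1 ⟨0, hn⟩) ⟨0, hn⟩
  have H1 := H.smul (c := (b : ℤ) / (Finset.univ.gcd u : ℤ)) (c' := (Finset.univ.gcd u : ℤ) / (b : ℤ))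
    (by field_simp)
  have e1 : ∀ i j, ((((b : ℤ) : ℚ) / (Finset.univ.gcd u : ℤ)) • g) i j = w (i, j) := fun i j => by
    rw [Matrix.smul_apply, smul_eq_mul, div_mul_eq_mul_div, hu', mul_div_cancel_left₀ _ hd0]
  generalize (((b : ℤ) : ℚ) / (Finset.univ.gcd u : ℤ)) • g = G at H1 e1
  generalize (((Finset.univ.gcd u : ℤ) : ℚ) / (b : ℤ)) • g' = G' at H1
  generalize (((b : ℤ) : ℚ) / (Finset.univ.gcd u : ℤ)) ^ 2 • h = E at H1
  generalize (((Finset.univ.gcd u : ℤ) : ℚ) / (b : ℤ)) ^ 2 • h' = E' at H1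
  have key : ∀ (p : ℕ) [Fact p.Prime], (∀ i j, ‖(G i j : ℚ_[p])‖ ≤ 1) ∧ (∀ i j, ‖(G' i j : ℚ_[p])‖ ≤ 1) ∧
      (∀ i j, ‖(E i j : ℚ_[p])‖ ≤ 1) ∧ ∀ i j, ‖(E' i j : ℚ_[p])‖ ≤ 1 := fun p _ => by
    obtain ⟨q, q', r, r', H2⟩ := loc p
    obtain ⟨c, a1, a2, a3, a4⟩ := (H1.map (Rat.castHom ℚ_[p])).unique ht (H2.map PadicInt.Coe.ringHom)
    have b1 : ‖c‖ ≤ 1 := by
      have e2 : G.map (Rat.castHom ℚ_[p]) =
          (Matrix.of fun i j => (w (i, j) : ℤ_[p])).map PadicInt.Coe.ringHom := by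
        ext i j; simp [e1]
      have e3 : ((Matrix.of fun i j => (w (i, j) : ℤ_[p])) * q').map PadicInt.Coe.ringHom = c • 1 := by
        rw [Matrix.map_mul, ← e2, a1, Matrix.smul_mul, (H2.map _).1]
      have e4 := congrFun (congrFun e3 ⟨0, hn⟩) ⟨0, hn⟩
      rw [Matrix.smul_apply, one_apply_eq, smul_eq_mul, mul_one] at e4
      rw [← e4]
      exact PadicInt.norm_le_one _
    have b2 : 1 ≤ ‖c‖ := by
      by_contra hc
      have : (p : ℤ) ∣ Finset.univ.gcd w := Finset.dvd_gcd fun ij _ => by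
        have e4 : (G ij.1 ij.2 : ℚ_[p]) = c * q ij.1 ij.2 := congrFun (congrFun a1 ij.1) ij.2
        rw [← Padic.norm_intCast_lt_one_iff, ← Rat.cast_intCast, ← e1, e4, norm_mul]
        exact (mul_le_of_le_one_right (norm_nonneg _) (PadicInt.norm_le_one _)).trans_lt (not_le.1 hc)
      rw [hw1] at this
      exact (Fact.out : p.Prime).one_lt.ne' (by exact_mod_cast Int.eq_one_of_dvd_one (by simp) this)
    have b3 := le_antisymm b1 b2
    refine ⟨fun i j => ?_, fun i j => ?_, fun i j => ?_, fun i j => ?_⟩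
    · rw [show (G i j : ℚ_[p]) = c * q i j from congrFun (congrFun a1 i) j, norm_mul, b3, one_mul]
      exact PadicInt.norm_le_one _
    · have := PadicInt.norm_le_one (q' i j)
      rwa [PadicInt.norm_def, show (q' i j : ℚ_[p]) = c * G' i j from congrFun (congrFun a3 i) j,
        norm_mul, b3, one_mul] at this
    · rw [show (E i j : ℚ_[p]) = c ^ 2 * r i j from congrFun (congrFun a2 i) j, norm_mul, norm_pow, b3,
        one_pow, one_mul]
      exact PadicInt.norm_le_one _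
    · have := PadicInt.norm_le_one (r' i j)
      rwa [PadicInt.norm_def, show (r' i j : ℚ_[p]) = c ^ 2 * E' i j from congrFun (congrFun a4 i) j,
        norm_mul, norm_pow, b3, one_pow, one_mul] at this
  obtain ⟨G, rfl⟩ := int_of_padic G fun p _ => (key p).1
  obtain ⟨G', rfl⟩ := int_of_padic G' fun p _ => (key p).2.1
  obtain ⟨E, rfl⟩ := int_of_padic E fun p _ => (key p).2.2.1
  obtain ⟨E', rfl⟩ := int_of_padic E' fun p _ => (key p).2.2.2
  exact ⟨G, G', E, E', H1.of_map _ Int.cast_injective⟩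

end Pool.Agent.Lib.MP_a8bb0e_al
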