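import Pool.Agent.Lib.MP_a8bb0e_al.Nil
import Pool.Agent.Lib.MP_a8bb0e_al.Glue

/-! Central extensions of a lattice by a lattice and their finite levels. -/

open scoped commutatorElement
open Matrix

namespace Pool.Agent.Lib.MP_a8bb0e_al

lemma pi_ind {σ : Type} [Finite σ] [DecidableEq σ] (S : AddSubgroup (σ → ℤ))
    (h : ∀ i, Pi.single i 1 ∈ S) (x : σ → ℤ) : x ∈ S := by
  induction x using Pi.single_induction with
  | zero => exact S.zero_mem
  | add f g hf hg => exact S.add_mem hf hg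
  | single i m =>
    have := S.zsmul_mem (h i) m
    rwa [← Pi.single_smul, smul_eq_mul, mul_one] at this

/-- `K` is a central extension of `ℤ^σ` by `ℤ^I`, the centre part being torsion modulo commutators -/
structure Ext (K : Type) [Group K] (σ I : Type) where
  P : K →* Multiplicative (σ → ℤ)
  J : Multiplicative (I → ℤ) →* K
  Ps : Function.Surjective P
  Ji : Function.Injective J
  ex : ∀ k, P k = 1 ↔ k ∈ J.range
  cen : ∀ c k, Commute (J c) k
  tor : ∀ c, ∃ N : ℕ, 0 < N ∧ J c ^ N ∈ commutator K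

namespace Ext

variable {K : Type} [Group K] {σ I : Type} (E : Ext K σ I)

/-- projection -/
def p (k : K) : σ → ℤ := (E.P k).toAdd

/-- inclusion -/
def i (c : I → ℤ) : K := E.J (.ofAdd c)

lemma p_mul (a b : K) : E.p (a * b) = E.p a + E.p b := by simp [p]
lemma p_inv (a : K) : E.p a⁻¹ = -E.p a := by simp [p]
lemma p_pow (a : K) (m : ℕ) : E.p (a ^ m) = m • E.p a := by simp [p]
lemma p_one : E.p 1 = 0 := by simp [p]
lemma i_add (c d : I → ℤ) : E.i (c + d) = E.i c * E.i d := by simp [i]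
lemma i_neg (c : I → ℤ) : E.i (-c) = (E.i c)⁻¹ := by simp [i]
lemma i_smul (m : ℕ) (c : I → ℤ) : E.i (m • c) = E.i c ^ m := by
  rw [i, ofAdd_nsmul, map_pow, i]
lemma i_zero : E.i 0 = 1 := by simp [i]
lemma p_i (c : I → ℤ) : E.p (E.i c) = 0 := congrArg Multiplicative.toAdd ((E.ex _).2 ⟨_, rfl⟩)
lemma i_inj {c d : I → ℤ} (h : E.i c = E.i d) : c = d := E.Ji h
lemma i_cen (c : I → ℤ) (k : K) : Commute (E.i c) k := E.cen _ k
lemma p_surj (x : σ → ℤ) : ∃ k, E.p k = x := E.Ps (.ofAdd x)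
lemma of_p {k : K} (h : E.p k = 0) : ∃ c, E.i c = k := (E.ex k).1 h

lemma of_p_eq {u v : K} (h : E.p u = E.p v) : ∃ c, u = v * E.i c := by
  obtain ⟨c, hc⟩ := E.of_p (k := v⁻¹ * u) (by rw [p_mul, p_inv, h, neg_add_cancel])
  exact ⟨c, by rw [hc, mul_inv_cancel_left]⟩

lemma p_comm {k : K} (h : k ∈ commutator K) : E.p k = 0 :=
  congrArg Multiplicative.toAdd (Abelianization.commutator_subset_ker E.P h)

include E in
lemma cl2 : Cl2 K := ⟨fun a b c => by
  obtain ⟨d, hd⟩ := E.of_p (E.p_comm (Subgroup.commutator_mem_commutator (g₁ := a) (g₂ := b) trivial trivial))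
  rw [← hd]; exact E.i_cen d c⟩

lemma comm_congr {u u' v v' : K} (h : E.p u = E.p u') (h' : E.p v = E.p v') : ⁅u, v⁆ = ⁅u', v'⁆ := by
  have := E.cl2
  obtain ⟨c, rfl⟩ := E.of_p_eq h
  obtain ⟨d, rfl⟩ := E.of_p_eq h'
  have z : ∀ c k, cm (E.i c) k = 1 := fun c k =>
    Subtype.ext (commutatorElement_eq_one_iff_commute.2 (E.i_cen c k))
  have : cm (u' * E.i c) (v' * E.i d) = cm u' v' := by
    rw [cm_mul_left, z, mul_one, cm_mul_right, cm_swap u' (E.i d), z, inv_one, mul_one]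
  exact congrArg Subtype.val this

lemma exists_om : ∃ w : (σ → ℤ) →ₗ[ℤ] (σ → ℤ) →ₗ[ℤ] I → ℤ, ∀ u v, E.i (w (E.p u) (E.p v)) = ⁅u, v⁆ := by
  have := E.cl2
  choose s hs using E.p_surj
  choose w hw using fun x y => E.of_p (E.p_comm (cm (s x) (s y)).2)
  have h1 : ∀ u v, E.i (w (E.p u) (E.p v)) = cm u v := fun u v =>
    (hw _ _).trans (E.comm_congr (hs _) (hs _))
  refine ⟨(AddMonoidHom.mk' (fun x => (AddMonoidHom.mk' (w x) fun y y' => E.i_inj ?_).toIntLinearMap)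
    fun x x' => LinearMap.ext fun y => E.i_inj ?_).toIntLinearMap, h1⟩
  · rw [← hs x, ← hs y, ← hs y', ← p_mul, i_add, h1, h1, h1, cm_mul_right]; rfl
  · change E.i (w _ _) = E.i (w _ _ + w _ _)
    rw [← hs x, ← hs y, ← hs x', ← p_mul, i_add, h1, h1, h1, cm_mul_left]; rfl

/-- the commutator form -/
noncomputable def w := E.exists_om.choose

lemma i_w (u v : K) : E.i (E.w (E.p u) (E.p v)) = ⁅u, v⁆ := E.exists_om.choose_spec u v

lemma w_swap (x y : σ → ℤ) : E.w y x = -E.w x y := by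
  obtain ⟨u, rfl⟩ := E.p_surj x
  obtain ⟨v, rfl⟩ := E.p_surj y
  exact E.i_inj (by rw [i_neg, i_w, i_w, commutatorElement_inv])

lemma w_self (x : σ → ℤ) : E.w x x = 0 := by
  obtain ⟨u, rfl⟩ := E.p_surj x
  exact E.i_inj (by rw [i_w, i_zero, commutatorElement_self])

lemma p_Vm {M : ℕ} {k : K} (h : k ∈ Vm K M) : ∃ y, E.p k = M • y := by
  obtain ⟨s, hs⟩ := Vm_le (N := (powMonoidHom M).range.comap E.P) (fun g => ⟨E.P g, by simp⟩) h
  exact ⟨s.toAdd, by rw [p, ← hs]; rfl⟩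

lemma root {M : ℕ} {k : K} {y : σ → ℤ} (h : E.p k = M • y) : ∃ u c, k = u ^ M * E.i c := by
  obtain ⟨u, rfl⟩ := E.p_surj y
  obtain ⟨c, hc⟩ := E.of_p_eq (h.trans (E.p_pow u M).symm)
  exact ⟨u, c, hc⟩

lemma i_Vm {m : ℕ} (hm : 0 < m) {c : I → ℤ} (hc : E.i c ∈ Vm K (2 * m)) : ∃ d, c = m • d := by
  have := E.cl2
  let W : Subgroup K :=
    { carrier := {y | ∃ h d, y = h ^ (2 * m) * E.i d ^ m}
      one_mem' := ⟨1, 0, by simp [i_zero]⟩
      mul_mem' := by
        rintro _ _ ⟨h, d, rfl⟩ ⟨k, e, rfl⟩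
        obtain ⟨x, hx⟩ := E.of_p (E.p_comm (cm k h).2)
        refine ⟨h * k, -((2 * m - 1) • x) + (d + e), ?_⟩
        have e1 : (2 * m).choose 2 = (2 * m - 1) * m := by
          rw [Nat.choose_two_right, mul_assoc, Nat.mul_div_cancel_left _ two_pos, mul_comm]
        rw [mul_pow_cl2, e1, show ⁅k, h⁆ = E.i x from hx.symm, mul_assoc, mul_assoc, mul_assoc,
          ← mul_assoc (E.i d ^ m), ((E.i_cen d _).pow_left m).eq, mul_assoc]
        simp only [← i_smul, ← i_add]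
        congr 3
        module
      inv_mem' := by
        rintro _ ⟨h, d, rfl⟩
        exact ⟨h⁻¹, -d, by
          rw [← ((E.i_cen d _).pow_left m).eq, _root_.mul_inv_rev, inv_pow, i_neg, inv_pow]⟩ }
  have : W.Normal := ⟨by
    rintro _ ⟨h, d, rfl⟩ g
    exact ⟨g * h * g⁻¹, d, by
      rw [conj_pow, mul_assoc, mul_assoc, ((E.i_cen d _).pow_left m).eq]
      simp only [mul_assoc]⟩⟩
  obtain ⟨h, d, e⟩ := Vm_le (N := W) (fun g => ⟨g, 0, by simp [i_zero]⟩) hc
  have h0 := congrArg E.p e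
  rw [p_mul, p_pow, p_pow, p_i, p_i, smul_zero, add_zero, eq_comm] at h0
  obtain ⟨x, rfl⟩ := E.of_p ((smul_eq_zero.1 h0).resolve_left (by omega))
  exact ⟨2 • x + d, E.i_inj (by rw [e, ← i_smul, ← i_smul, ← i_add]; congr 1; module)⟩

include E in
lemma root2 {M k : ℕ} (hM : 0 < M) (hk : 0 < k) {g : K} (h : g ^ k ∈ Vm K (2 * (k * M))) :
    ∃ u d, g = u ^ (2 * M) * d ^ M := by
  obtain ⟨y, hy⟩ := E.p_Vm h
  rw [p_pow, mul_left_comm, mul_smul] at hy
  obtain ⟨u, c, rfl⟩ := E.root (smul_right_injective _ hk.ne' hy)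
  rw [(E.i_cen c _).symm.mul_pow, ← pow_mul, show 2 * M * k = 2 * (k * M) by ring,
    (Vm K _).mul_mem_cancel_left (pow_mem_Vm _ u), ← i_smul] at h
  obtain ⟨d, hd⟩ := E.i_Vm (Nat.mul_pos hk hM) h
  rw [mul_smul] at hd
  exact ⟨u, E.i d, by rw [smul_right_injective _ hk.ne' hd, i_smul]⟩

/-- the projection at a finite level -/
def pq (M : ℕ) : K ⧸ Vm K M →* Multiplicative (σ → ZMod M) :=
  QuotientGroup.lift (Vm K M)
    ((AddMonoidHom.toMultiplicative ((Int.castAddHom (ZMod M)).compLeft σ)).comp E.P)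
    (Vm_le_ker _ fun q => by
      change Multiplicative.ofAdd (M • q.toAdd) = 1
      ext v; simp)

lemma pq_mk (M : ℕ) (k : K) : (E.pq M k).toAdd = fun v => (E.p k v : ZMod M) := rfl

end Ext

lemma dvd_of_cast {σ : Type} {M : ℕ} {x : σ → ℤ} (h : (fun v => (x v : ZMod M)) = 0) :
    ∃ y, x = M • y := by
  choose y hy using fun v => (ZMod.intCast_zmod_eq_zero_iff_dvd _ _).1 (congrFun h v)
  exact ⟨y, funext fun v => by simp [hy]⟩

lemma cast_of_dvd {σ : Type} {M : ℕ} {x y z : σ → ℤ} (h : x - y = M • z) (v : σ) :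
    (x v : ZMod M) = y v := by
  rw [eq_add_of_sub_eq h]; simp

variable {G H : Type} [Group G] [Group H] {σ σ' I I' : Type} [Fintype σ] [Fintype σ'] [Fintype I]
  [Fintype I'] [DecidableEq σ] [DecidableEq σ'] [DecidableEq I] [DecidableEq I']
  (E : Ext G σ I) (E' : Ext H σ' I')

omit [Fintype σ] [Fintype σ'] [Fintype I] [DecidableEq σ] [DecidableEq σ'] [DecidableEq I] in
lemma level1 (hs : ∀ M, 0 < M → ∃ f : H →* G ⧸ Vm G M, Function.Surjective f) {M : ℕ} (hM : 0 < M) :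
    ∃ f : H →* G ⧸ Vm G M, Function.Surjective f ∧
      ∃ h : Matrix I' I ℤ, ∀ c, f (E'.i c) = E.i (c ᵥ* h) := by
  choose N hN hN' using fun b : I' => E'.tor (.ofAdd (Pi.single b 1))
  have hp : 0 < ∏ b, N b := Finset.prod_pos fun b _ => hN b
  obtain ⟨f, hf⟩ := hs _ (Nat.mul_pos hp hM)
  have hq : ∀ x : G ⧸ Vm G M, x ^ ((∏ b, N b) * M) = 1 := fun x => by
    rw [mul_comm, pow_mul, quot_pow, one_pow]
  let q : G ⧸ Vm G ((∏ b, N b) * M) →* G ⧸ Vm G M := QuotientGroup.lift _ (QuotientGroup.mk' _)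
    (Vm_le_ker _ hq)
  have : ∀ b, ∃ c, q (f (E'.i (Pi.single b 1))) = E.i c := fun b => by
    obtain ⟨k, hk⟩ := QuotientGroup.mk_surjective (f (E'.i (Pi.single b 1)))
    obtain ⟨r, hr⟩ := Finset.dvd_prod_of_mem N (Finset.mem_univ b)
    have h1 := Abelianization.commutator_subset_ker ((E.pq _).comp f) (pow_mem (hN' b) r)
    rw [← pow_mul, ← hr, MonoidHom.mem_ker, MonoidHom.comp_apply, map_pow] at h1
    change E.pq _ (f (E'.i _) ^ _) = 1 at h1
    rw [← hk, ← QuotientGroup.mk_pow] at h1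
    obtain ⟨y, hy⟩ := dvd_of_cast ((E.pq_mk _ _).symm.trans (congrArg Multiplicative.toAdd h1))
    rw [E.p_pow, mul_smul] at hy
    obtain ⟨u, c, rfl⟩ := E.root (smul_right_injective _ hp.ne' hy)
    refine ⟨c, ?_⟩
    rw [← hk]
    change ((u ^ M * E.i c : G) : G ⧸ Vm G M) = _
    rw [QuotientGroup.mk_mul, QuotientGroup.mk_pow, quot_pow, one_mul]
  choose h hh using this
  refine ⟨q.comp f, (lift_surj _ (QuotientGroup.mk'_surjective _) hq).comp hf, Matrix.of h, ?_⟩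
  let S : AddSubgroup (I' → ℤ) :=
    { carrier := {c | q (f (E'.i c)) = E.i (c ᵥ* Matrix.of h)}
      zero_mem' := by simp [Ext.i_zero]
      add_mem' := fun {a b} ha hb => by
        simp only [Set.mem_ofPred_eq] at ha hb ⊢
        rw [Ext.i_add, map_mul, map_mul, ha, hb, add_vecMul, Ext.i_add, QuotientGroup.mk_mul]
      neg_mem' := fun {a} ha => by
        simp only [Set.mem_ofPred_eq] at ha ⊢
        rw [Ext.i_neg, map_inv, map_inv, ha, neg_vecMul, Ext.i_neg, QuotientGroup.mk_inv] }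
  exact pi_ind S fun b => (hh b).trans (by rw [single_one_vecMul]; rfl)

omit [Fintype σ] [Fintype I] [DecidableEq I] [DecidableEq I'] in
lemma level2 {M : ℕ} {f : H →* G ⧸ Vm G M} (hf : Function.Surjective f) {h : Matrix I' I ℤ}
    (hh : ∀ c, f (E'.i c) = E.i (c ᵥ* h)) :
    ∃ (s : σ' → H) (k : σ' → G) (g' : Matrix σ' σ (ZMod M)), (∀ j, E'.p (s j) = Pi.single j 1) ∧
      (∀ j, f (s j) = k j) ∧ (∀ u (x : G), f u = x → (fun v => (E.p x v : ZMod M)) =
        (Matrix.of fun i j => (E.p (k j) i : ZMod M)) *ᵥ fun v => (E'.p u v : ZMod M)) ∧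
      (Matrix.of fun i j => (E.p (k j) i : ZMod M)) * g' = 1 := by
  choose s hs using fun j : σ' => E'.p_surj (Pi.single j 1)
  choose k hk using fun j => QuotientGroup.mk_surjective (f (s j))
  generalize hg : (Matrix.of fun i j => (E.p (k j) i : ZMod M)) = g
  let S : AddSubgroup (σ' → ℤ) :=
    { carrier := {x | ∃ u, E'.p u = x ∧ (E.pq M (f u)).toAdd = g *ᵥ fun v => (x v : ZMod M)}
      zero_mem' := ⟨1, E'.p_one, by simp [← Pi.zero_def]⟩
      add_mem' := by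
        rintro _ _ ⟨a, rfl, ha⟩ ⟨b, rfl, hb⟩
        exact ⟨a * b, E'.p_mul a b, by
          rw [map_mul, map_mul, toAdd_mul, ha, hb, ← mulVec_add]; congr 1; ext; simp⟩
      neg_mem' := by
        rintro _ ⟨a, rfl, ha⟩
        exact ⟨a⁻¹, E'.p_inv a, by
          rw [map_inv, map_inv, toAdd_inv, ha, ← mulVec_neg]; congr 1; ext; simp⟩ }
  have h1 : ∀ u (x : G), f u = x → (fun v => (E.p x v : ZMod M)) = g *ᵥ fun v => (E'.p u v : ZMod M) :=
    fun u x hx => by
      obtain ⟨u', e1, e2⟩ := pi_ind S (fun j => ⟨s j, hs j, by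
        rw [← hk, E.pq_mk, ← hg]; ext v; simp [mulVec, dotProduct, Pi.single_apply]⟩) (E'.p u)
      obtain ⟨c, rfl⟩ := E'.of_p_eq e1.symm
      rw [← e2, ← E.pq_mk, ← hx, map_mul, map_mul, toAdd_mul, hh, E.pq_mk M (E.i _), E.p_i]
      simp [← Pi.zero_def]
  choose x hx using fun i : σ => E.p_surj (Pi.single i 1)
  choose u hu using fun i => hf (x i)
  refine ⟨s, k, Matrix.of fun j i => E'.p (u i) j, hs, fun j => (hk j).symm, hg ▸ h1, ?_⟩
  rw [hg]
  ext i j
  refine (congrFun (h1 _ _ (hu j)) i).symm.trans ?_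
  simp [hx, Pi.single_apply, one_apply]

lemma card_le_of {a b : Type} [Fintype a] [Fintype b] [DecidableEq a] (g : Matrix a b (ZMod 2))
    (g' : Matrix b a (ZMod 2)) (h : g * g' = 1) : Fintype.card a ≤ Fintype.card b := by
  rw [← rank_one (R := ZMod 2), ← h]
  exact (rank_mul_le_left _ _).trans (rank_le_card_width _)

include E E' in
omit [Fintype I] [DecidableEq I] in
lemma card1 (hs : ∀ M, 0 < M → ∃ f : H →* G ⧸ Vm G M, Function.Surjective f) :
    Fintype.card σ ≤ Fintype.card σ' := by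
  obtain ⟨f, hf, h, hh⟩ := level1 E E' hs two_pos
  obtain ⟨s, k, g', -, -, -, h1⟩ := level2 E E' hf hh
  exact card_le_of _ _ h1

omit [Fintype I] in
lemma level3 (E' : Ext H σ I') (hs : ∀ M, 0 < M → ∃ f : H →* G ⧸ Vm G M, Function.Surjective f)
    {M : ℕ} (hM : 0 < M) :
    ∃ (g g' : Matrix σ σ (ZMod M)) (g0 : σ → σ → ℤ) (h : Matrix I' I ℤ) (h' : Matrix I I' (ZMod M)),
      g * g' = 1 ∧ h' * h.map (Int.castRingHom (ZMod M)) = 1 ∧ (∀ i j, g i j = g0 j i) ∧
      ∀ i j a, (E.w (g0 i) (g0 j) a : ZMod M) =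
        (E'.w (Pi.single i 1) (Pi.single j 1) ᵥ* h) a := by
  obtain ⟨f, hf, h, hh⟩ := level1 E E' hs (M := 2 * M) (by omega)
  obtain ⟨s, k, g', h1, h2, h3, h4⟩ := level2 E E' hf hh
  have red : ∀ c d, (E.i c : G ⧸ Vm G (2 * M)) = E.i d → ∀ a, (d a : ZMod M) = c a := fun c d e => by
    rw [QuotientGroup.eq, ← E.i_neg, ← E.i_add, neg_add_eq_sub] at e
    obtain ⟨z, hz⟩ := E.i_Vm hM e
    exact cast_of_dvd hz
  have : ∀ a : I, ∃ d, (E.i (d ᵥ* h) : G ⧸ Vm G (2 * M)) = E.i (Pi.single a 1) := fun a => by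
    obtain ⟨u, hu⟩ := hf (E.i (Pi.single a 1))
    have e := congrArg (g' *ᵥ ·) (h3 u _ hu)
    simp only [mulVec_mulVec, mul_eq_one_comm.1 h4, one_mulVec, E.p_i, Pi.zero_apply, Int.cast_zero,
      ← Pi.zero_def, mulVec_zero] at e
    obtain ⟨y, hy⟩ := dvd_of_cast e.symm
    obtain ⟨v, d, rfl⟩ := E'.root hy
    exact ⟨d, by rw [← hu, map_mul, map_pow, quot_pow, one_mul, hh]⟩
  choose d hd using this
  let φ := ZMod.castHom (Dvd.intro_left 2 rfl) (ZMod M)
  refine ⟨_, g'.map φ, fun j => E.p (k j), h, Matrix.of fun a b => d a b,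
    (Matrix.map_mul.symm.trans (congrArg (·.map φ) h4)).trans
      (Matrix.map_one φ (map_zero _) (map_one _)), ?_, fun i j => map_intCast φ _, fun i j => ?_⟩
  · ext a b
    have := red _ _ (hd a) b
    simpa [Matrix.mul_apply, vecMul, dotProduct, Pi.single_apply, one_apply, eq_comm] using this
  · refine red _ _ ?_
    rw [← hh, ← h1, ← h1, E'.i_w, E.i_w, map_commutatorElement, h2, h2]
    rfl

include E in
lemma card2 (E' : Ext H σ I') (hs : ∀ M, 0 < M → ∃ f : H →* G ⧸ Vm G M, Function.Surjective f) :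
    Fintype.card I ≤ Fintype.card I' := by
  obtain ⟨-, -, -, h, h', -, h1, -⟩ := level3 E E' hs two_pos
  exact card_le_of _ _ h1

end Pool.Agent.Lib.MP_a8bb0e_al
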