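import Pool.Agent.Lib.MP_a8bb0e_al.Main

set_option autoImplicit false
open scoped commutatorElement
open Matrix Filter Topology

namespace Pool.Agent.Lib.MP_a8bb0e_al

variable {V : Type} [Fintype V] [DecidableEq V] {Γ : SimpleGraph V}
variable {H : Type} [Group H] [Cl2 H] (β : Module.Basis V ℤ (Ab H))

/-- the commutator pairing evaluated on a coefficient matrix -/
noncomputable def wK : Matrix V V ℤ →ₗ[ℤ] Der H where
  toFun κ := ∑ v, ∑ w, κ w v • om (β v) (β w)
  map_add' κ κ' := by simp only [Matrix.add_apply, add_smul, Finset.sum_add_distrib]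
  map_smul' t κ := by
    simp only [Matrix.smul_apply, smul_eq_mul, mul_smul, Finset.smul_sum, RingHom.id_apply]

omit [DecidableEq V] in
lemma wK_apply (κ : Matrix V V ℤ) : wK β κ = ∑ v, ∑ w, κ w v • om (β v) (β w) := rfl

omit [DecidableEq V] in
lemma wK_outer (x y : V → ℤ) :
    wK β (vecMulVec y x) = om (∑ v, x v • β v) (∑ w, y w • β w) := by
  simp only [wK_apply, vecMulVec_apply, map_sum, map_smul, LinearMap.sum_apply,
    LinearMap.smul_apply, Finset.smul_sum, mul_smul]
  exact Finset.sum_comm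

omit [DecidableEq V] in
lemma wK_surj (c : Der H) : ∃ κ, wK β κ = c :=
  der_le (LinearMap.range (wK β)).toAddSubgroup (fun a b =>
    ⟨vecMulVec (β.repr b) (β.repr a), by rw [wK_outer, β.sum_repr, β.sum_repr]⟩) c

omit [DecidableEq V] in
lemma trace_outer (x y : V → ℤ) (M : Matrix V V ℤ) :
    trace (vecMulVec y x * M) = x ⬝ᵥ M *ᵥ y := by
  simp only [trace, diag, Matrix.mul_apply, vecMulVec_apply, dotProduct, mulVec, Finset.mul_sum]
  rw [Finset.sum_comm]
  exact Finset.sum_congr rfl fun _ _ => Finset.sum_congr rfl fun _ _ => by ring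

lemma level [Group.FG H] (h : SameFin (GG Γ) H) {m : ℕ} (hm : 0 < m) :
    ∃ P Q : Matrix V V ℤ, (∀ a b, (m : ℤ) ∣ (P * Q) a b - (1 : Matrix V V ℤ) a b) ∧
      (∀ κ, wK β κ = 0 → ∀ a b, ¬ Γ.Adj a b → (m : ℤ) ∣ (P * κ * Pᵀ) a b - (P * κ * Pᵀ) b a) ∧
      ∀ a b, Γ.Adj a b → ∃ d, om (∑ v, Q v a • β v) (∑ w, Q w b • β w) = m • d := by
  obtain ⟨f, hf, hk⟩ := h.exists_hom (m := 2 * m) (by omega)
  obtain ⟨φ, h1, -⟩ := exists_phi f hf hk
  choose x hx using fun v => ab_surj (β v)
  choose g hg using fun v => QuotientGroup.mk_surjective (f (x v))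
  choose t ht using fun v : V => hf (PresentedGroup.of v : GG Γ)
  have hQ : ∀ a, ∑ v, β.repr (ab (t a)) v • β v = ab (t a) := fun a => β.sum_repr _
  refine ⟨Matrix.of fun a v => piv Γ (g v) a, Matrix.of fun v a => β.repr (ab (t a)) v,
    fun a b => ?_, fun κ hκ a b hab => ?_, fun a b hab => ?_⟩
  · have := congrFun (h1 _ _ (ht b).symm) a
    rw [← hQ b, map_sum] at this
    simp only [map_zsmul, ← hx, h1 _ _ (hg _), piv_of, Finset.sum_apply, Pi.smul_apply,
      zsmul_eq_mul] at this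
    refine Dvd.dvd.trans (Dvd.intro_left 2 (Nat.cast_mul 2 m).symm) ?_
    rw [← ZMod.intCast_zmod_eq_zero_iff_dvd]
    simp only [Matrix.mul_apply, of_apply, Int.cast_sub, Int.cast_sum, Int.cast_mul, sub_eq_zero]
    rw [one_apply, ← Pi.single_apply, ← this]
    exact Finset.sum_congr rfl fun _ _ => mul_comm _ _
  · let r := (QuotientGroup.lift (Vm (GG Γ) (2 * m)) (rho m hab)
      (Vm_le_ker _ (Heis.exponent m))).comp f
    have hr : ∀ v, r (x v) = rho m hab (g v) := fun v => by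
      simp only [r, MonoidHom.comp_apply, ← hg]; rfl
    have := congrArg (Heis.third r) hκ
    simp only [wK_apply, map_sum, map_zsmul, ← hx, Heis.third_om, hr, rho_a, rho_b, map_zero,
      zsmul_eq_mul, mul_sub, Finset.sum_sub_distrib, sub_eq_zero] at this
    rw [← ZMod.intCast_zmod_eq_zero_iff_dvd]
    simp only [Matrix.mul_apply, of_apply, transpose_apply, Int.cast_sub, Int.cast_sum,
      Int.cast_mul, sub_eq_zero, Finset.sum_mul]
    refine Eq.trans ?_ (this.symm.trans ?_) <;>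
      exact Finset.sum_congr rfl fun _ _ => Finset.sum_congr rfl fun _ _ => by ring
  · simp only [of_apply, hQ, om_ab]
    refine Vm_inter (ab_tf h) hm _ (hk _ ?_)
    change f ⁅t a, t b⁆ = 1
    rw [map_commutatorElement, ht, ht, ← QuotientGroup.mk'_apply, ← QuotientGroup.mk'_apply,
      ← map_commutatorElement, gen_comm hab, map_one]

lemma lim_zero {p : ℕ} [Fact p.Prime] {X : Type} [TopologicalSpace X] {u : ℕ → X} {x : X}
    {φ : ℕ → ℕ} (hφ : StrictMono φ) (hu : Tendsto (u ∘ φ) atTop (𝓝 x)) (F : X → ℤ_[p])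
    (hF : Continuous F) (h : ∀ k, (p : ℤ_[p]) ^ k ∣ F (u k)) : F x = 0 := by
  refine tendsto_nhds_unique ((hF.tendsto x).comp hu) (squeeze_zero_norm
    (a := fun k => ‖(p : ℤ_[p])‖ ^ φ k) (fun k => ?_) ?_)
  · obtain ⟨c, hc⟩ := h (φ k)
    change ‖F (u (φ k))‖ ≤ _
    rw [hc, norm_mul, norm_pow]
    exact mul_le_of_le_one_right (by positivity) c.norm_le_one
  · refine (tendsto_pow_atTop_nhds_zero_of_lt_one (norm_nonneg _) ?_).comp hφ.tendsto_atTop
    rw [PadicInt.norm_p]
    exact inv_lt_one_of_one_lt₀ (by exact_mod_cast (Fact.out : p.Prime).one_lt)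

lemma om_anti {M : Matrix V V ℤ} (hM : ∀ κ ∈ {κ | wK β κ = 0}, trace (κ * M) = 0) : Mᵀ = -M := by
  ext v w
  have := hM (vecMulVec (Pi.single v 1) (Pi.single w 1) + vecMulVec (Pi.single w 1) (Pi.single v 1))
    (by
      change wK β _ = 0
      rw [map_add, wK_outer, wK_outer, om_swap, neg_add_cancel])
  rw [add_mul, trace_add, trace_outer, trace_outer] at this
  simp only [mulVec_single_one, single_one_dotProduct, col_apply] at this
  exact eq_neg_of_add_eq_zero_left this

lemma exists_loc [Group.FG H] (h : SameFin (GG Γ) H) (p : ℕ) [Fact p.Prime] :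
    Nonempty (Loc Γ {κ | wK β κ = 0} p) := by
  choose P Q h1 h2 h3 using fun k : ℕ => level β h (pow_pos (Fact.out : p.Prime).pos k)
  let u : ℕ → (V → V → ℤ_[p]) × (V → V → ℤ_[p]) := fun k => (cst ℤ_[p] (P k), cst ℤ_[p] (Q k))
  obtain ⟨⟨P0, Q0⟩, φ, hφ, hu⟩ := CompactSpace.tendsto_subseq u
  have cd : ∀ (k : ℕ) (z : ℤ), ((p ^ k : ℕ) : ℤ) ∣ z → (p : ℤ_[p]) ^ k ∣ (z : ℤ_[p]) := by
    rintro k _ ⟨c, rfl⟩
    exact ⟨c, by push_cast; rfl⟩
  have pq : Matrix.of P0 * Matrix.of Q0 = 1 := by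
    ext a b
    refine sub_eq_zero.1 (lim_zero hφ hu
      (fun X => (Matrix.of X.1 * Matrix.of X.2) a b - (1 : Matrix V V ℤ_[p]) a b) ?_ fun k => ?_)
    · simp only [Matrix.mul_apply, of_apply]; fun_prop
    · have := cd k _ (h1 k a b)
      simpa [u, Matrix.mul_apply, one_apply] using this
  refine ⟨⟨Matrix.of P0, Matrix.of Q0, pq, mul_eq_one_comm.1 pq, fun M hM κ hκ => ?_,
    fun M hM => ?_⟩⟩
  · set N := Matrix.of P0 * cst ℤ_[p] κ * (Matrix.of P0)ᵀ with hN
    have sy : ∀ a b, ¬ Γ.Adj a b → N a b = N b a := fun a b hab => by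
      refine sub_eq_zero.1 (lim_zero hφ hu
        (fun X => (Matrix.of X.1 * cst ℤ_[p] κ * (Matrix.of X.1)ᵀ) a b -
          (Matrix.of X.1 * cst ℤ_[p] κ * (Matrix.of X.1)ᵀ) b a) ?_ fun k => ?_)
      · simp only [Matrix.mul_apply, of_apply, transpose_apply]; fun_prop
      · have := cd k _ (h2 k κ hκ a b hab)
        simpa [u, Matrix.mul_apply] using this
    have e : trace (cst ℤ_[p] κ * ((Matrix.of P0)ᵀ * M * Matrix.of P0)) = trace (N * M) := by
      rw [← Matrix.mul_assoc, trace_mul_comm, hN]; simp only [Matrix.mul_assoc]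
    have e2 : trace (N * M) = -trace (N * M) := by
      simp only [trace, diag, Matrix.mul_apply]
      refine Eq.trans Finset.sum_comm ?_
      rw [← Finset.sum_neg_distrib]
      refine Finset.sum_congr rfl fun a _ => ?_
      rw [← Finset.sum_neg_distrib]
      refine Finset.sum_congr rfl fun b _ => ?_
      by_cases hab : Γ.Adj a b
      · rw [hM.2.2 a b hab, hM.2.2 b a hab.symm]; simp
      · rw [sy a b hab, hM.1 a b]; ring
    rw [e]
    exact self_eq_neg.1 e2
  · have an : ∀ a b, ((Matrix.of Q0)ᵀ * cst ℤ_[p] M * Matrix.of Q0) a b =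
        -((Matrix.of Q0)ᵀ * cst ℤ_[p] M * Matrix.of Q0) b a := fun a b => by
      have : ((Matrix.of Q0)ᵀ * cst ℤ_[p] M * Matrix.of Q0)ᵀ =
          -((Matrix.of Q0)ᵀ * cst ℤ_[p] M * Matrix.of Q0) := by
        rw [transpose_mul, transpose_mul, transpose_transpose,
          ← cst_transpose, om_anti β hM, map_neg]
        simp [Matrix.mul_assoc]
      exact congrFun (congrFun this b) a
    refine ⟨an, fun a => self_eq_neg.1 (an a a), fun a b hab => ?_⟩
    refine lim_zero hφ hu
      (fun X => ((Matrix.of X.2)ᵀ * cst ℤ_[p] M * Matrix.of X.2) a b) ?_ fun k => ?_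
    · simp only [Matrix.mul_apply, of_apply, transpose_apply]; fun_prop
    · obtain ⟨d, hd⟩ := h3 k a b hab
      obtain ⟨κ, rfl⟩ := wK_surj β d
      have := hM (vecMulVec (fun w => Q k w b) (fun v => Q k v a) - (p ^ k : ℕ) • κ) (by
        change wK β _ = 0
        rw [map_sub, wK_outer, hd, map_nsmul, sub_self])
      rw [sub_mul, trace_sub, trace_outer, smul_mul_assoc, trace_smul, sub_eq_zero,
        nsmul_eq_mul] at this
      have := cd k _ (Dvd.intro _ this.symm)
      rw [dotProduct_mulVec] at this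
      simpa [u, Matrix.mul_apply, dotProduct, vecMul] using this

include β in
lemma der_tf [Group.FG H] (h : SameFin (GG Γ) H) (c : Der H) {n : ℕ} (hn : 0 < n)
    (hc : n • c = 0) : c = 0 := by
  refine Subtype.ext (eq_one_of_Vm (x := (c.toMul : H)) fun m hm => ?_)
  obtain ⟨κ, rfl⟩ := wK_surj β c
  obtain ⟨P, Q, h1, h2, h3⟩ := level β h (Nat.mul_pos hn hm)
  let S : Submodule ℤ (Der H) := LinearMap.range ((m : ℤ) • LinearMap.id)
  have hS : ∀ (z : ℤ) (d : Der H), (m : ℤ) ∣ z → S.mkQ (z • d) = 0 := by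
    rintro _ d ⟨y, rfl⟩
    exact (Submodule.Quotient.mk_eq_zero S).2 ⟨y • d, by rw [mul_smul]; rfl⟩
  have c1 : cst (ZMod m) P * cst (ZMod m) Q = 1 := by
    ext a b
    have := (ZMod.intCast_zmod_eq_zero_iff_dvd _ _).2
      (Dvd.dvd.trans (Dvd.intro_left n (Nat.cast_mul n m).symm) (h1 a b))
    simpa [Matrix.mul_apply, one_apply, sub_eq_zero] using this
  have c2 : cst (ZMod m) (κ - Q * (P * κ * Pᵀ) * Qᵀ) = 0 := by
    have c3 := mul_eq_one_comm.1 c1
    have c4 : (cst (ZMod m) P)ᵀ * (cst (ZMod m) Q)ᵀ = 1 := by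
      rw [← transpose_mul, c3, transpose_one]
    simp only [map_sub, map_mul, cst_transpose, Matrix.mul_assoc, c4, Matrix.mul_one]
    rw [← Matrix.mul_assoc, c3, Matrix.one_mul, sub_self]
  have c3 : S.mkQ (wK β (κ - Q * (P * κ * Pᵀ) * Qᵀ)) = 0 := by
    rw [wK_apply, map_sum]
    refine Finset.sum_eq_zero fun v _ => ?_
    rw [map_sum]
    exact Finset.sum_eq_zero fun w _ => hS _ _
      ((ZMod.intCast_zmod_eq_zero_iff_dvd _ _).1 (congrFun (congrFun c2 w) v))
  have sy : ∀ a b, ¬ Γ.Adj a b → (m : ℤ) ∣ (P * κ * Pᵀ) a b - (P * κ * Pᵀ) b a := fun a b hab => by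
    have := h2 (n • κ) (by rw [map_nsmul, hc]) a b hab
    rw [Matrix.mul_smul, Matrix.smul_mul, Matrix.smul_apply, Matrix.smul_apply, ← smul_sub,
      nsmul_eq_mul, Nat.cast_mul] at this
    exact Int.dvd_of_mul_dvd_mul_left (by exact_mod_cast hn.ne') this
  generalize P * κ * Pᵀ = N at c3 sy
  have e : Q * N * Qᵀ = ∑ i : V × V, N i.2 i.1 • vecMulVec (fun w => Q w i.2) fun v => Q v i.1 := by
    ext w v
    simp only [Matrix.mul_apply, transpose_apply, Matrix.sum_apply, Matrix.smul_apply,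
      vecMulVec_apply, smul_eq_mul, Fintype.sum_prod_type, Finset.sum_mul]
    exact Finset.sum_congr rfl fun _ _ => Finset.sum_congr rfl fun _ _ => by ring
  have c4 : S.mkQ (wK β (Q * N * Qᵀ)) = 0 := by
    rw [e, map_sum, map_sum]
    simp only [map_smul (wK β), wK_outer]
    refine Finset.sum_involution (fun i _ => i.swap) ?_ ?_ (fun _ _ => Finset.mem_univ _)
      fun _ _ => rfl
    · rintro ⟨a, b⟩ -
      by_cases hab : Γ.Adj a b
      · obtain ⟨d, hd⟩ := h3 a b hab
        obtain ⟨d', hd'⟩ := h3 b a hab.symm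
        simp only [Prod.swap_prod_mk, hd, hd', ← natCast_zsmul, smul_smul]
        rw [hS, hS, add_zero] <;> exact Dvd.dvd.mul_left (Dvd.intro_left (n : ℤ) (Nat.cast_mul n m).symm) _
      · simp only [Prod.swap_prod_mk]
        rw [← map_add, om_swap (∑ v, Q v a • β v), smul_neg, neg_add_eq_sub, ← sub_smul]
        exact hS _ _ (sy a b hab)
    · rintro ⟨a, b⟩ - h0 e
      obtain rfl : a = b := congrArg Prod.snd e
      exact h0 (by simp only [om_self, smul_zero, map_zero])
  rw [map_sub, map_sub, c4, sub_zero] at c3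
  obtain ⟨d, hd⟩ := (Submodule.Quotient.mk_eq_zero S).1 c3
  rw [← hd]
  simpa using pow_mem_Vm m (d.toMul : H)

theorem genus_one {H : Type} [Group H] [Group.IsNilpotent H] [Group.FG H]
    (h : SameFin (GG Γ) H) : Nonempty (GG Γ ≃* H) := by
  have := cl2_of_same h
  obtain ⟨β⟩ := exists_ab_basis h
  obtain ⟨a, ha, hadj⟩ := exists_basis (exists_loc β h)
  have : Module.Finite ℤ (Der H) := Module.Finite.of_surjective (wK β) (wK_surj β)
  have : IsAddTorsionFree (Der H) := ⟨fun n hn a b e => sub_eq_zero.1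
    (der_tf β h _ (Nat.pos_of_ne_zero hn) (by rw [smul_sub]; exact sub_eq_zero.2 e))⟩
  have : Module.Free ℤ (Der H) := Module.free_of_finite_type_torsion_free'
  choose y hy using fun v => ab_surj (∑ i, a v i • β i)
  have hc : ∀ v w, Γ.Adj v w → ⁅y v, y w⁆ = 1 := fun v w hvw => by
    have : om (ab (y v)) (ab (y w)) = 0 := by
      refine (Module.forall_dual_apply_eq_zero_iff ℤ _).1 fun l => ?_
      have key : ∀ κ : Matrix V V ℤ,
          trace (κ * Matrix.of fun i j => l (om (β i) (β j))) = l (wK β κ) := fun κ => by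
        simp only [trace, diag, Matrix.mul_apply, of_apply, wK_apply, map_sum, map_smul,
          smul_eq_mul]
        exact Finset.sum_comm
      rw [hy, hy, ← wK_outer, ← key, trace_outer]
      exact hadj v w hvw _ fun κ hκ => by rw [key, hκ, map_zero]
    exact congrArg (fun c : Der H => (c.toMul : H)) this
  let F : GG Γ →* H := liftG (fun x y z => commutatorElement_eq_one_iff_commute.2 (Cl2.c x y z)) y hc
  have s1 : ∀ t : Ab H, ∃ g, ab (F g) = t := fun t => by
    have : β.equivFun t ∈ Submodule.span ℤ (Set.range a) := by rw [ha]; trivial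
    rw [← β.equivFun.symm_apply_apply t]
    refine Submodule.span_induction (p := fun z _ => ∃ g, ab (F g) = β.equivFun.symm z) ?_ ?_ ?_ ?_
      this
    · rintro _ ⟨v, rfl⟩
      exact ⟨PresentedGroup.of v, by rw [liftG_of, hy, β.equivFun_symm_apply]⟩
    · exact ⟨1, by rw [map_one, map_zero]; rfl⟩
    · rintro _ _ _ _ ⟨g, hg⟩ ⟨g', hg'⟩
      exact ⟨g * g', by rw [map_mul, ab_mul, hg, hg', map_add]⟩
    · rintro n _ _ ⟨g, hg⟩
      exact ⟨g ^ n, by rw [map_smul, ← hg, map_zpow]; simp [ab]⟩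
  have s2 : commutator H ≤ F.range := Subgroup.commutator_le.2 fun s _ t _ => by
    obtain ⟨g, hg⟩ := s1 (ab s)
    obtain ⟨g', hg'⟩ := s1 (ab t)
    have := om_ab (F g) (F g')
    rw [hg, hg', om_ab] at this
    exact ⟨⁅g, g'⁆, (map_commutatorElement F g g').trans
      (congrArg (fun c : Der H => (c.toMul : H)) this).symm⟩
  have s3 : Function.Surjective F := fun t => by
    obtain ⟨g, hg⟩ := s1 (ab t)
    obtain ⟨g', hg'⟩ := s2 (ab_eq_zero.1 (show ab (t * (F g)⁻¹) = 0 by
      rw [ab_mul, ab_inv, hg, add_neg_cancel]))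
    exact ⟨g' * g, by rw [map_mul, hg', inv_mul_cancel_right]⟩
  exact ⟨MulEquiv.ofBijective F ⟨h.inj F s3, s3⟩⟩

theorem class_two (hΓ : Γ ≠ ⊤) : Group.nilpotencyClass (GG Γ) = 2 := by
  obtain ⟨a, b, hab, hn⟩ : ∃ a b, a ≠ b ∧ ¬ Γ.Adj a b := by
    by_contra hc
    refine hΓ (eq_top_iff.2 fun a b hab => ?_)
    by_contra h
    exact hc ⟨a, b, hab, h⟩
  refine le_antisymm ?_ ?_
  · refine Subgroup.lowerCentralSeries_eq_bot_iff_nilpotencyClass_le.1 ?_
    rw [Subgroup.lowerCentralSeries_succ, Subgroup.top_lowerCentralSeries_one, eq_bot_iff,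
      Subgroup.commutator_le]
    intro a ha b _
    exact Subgroup.mem_bot.2 (commutatorElement_eq_one_iff_commute.2 (comm_central ha b))
  · by_contra hlt
    have := Subgroup.lowerCentralSeries_eq_bot_iff_nilpotencyClass_le.2
      (show Group.nilpotencyClass (GG Γ) ≤ 1 by omega)
    rw [Subgroup.top_lowerCentralSeries_one] at this
    have e : ⁅(PresentedGroup.of a : GG Γ), (PresentedGroup.of b : GG Γ)⁆ = 1 :=
      Subgroup.mem_bot.1 (this ▸ (cm _ _).2)
    have e2 := congrArg (fun g => (rho 0 hn g).c) e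
    simp only [map_commutatorElement, Heis.comm_eq, rho_a, rho_b, piv_of, map_one, Heis.one_c]
      at e2
    simp [Pi.single_apply, hab, hab.symm] at e2

end Pool.Agent.Lib.MP_a8bb0e_al
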