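import Pool.Agent.Lib.MP_a8bb0e_al.Dual

/-! A generic tuple of alternating forms has only scalar pseudo-isometries. -/

namespace Pool.Agent.Lib.MP_a8bb0e_al

open Module LinearMap Matrix

/-- pairs `i < j` -/
abbrev Pr (n : ℕ) := {p : Fin n × Fin n // p.1 < p.2}

lemma card_Pr (n : ℕ) : Fintype.card (Pr n) = n.choose 2 := by
  rw [Fintype.card_subtype, ← Finset.univ_product_univ, Finset.card_product_filter_lt]; simp

section
variable {R : Type} [CommRing R] {n : ℕ}

/-- the alternating matrix with prescribed upper entries -/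
def alt : (Pr n → R) →ₗ[R] Matrix (Fin n) (Fin n) R where
  toFun v := Matrix.of fun i j =>
    ∑ q, ((if q.1.1 = i ∧ q.1.2 = j then v q else 0) - if q.1.2 = i ∧ q.1.1 = j then v q else 0)
  map_add' v w := by
    ext i j
    simp only [of_apply, Matrix.add_apply, Pi.add_apply, ← Finset.sum_add_distrib]
    exact Finset.sum_congr rfl fun q _ => by split_ifs <;> ring
  map_smul' c v := by
    ext i j
    simp only [of_apply, Matrix.smul_apply, Pi.smul_apply, smul_eq_mul, RingHom.id_apply,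
      Finset.mul_sum]
    exact Finset.sum_congr rfl fun q _ => by split_ifs <;> ring

lemma alt_apply (v : Pr n → R) (i j : Fin n) : alt v i j =
    ∑ q, ((if q.1.1 = i ∧ q.1.2 = j then v q else 0) - if q.1.2 = i ∧ q.1.1 = j then v q else 0) := rfl

lemma alt_swap (v : Pr n → R) (i j : Fin n) : alt v j i = -alt v i j := by
  simp only [alt_apply, ← Finset.sum_neg_distrib, neg_sub, and_comm]

lemma alt_self (v : Pr n → R) (i : Fin n) : alt v i i = 0 := by
  simp only [alt_apply, and_comm, sub_self, Finset.sum_const_zero]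

lemma alt_up (v : Pr n → R) (p : Pr n) : alt v p.1.1 p.1.2 = v p := by
  rw [alt_apply, Finset.sum_eq_single p]
  · rw [if_pos ⟨rfl, rfl⟩, if_neg fun h => p.2.ne h.2, sub_zero]
  · intro q _ hq
    rw [if_neg fun h => hq (Subtype.ext (Prod.ext h.1 h.2)),
      if_neg fun h => lt_asymm p.2 (by rw [← h.1, ← h.2]; exact q.2), sub_zero]
  · simp

lemma alt_ext {M : Matrix (Fin n) (Fin n) R} {v : Pr n → R} (h1 : ∀ i j, M j i = -M i j)
    (h2 : ∀ i, M i i = 0) (h : ∀ p : Pr n, M p.1.1 p.1.2 = v p) : alt v = M := by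
  ext i j
  rcases lt_trichotomy i j with c | rfl | c
  · exact (alt_up v ⟨(i, j), c⟩).trans (h ⟨(i, j), c⟩).symm
  · rw [alt_self, h2]
  · rw [alt_swap, h1, alt_up v ⟨(j, i), c⟩, h ⟨(j, i), c⟩]

/-- the bilinear version of the second exterior power -/
def wedge (x y : Matrix (Fin n) (Fin n) R) : Matrix (Pr n) (Pr n) R :=
  Matrix.of fun p q => x q.1.1 p.1.1 * y q.1.2 p.1.2 - x q.1.2 p.1.1 * y q.1.1 p.1.2

lemma conj_alt {a b : Type} (x : Matrix (Fin n) a R) (y : Matrix (Fin n) b R) (v : Pr n → R)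
    (i : a) (j : b) :
    (xᵀ * alt v * y) i j = ∑ q : Pr n, (x q.1.1 i * y q.1.2 j - x q.1.2 i * y q.1.1 j) * v q := by
  simp only [Matrix.mul_apply, transpose_apply, alt_apply, Finset.mul_sum, Finset.sum_mul]
  rw [Finset.sum_congr rfl fun l _ => Finset.sum_comm, Finset.sum_comm]
  refine Finset.sum_congr rfl fun q _ => ?_
  simp only [mul_sub, sub_mul, Finset.sum_sub_distrib, ite_and, mul_ite, ite_mul, mul_zero, zero_mul,
    Finset.sum_ite_eq, Finset.mem_univ, if_true]
  ring

lemma alt_wedge (g : Matrix (Fin n) (Fin n) R) (v : Pr n → R) :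
    alt (wedge g g *ᵥ v) = gᵀ * alt v * g :=
  alt_ext (fun i j => by
      rw [conj_alt, conj_alt, ← Finset.sum_neg_distrib]
      exact Finset.sum_congr rfl fun _ _ => by ring)
    (fun i => by rw [conj_alt]; exact Finset.sum_eq_zero fun _ _ => by ring) fun p => conj_alt g g v _ _

lemma alt_inj {v w : Pr n → R} (h : alt v = alt w) : v = w :=
  funext fun p => by rw [← alt_up v p, h, alt_up]

lemma wedge_mul (g g' : Matrix (Fin n) (Fin n) R) :
    wedge (g * g') (g * g') = wedge g' g' * wedge g g := by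
  refine Matrix.ext_of_mulVec_single fun q => alt_inj ?_
  rw [← mulVec_mulVec, alt_wedge, alt_wedge, alt_wedge, transpose_mul]
  simp only [Matrix.mul_assoc]

lemma wedge_smul (c : R) (g : Matrix (Fin n) (Fin n) R) :
    wedge (c • g) (c • g) = c ^ 2 • wedge g g := by
  ext p q
  simp only [wedge, of_apply, Matrix.smul_apply, smul_eq_mul]; ring

lemma wedge_one : wedge (1 : Matrix (Fin n) (Fin n) R) 1 = 1 := by
  refine Matrix.ext_of_mulVec_single fun q => alt_inj ?_
  rw [alt_wedge, one_mulVec, transpose_one, Matrix.one_mul, Matrix.mul_one]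

lemma wedge_map {S : Type} [CommRing S] (φ : R →+* S) (g : Matrix (Fin n) (Fin n) R) :
    (wedge g g).map φ = wedge (g.map φ) (g.map φ) := by
  ext p q
  simp [wedge]

end

variable {L : Type} [Field L] {n : ℕ}

lemma rank_wedge [IsAlgClosed L] (g g' : Matrix (Fin n) (Fin n) L) (hg : g * g' = 1) (r : ℕ)
    (hr : ∀ μ : L, r ≤ (g - μ • 1).rank) (j : ℕ) (h1 : 2 * j ≤ n) (h2 : 2 * j ≤ r + 1) (ν : L) :
    j * (n - 2 * j) ≤ (wedge g g - ν • 1).rank := by
  obtain ⟨x, hx⟩ := exists_family (toLin' g) r (fun μ => by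
    rw [← toLin'_one, ← map_smul, ← map_sub]; exact hr μ) j (by simpa using h1) h2
  obtain ⟨X, hX⟩ : ∃ X : Matrix (Fin n) (Fin j) L, X = (Matrix.of x)ᵀ := ⟨_, rfl⟩
  have hi : Function.Injective (toLin' (fromCols X (g * X))) := by
    refine mulVec_injective_iff.2 ?_
    have : (fromCols X (g * X)).col = Sum.elim x fun i => toLin' g (x i) := by
      ext (i | i) k <;> simp [hX, Matrix.mul_apply, mulVec, dotProduct]
    rw [this]; exact hx
  obtain ⟨Y, hY⟩ := left_inv hi
  obtain ⟨e, W, a1, a2, a3, -⟩ := ker_basis (fromCols X (g * X))ᵀ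
  obtain ⟨W', hW⟩ := left_inv a2
  rw [rank_transpose, ← rk_eq, finrank_range_of_inj hi] at a1
  simp only [finrank_fintype_fun_eq_card, Fintype.card_sum, Fintype.card_fin] at a1
  rw [← fromRows_toRows Y, fromRows_mul_fromCols, ← fromBlocks_one, fromBlocks_inj] at hY
  obtain ⟨-, -, b1, b2⟩ := hY
  rw [transpose_fromCols, fromRows_mul, ← fromRows_zero, fromRows_ext_iff] at a3
  generalize Y.toRows₂ = U at b1 b2
  have c1 : Xᵀ * Uᵀ = 0 := by rw [← transpose_mul, b1, transpose_zero]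
  have c2 : (g * X)ᵀ * Uᵀ = 1 := by rw [← transpose_mul, b2, transpose_one]
  have c3 : Wᵀ * W'ᵀ = 1 := by rw [← transpose_mul, hW, transpose_one]
  let Ψ : (Pr n → L) →ₗ[L] Matrix (Fin j) (Fin e) L :=
    (mulRightLinearMap _ L (g' * W'ᵀ)).comp ((mulLeftLinearMap _ L Xᵀ).comp alt)
  have hs : Function.Surjective (Ψ.comp (toLin' (wedge g g - ν • 1))) := fun c => by
    obtain ⟨M, hM⟩ : ∃ M, M = Uᵀ * c * Wᵀ - (Uᵀ * c * Wᵀ)ᵀ := ⟨_, rfl⟩
    have h3 : alt (fun p : Pr n => M p.1.1 p.1.2) = M :=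
      alt_ext (fun i j => by simp only [hM, Matrix.sub_apply, transpose_apply, neg_sub])
        (fun i => by simp only [hM, Matrix.sub_apply, transpose_apply, sub_self]) fun _ => rfl
    refine ⟨fun p => M p.1.1 p.1.2, ?_⟩
    change Xᵀ * alt ((wedge g g - ν • 1) *ᵥ _) * (g' * W'ᵀ) = c
    have h4 : Xᵀ * M = 0 := by
      rw [hM, transpose_mul, transpose_transpose, Matrix.mul_sub]
      simp only [← Matrix.mul_assoc, c1, a3.1, Matrix.zero_mul, sub_self]
    have h5 : (g * X)ᵀ * M = c * Wᵀ := by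
      rw [hM, transpose_mul (Uᵀ * c), transpose_transpose, Matrix.mul_sub]
      simp only [← Matrix.mul_assoc, c2, a3.2, Matrix.zero_mul, sub_zero, Matrix.one_mul]
    rw [sub_mulVec, smul_mulVec, one_mulVec, map_sub, map_smul, alt_wedge, h3, Matrix.mul_sub,
      Matrix.mul_smul, h4, smul_zero, sub_zero, ← Matrix.mul_assoc, ← Matrix.mul_assoc,
      ← Matrix.mul_assoc, ← transpose_mul, h5, Matrix.mul_assoc _ g, hg, Matrix.mul_one,
      Matrix.mul_assoc, c3, Matrix.mul_one]
  have h6 := Submodule.finrank_map_le Ψ (range (toLin' (wedge g g - ν • 1)))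
  rw [← range_comp, range_eq_top.2 hs, finrank_top, finrank_matrix, rk_eq] at h6
  simp only [Fintype.card_fin, finrank_self, mul_one] at h6
  rwa [show n - 2 * j = e by omega]

lemma exists_gamma (g : Matrix (Fin n) (Fin n) L) (μ : L) :
    ∃ Γ : Submodule L (Matrix (Pr n) (Pr n) L), (∀ D : Derivation ℤ L L, (wedge g g).map D ∈ Γ) ∧
      1 ∈ Γ ∧ finrank L Γ + (n - (g - μ • 1).rank) ^ 2 ≤ n ^ 2 + 2 := by
  obtain ⟨p, C, a1, a2, a3, -⟩ := ker_basis (g - μ • 1)
  obtain ⟨p', E, b1, b2, b3, -⟩ := ker_basis (g - μ • 1)ᵀ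
  obtain ⟨C', hC⟩ := left_inv a2
  obtain ⟨E', hE⟩ := left_inv b2
  rw [rank_transpose] at b1
  rw [Fintype.card_fin] at a1 b1
  let Φ : Matrix (Fin n) (Fin n) L →ₗ[L] Matrix (Fin p') (Fin p) L :=
    (mulRightLinearMap _ L C).comp (mulLeftLinearMap _ L Eᵀ)
  have hs : Function.Surjective Φ := fun Z => ⟨E'ᵀ * Z * C', by
    change Eᵀ * (E'ᵀ * Z * C') * C = Z
    rw [Matrix.mul_assoc, Matrix.mul_assoc, hC, Matrix.mul_one, ← Matrix.mul_assoc, ← transpose_mul,
      hE, transpose_one, Matrix.one_mul]⟩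
  have d1 := finrank_range_add_finrank_ker Φ
  rw [range_eq_top.2 hs, finrank_top, finrank_matrix, finrank_matrix] at d1
  simp only [Fintype.card_fin, finrank_self, mul_one] at d1
  let dW : Matrix (Fin n) (Fin n) L →ₗ[L] Matrix (Pr n) (Pr n) L :=
    { toFun := fun Y => wedge Y g + wedge g Y
      map_add' := fun Y Y' => by ext; simp [wedge]; ring
      map_smul' := fun c Y => by ext; simp [wedge]; ring }
  have one : ∀ {W : Type} [AddCommGroup W] [Module L W] [FiniteDimensional L W] (w : W)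
      (S : Submodule L W), finrank L (Submodule.span L {w} ⊔ S : Submodule L W) ≤ 1 + finrank L S :=
    fun w S => (Submodule.finrank_add_le_finrank_add_finrank _ _).trans
      (Nat.add_le_add_right (by simpa using finrank_span_le_card (R := L) {w}) _)
  refine ⟨Submodule.span L {1} ⊔ (Submodule.span L {1} ⊔ ker Φ).map dW, fun D => ?_,
    Submodule.mem_sup_left (Submodule.mem_span_singleton_self _), ?_⟩
  · refine Submodule.mem_sup_right ⟨g.map D, ?_, ?_⟩
    · have e1 : g.map D = D μ • 1 + (g - μ • 1).map D := by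
        ext i j
        simp only [map_apply, Matrix.sub_apply, Matrix.add_apply, Matrix.smul_apply, one_apply,
          map_sub]
        split_ifs <;> simp
      rw [e1]
      refine Submodule.add_mem_sup (Submodule.smul_mem _ _ (Submodule.mem_span_singleton_self _)) ?_
      change Eᵀ * (g - μ • 1).map D * C = 0
      have e2 := congrArg (fun M => Eᵀ * M) (dmul D (g - μ • 1) C)
      have e3 : Eᵀ * (g - μ • 1) = 0 := by
        rw [← transpose_transpose (g - μ • 1), ← transpose_mul, b3, transpose_zero]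
      simp only [a3, Matrix.mul_add, ← Matrix.mul_assoc, e3, Matrix.zero_mul, add_zero] at e2
      rw [← e2, Matrix.map_zero _ (map_zero D), Matrix.mul_zero]
    · ext p q
      simp [dW, wedge]; ring
  · have d2 := one 1 ((Submodule.span L {1} ⊔ ker Φ).map dW)
    have d3 := Submodule.finrank_map_le dW (Submodule.span L {1} ⊔ ker Φ)
    have d4 := one 1 (ker Φ)
    rw [show n - (g - μ • 1).rank = p by omega, sq, sq]
    obtain rfl : p' = p := by omega
    omega

lemma arith {n r γ σ a b N : ℕ} (hn : 12 ≤ n) (hr : 1 ≤ r) (hr' : r ≤ n) (hN : N = n.choose 2)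
    (hγ : γ + (n - r) ^ 2 ≤ n ^ 2 + 2) (ha : N ≤ 2 * a) (hb : 16 ≤ b) (h1 : a * σ ≤ γ)
    (h2 : (b - σ) * (min ((r + 1) / 2) (n / 4) * (n - 2 * min ((r + 1) / 2) (n / 4)) - σ) ≤ γ) :
    False := by
  have e : 2 * N + n = n * n := by
    rw [hN, Nat.choose_two_right, Nat.mul_div_cancel' (Nat.even_mul_pred_self n).two_dvd]
    obtain ⟨m, rfl⟩ : ∃ m, n = m + 1 := ⟨n - 1, by omega⟩
    simp; ring
  have hσ : σ ≤ 4 := by
    by_contra hc
    have := Nat.mul_le_mul_left a (show 5 ≤ σ by omega)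
    nlinarith
  obtain ⟨j, hj⟩ : ∃ j, j = min ((r + 1) / 2) (n / 4) := ⟨_, rfl⟩
  rw [← hj] at h2
  obtain ⟨u, hu⟩ : ∃ u, n = 2 * j + u := ⟨n - 2 * j, by omega⟩
  rw [show n - 2 * j = u by omega] at h2
  have h3 : 12 * (j * u - 4) ≤ γ := le_trans (Nat.mul_le_mul (by omega) (by omega)) h2
  have h4 : 12 * (j * u) ≤ γ + 48 := by omega
  rcases le_total ((r + 1) / 2) (n / 4) with c | c
  · have h5 : u ^ 2 ≤ (n - r) ^ 2 := Nat.pow_le_pow_left (by omega) 2
    have h6 : 1 ≤ j := by omega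
    have h7 : 2 * j ≤ u := by omega
    have h8 : 8 * (j * u) ≤ 4 * (j * j) + 50 := by subst hu; nlinarith
    rcases Nat.lt_or_ge j 3 with c' | c'
    · interval_cases j <;> omega
    · nlinarith
  · have h6 : 3 ≤ j := by omega
    obtain ⟨w, hw⟩ : ∃ w, u = 2 * j + w := ⟨u - 2 * j, by omega⟩
    have h7 : w ≤ 3 := by omega
    subst hw hu
    interval_cases w <;> nlinarith

theorem rigid_generic [IsAlgClosed L] {I : Type} [Fintype I] [DecidableEq I] (hn : 12 ≤ n)
    (hI : 16 ≤ Fintype.card I) (hI' : Fintype.card I + 16 ≤ n.choose 2) (T : Matrix (Pr n) I L)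
    (hT : Function.Injective (toLin' T))
    (gen : ∀ δ : Matrix (Pr n) I L, ∃ D : Derivation ℤ L L, T.map D = δ)
    (g g' : Matrix (Fin n) (Fin n) L) (hg : g * g' = 1) (h : Matrix I I L)
    (e : wedge g g * T = T * h) : ∃ c : L, g = c • 1 := by
  by_contra hc
  obtain ⟨μ, hμ⟩ := exists_argmin fun μ : L => (g - μ • 1).rank
  obtain ⟨Γ, a1, a2, a3⟩ := exists_gamma g μ
  have r1 : 1 ≤ (g - μ • 1).rank := by
    by_contra h0
    have : range (toLin' (g - μ • 1)) = ⊥ := Submodule.finrank_eq_zero.1 (by rw [rk_eq]; omega)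
    exact hc ⟨μ, sub_eq_zero.1 (toLin'.map_eq_zero_iff.1 (range_eq_bot.1 this))⟩
  have r2 : (g - μ • 1).rank ≤ n := (rank_le_card_width _).trans (by simp)
  have hk := rank_wedge g g' hg _ hμ (min (((g - μ • 1).rank + 1) / 2) (n / 4)) (by omega) (by omega)
  rcases le_total (2 * Fintype.card I) (n.choose 2) with c | c
  · obtain ⟨σ, b1, b2⟩ := core _ T h e hT (fun δ => by
      obtain ⟨D, hD⟩ := gen δ
      exact ⟨D, 0, by rw [hD, Matrix.mul_zero, add_zero]⟩) Γ a1 a2 _ hk
    rw [card_Pr] at b1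
    exact arith hn r1 r2 rfl a3 (by omega) hI b1 b2
  · obtain ⟨σ, b1, b2⟩ := core2 _ T h e hT gen Γ a1 a2 _ hk
    rw [card_Pr] at b2
    exact arith hn r1 r2 rfl a3 c (by omega) b1 b2

lemma inj_of_gen {P I : Type} [Fintype P] [Fintype I] [DecidableEq P] [DecidableEq I]
    (hI : Fintype.card I < Fintype.card P) (T : Matrix P I L)
    (gen : ∀ δ : Matrix P I L, ∃ D : Derivation ℤ L L, T.map D = δ) :
    Function.Injective (toLin' T) := by
  refine (injective_iff_map_eq_zero _).2 fun c hc => ?_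
  by_contra h0
  obtain ⟨i, hi⟩ := Function.ne_iff.1 h0
  have hs : range (toLin' T) = ⊤ := eq_top_iff.2 fun y _ => by
    obtain ⟨D, hD⟩ := gen (Matrix.of fun p a => if a = i then y p / c i else 0)
    have e := dmulVec D T c
    rw [show T *ᵥ c = 0 from hc, hD] at e
    refine ⟨-(D ∘ c), funext fun p => ?_⟩
    have e2 := congrFun e p
    simp only [Function.comp, Pi.zero_apply, map_zero, Pi.add_apply] at e2
    rw [map_neg, Pi.neg_apply, neg_eq_iff_add_eq_zero, add_comm]
    refine Eq.trans ?_ e2.symm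
    congr 1
    simp [mulVec, dotProduct, div_mul_cancel₀ _ hi]
  have := finrank_range_le (toLin' T)
  rw [hs, finrank_top, finrank_fintype_fun_eq_card, finrank_fintype_fun_eq_card] at this
  omega

end Pool.Agent.Lib.MP_a8bb0e_al
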