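import Mathlib

/-! Derivations with prescribed values and spreading out of unsolvable systems. -/

namespace Pool.Agent.Lib.MP_a8bb0e_al

open MvPolynomial

lemma exists_der {τ k K : Type} [Field k] [Field K] [Algebra (MvPolynomial τ ℤ) k]
    [IsFractionRing (MvPolynomial τ ℤ) k] [Algebra k K] [Algebra.IsSeparable k K]
    [Algebra (MvPolynomial τ ℤ) K] [IsScalarTower (MvPolynomial τ ℤ) k K] (δ : τ → K) :
    ∃ D : Derivation ℤ K K, ∀ i, D (algebraMap (MvPolynomial τ ℤ) K (X i)) = δ i := by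
  have h1 : Algebra.FormallyEtale (MvPolynomial τ ℤ) k :=
    Algebra.FormallyEtale.of_isLocalization (nonZeroDivisors _)
  have h2 : Algebra.FormallyEtale k K := Algebra.FormallyEtale.of_isSeparable k K
  have h3 : Algebra.FormallyEtale (MvPolynomial τ ℤ) K := Algebra.FormallyEtale.comp _ k K
  have hb := KaehlerDifferential.isBaseChange_of_formallyEtale ℤ (MvPolynomial τ ℤ) K
  refine ⟨(hb.lift (mkDerivation ℤ δ).liftKaehlerDifferential).compDer
    (KaehlerDifferential.D ℤ K), fun i => ?_⟩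
  change hb.lift _ (KaehlerDifferential.D ℤ K _) = _
  rw [← KaehlerDifferential.map_D ℤ ℤ (MvPolynomial τ ℤ) K, hb.lift_eq,
    Derivation.liftKaehlerDifferential_comp_D, mkDerivation_X]

lemma spread {D k K σ : Type} [CommRing D] [IsDomain D] [Field k] [Field K] [Algebra D k]
    [IsFractionRing D k] [Algebra k K] [IsAlgClosed K] [Algebra D K] [IsScalarTower D k K]
    [Finite σ] (S : Set (MvPolynomial σ D))
    (h : ∀ x : σ → K, ¬ ∀ f ∈ S, eval₂Hom (algebraMap D K) x f = 0) :
    ∃ P : D, P ≠ 0 ∧ ∀ (F : Type) [CommRing F] (φ : MvPolynomial σ D →+* F),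
      (∀ f ∈ S, φ f = 0) → φ (C P) = 0 := by
  let : Algebra (MvPolynomial σ D) (MvPolynomial σ k) := algebraMvPolynomial
  have hz : zeroLocus K ((Ideal.span S).map (algebraMap _ (MvPolynomial σ k))) = ∅ := by
    refine Set.eq_empty_of_forall_notMem fun x hx => h x fun f hf => ?_
    have := hx _ (Ideal.mem_map_of_mem _ (Ideal.subset_span hf))
    rw [algebraMap_def, aeval_def, eval₂_map, ← IsScalarTower.algebraMap_eq] at this
    exact this
  have h1 := vanishingIdeal_zeroLocus_eq_radical (K := K)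
    ((Ideal.span S).map (algebraMap _ (MvPolynomial σ k)))
  rw [hz, vanishingIdeal_empty, eq_comm, Ideal.radical_eq_top, Ideal.eq_top_iff_one,
    IsLocalization.mem_map_algebraMap_iff ((nonZeroDivisors D).map C)] at h1
  obtain ⟨⟨⟨a, ha⟩, ⟨_, P, hP, rfl⟩⟩, e⟩ := h1
  rw [one_mul] at e
  have e2 : C P = a := map_injective _ (IsFractionRing.injective D k) e
  refine ⟨P, nonZeroDivisors.ne_zero hP, fun F _ φ hφ => ?_⟩
  have : Ideal.span S ≤ RingHom.ker φ := Ideal.span_le.2 hφ
  rw [e2]
  exact this ha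

end Pool.Agent.Lib.MP_a8bb0e_al
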