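import Pool.Agent.Lib.MP_a8bb0e_al.Forms
import Pool.Agent.Lib.MP_a8bb0e_al.Spread

/-! Rigidity holds outside a hypersurface, and rigid integral tuples obey a local-global principle. -/

namespace Pool.Agent.Lib.MP_a8bb0e_al

open Matrix MvPolynomial

variable {n : ℕ} {I : Type} [Fintype I] [DecidableEq I]

/-- independent forms all of whose pseudo-isometries are scalar -/
def Rigid (t : Matrix (Pr n) I ℤ) : Prop :=
  ∀ (F : Type) [Field F] [CharZero F],
    (∀ c : I → F, t.map (Int.castRingHom F) *ᵥ c = 0 → c = 0) ∧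
    ∀ (g g' : Matrix (Fin n) (Fin n) F) (h : Matrix I I F), g * g' = 1 →
      wedge g g * t.map (Int.castRingHom F) = t.map (Int.castRingHom F) * h → ∃ c : F, g = c • 1

lemma map_eq_iff {R S a b : Type} [CommRing R] [CommRing S] (φ : R →+* S) (A B : Matrix a b R) :
    (∀ i j, φ (A i j - B i j) = 0) ↔ A.map φ = B.map φ := by
  simp only [map_sub, sub_eq_zero, ← Matrix.ext_iff, map_apply]

theorem exists_poly_aux (k K : Type) [Field k] [Field K] [Algebra (MvPolynomial (I × Pr n) ℤ) k]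
    [IsFractionRing (MvPolynomial (I × Pr n) ℤ) k] [Algebra k K] [Algebra.IsSeparable k K]
    [IsAlgClosed K] [Algebra (MvPolynomial (I × Pr n) ℤ) K]
    [IsScalarTower (MvPolynomial (I × Pr n) ℤ) k K] (hn : 12 ≤ n) (hI : 16 ≤ Fintype.card I)
    (hI' : Fintype.card I + 16 ≤ n.choose 2) :
    ∃ P : MvPolynomial (I × Pr n) ℤ, P ≠ 0 ∧ ∀ τ : I × Pr n → ℤ, eval τ P ≠ 0 →
      Rigid (Matrix.of fun p a => τ (a, p)) := by
  let D := MvPolynomial (I × Pr n) ℤ
  let T0 : Matrix (Pr n) I D := Matrix.of fun p a => X (a, p)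
  have gen : ∀ δ : Matrix (Pr n) I K, ∃ d : Derivation ℤ K K, (T0.map (algebraMap D K)).map d = δ :=
    fun δ => by
      obtain ⟨d, hd⟩ := exists_der (k := k) fun i : I × Pr n => δ i.2 i.1
      exact ⟨d, by ext p a; exact hd (a, p)⟩
  have inj := inj_of_gen (by rw [card_Pr n]; omega) _ gen
  have hF : ∀ (F : Type) [CommRing F] (τ : I × Pr n → ℤ),
      T0.map ((Int.castRingHom F).comp (eval τ)) =
        (Matrix.of fun p a => τ (a, p)).map (Int.castRingHom F) := fun F _ τ => by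
    ext p a; simp [T0]
  have h1 : ∀ a : I, ∃ P : D, P ≠ 0 ∧ ∀ (F : Type) [Field F] (ψ : D →+* F) (c : I → F),
      T0.map ψ *ᵥ c = 0 → c a ≠ 0 → ψ P = 0 := fun a => by
    obtain ⟨P, hP, h⟩ := spread (D := D) (k := k) (K := K) (σ := Option I)
      ({X none * X (some a) - 1} ∪ Set.range fun p => ∑ b, C (T0 p b) * X (some b)) fun x hx => by
        have e1 := hx _ (Or.inl rfl)
        have e2 : toLin' (T0.map (algebraMap D K)) (fun b => x (some b)) = 0 := funext fun p => by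
          simpa [mulVec, dotProduct] using hx _ (Or.inr ⟨p, rfl⟩)
        have e3 := congrFun ((injective_iff_map_eq_zero _).1 inj _ e2) a
        simp only [Pi.zero_apply] at e3
        simp [e3] at e1
    refine ⟨P, hP, fun F _ ψ c hc ha => ?_⟩
    have := h F (eval₂Hom ψ fun o => o.elim (c a)⁻¹ c) (by
      rintro _ (rfl | ⟨p, rfl⟩)
      · simp [ha]
      · simpa [mulVec, dotProduct] using congrFun hc p)
    simpa using this
  have h2 : ∀ i j l : Fin n, ∃ P : D, P ≠ 0 ∧ ∀ (F : Type) [Field F] (ψ : D →+* F)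
      (g g' : Matrix (Fin n) (Fin n) F) (h : Matrix I I F), g * g' = 1 →
      wedge g g * T0.map ψ = T0.map ψ * h → g i j ≠ (if i = j then g l l else 0) → ψ P = 0 := by
    intro i j l
    let σ := Option ((Fin n × Fin n) ⊕ (Fin n × Fin n) ⊕ (I × I))
    let G : Matrix (Fin n) (Fin n) (MvPolynomial σ D) := Matrix.of fun a b => X (some (.inl (a, b)))
    let G' : Matrix (Fin n) (Fin n) (MvPolynomial σ D) :=
      Matrix.of fun a b => X (some (.inr (.inl (a, b))))
    let H : Matrix I I (MvPolynomial σ D) := Matrix.of fun a b => X (some (.inr (.inr (a, b))))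
    let T1 : Matrix (Pr n) I (MvPolynomial σ D) := T0.map C
    let S : Set (MvPolynomial σ D) := {f | f = X none * (G i j - if i = j then G l l else 0) - 1 ∨
      (∃ a b, f = (G * G') a b - (1 : Matrix (Fin n) (Fin n) (MvPolynomial σ D)) a b) ∨
      ∃ p a, f = (wedge G G * T1) p a - (T1 * H) p a}
    have hS : ∀ (F : Type) [CommRing F] (ψ : D →+* F) (x : σ → F),
        (∀ f ∈ S, eval₂Hom ψ x f = 0) ↔
          x none * (G.map (eval₂Hom ψ x) i j - if i = j then G.map (eval₂Hom ψ x) l l else 0) = 1 ∧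
          G.map (eval₂Hom ψ x) * G'.map (eval₂Hom ψ x) = 1 ∧
          wedge (G.map (eval₂Hom ψ x)) (G.map (eval₂Hom ψ x)) * T0.map ψ =
            T0.map ψ * H.map (eval₂Hom ψ x) := fun F _ ψ x => by
      have e : T1.map (eval₂Hom ψ x) = T0.map ψ := by ext; simp [T1]
      rw [← Matrix.map_mul, ← Matrix.map_one (eval₂Hom ψ x) (map_zero _) (map_one _), ← map_eq_iff,
        ← wedge_map, ← e, ← Matrix.map_mul, ← Matrix.map_mul, ← map_eq_iff]
      have e2 : eval₂Hom ψ x (X none * (G i j - if i = j then G l l else 0) - 1) = x none *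
          (G.map (eval₂Hom ψ x) i j - if i = j then G.map (eval₂Hom ψ x) l l else 0) - 1 := by
        split_ifs <;> simp
      constructor
      · exact fun h => ⟨sub_eq_zero.1 (e2 ▸ h _ (Or.inl rfl)),
          fun a b => h _ (Or.inr (Or.inl ⟨a, b, rfl⟩)), fun a b => h _ (Or.inr (Or.inr ⟨a, b, rfl⟩))⟩
      · rintro ⟨a1, a2, a3⟩ _ (rfl | ⟨a, b, rfl⟩ | ⟨a, b, rfl⟩)
        exacts [e2.trans (sub_eq_zero.2 a1), a2 a b, a3 a b]
    obtain ⟨P, hP, h⟩ := spread (D := D) (k := k) (K := K) S fun x hx => by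
      obtain ⟨a1, a2, a3⟩ := (hS K _ x).1 hx
      obtain ⟨c, hc⟩ := rigid_generic hn hI hI' _ inj gen _ _ a2 _ a3
      rw [hc] at a1
      by_cases hij : i = j <;> simp [hij] at a1
    refine ⟨P, hP, fun F _ ψ g g' h' a2 a3 a1 => ?_⟩
    let x : σ → F := fun o => o.elim (g i j - if i = j then g l l else 0)⁻¹
      (Sum.elim (fun p => g p.1 p.2) (Sum.elim (fun p => g' p.1 p.2) fun p => h' p.1 p.2))
    have e1 : G.map (eval₂Hom ψ x) = g := by ext; simp [G, x]
    have e2 : G'.map (eval₂Hom ψ x) = g' := by ext; simp [G', x]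
    have e3 : H.map (eval₂Hom ψ x) = h' := by ext; simp [H, x]
    have := h F (eval₂Hom ψ x) ((hS F ψ x).2 (by
      rw [e1, e2, e3]
      exact ⟨inv_mul_cancel₀ (sub_ne_zero.2 a1), a2, a3⟩))
    simpa using this
  choose P1 hP1 h1 using h1
  choose P2 hP2 h2 using h2
  let k0 : Fin n := ⟨0, by omega⟩
  refine ⟨(∏ a, P1 a) * ∏ i, ∏ j, P2 i j k0, mul_ne_zero (Finset.prod_ne_zero_iff.2 fun a _ => hP1 a)
    (Finset.prod_ne_zero_iff.2 fun i _ => Finset.prod_ne_zero_iff.2 fun j _ => hP2 i j k0),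
    fun τ hτ F _ _ => ?_⟩
  simp only [map_mul, map_prod, mul_ne_zero_iff, Finset.prod_ne_zero_iff, Finset.mem_univ,
    forall_const] at hτ
  rw [← hF]
  refine ⟨fun c hc => funext fun a => by_contra fun ha => hτ.1 a ?_,
    fun g g' h a2 a3 => ⟨g k0 k0, Matrix.ext fun i j => by_contra fun a1 => hτ.2 i j ?_⟩⟩
  · simpa using h1 a F _ c hc ha
  · simpa using h2 i j k0 F _ g g' h a2 a3 (by simpa [one_apply] using a1)

theorem exists_poly (hn : 12 ≤ n) (hI : 16 ≤ Fintype.card I)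
    (hI' : Fintype.card I + 16 ≤ n.choose 2) :
    ∃ P : MvPolynomial (I × Pr n) ℤ, P ≠ 0 ∧ ∀ τ : I × Pr n → ℤ, eval τ P ≠ 0 →
      Rigid (Matrix.of fun p a => τ (a, p)) :=
  exists_poly_aux (FractionRing (MvPolynomial (I × Pr n) ℤ))
    (AlgebraicClosure (FractionRing (MvPolynomial (I × Pr n) ℤ))) hn hI hI'

end Pool.Agent.Lib.MP_a8bb0e_al
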