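import Pool.Agent.Lib.MP_a8bb0e_al.Tri

set_option autoImplicit false
open Polynomial Matrix

namespace Pool.Agent.Lib.MP_a8bb0e_al

variable {V : Type} [Fintype V] [DecidableEq V] {Γ : SimpleGraph V}

/-- entrywise cast of an integer matrix -/
abbrev cst (R : Type) [CommRing R] : Matrix V V ℤ →+* Matrix V V R := (Int.castRingHom R).mapMatrix

lemma cst_trace (R : Type) [CommRing R] (X : Matrix V V ℤ) :
    trace (cst R X) = ((trace X : ℤ) : R) := by simp [trace]

lemma cst_transpose (R : Type) [CommRing R] (X : Matrix V V ℤ) : cst R Xᵀ = (cst R X)ᵀ := rfl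

lemma span_mat {R : Type} [CommRing R] [IsAddTorsionFree R] (E : Set (Matrix V V ℤ))
    (Y : Matrix V V R) (hY : ∀ c ∈ E, trace (cst R c * Y) = 0) (Pr : Matrix V V R → Prop)
    (h0 : Pr 0) (hadd : ∀ A B, Pr A → Pr B → Pr (A + B)) (hs : ∀ (t : R) A, Pr A → Pr (t • A))
    (hb : ∀ X : Matrix V V ℤ, (∀ c ∈ E, trace (c * X) = 0) → Pr (cst R X)) : Pr Y := by
  have := span_int_solutions (R := R) ((fun (c : Matrix V V ℤ) (i : V × V) => c i.2 i.1) '' E)
    (fun i => Y i.1 i.2) (by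
      rintro _ ⟨c, hc, rfl⟩
      rw [← hY c hc, Fintype.sum_prod_type, Finset.sum_comm]
      simp [trace, Matrix.mul_apply])
  refine Submodule.span_induction (p := fun (y : V × V → R) _ => Pr (Matrix.of fun a b => y (a, b)))
    ?_ h0 (fun x y _ _ hx hy => hadd _ _ hx hy) (fun t x _ hx => hs t _ hx) this
  rintro _ ⟨x, hx, rfl⟩
  refine hb (Matrix.of fun a b => x (a, b)) fun c hc => ?_
  rw [← hx _ ⟨c, hc, rfl⟩, Fintype.sum_prod_type, Finset.sum_comm]
  simp [trace, Matrix.mul_apply]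

/-- the annihilator of `K` over `R` -/
def Om (K : Set (Matrix V V ℤ)) (R : Type) [CommRing R] (M : Matrix V V R) : Prop :=
  ∀ κ ∈ K, trace (cst R κ * M) = 0

/-- local data at the prime `p` -/
structure Loc (Γ : SimpleGraph V) (K : Set (Matrix V V ℤ)) (p : ℕ) [Fact p.Prime] where
  P : Matrix V V ℤ_[p]
  Q : Matrix V V ℤ_[p]
  pq : P * Q = 1
  qp : Q * P = 1
  down : ∀ M, OmG Γ M → Om K ℤ_[p] (Pᵀ * M * P)
  up : ∀ M : Matrix V V ℤ, (∀ κ ∈ K, trace (κ * M) = 0) → OmG Γ (Qᵀ * cst ℤ_[p] M * Q)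

/-- equations of the derivation lattice -/
def EqL (K : Set (Matrix V V ℤ)) : Set (Matrix V V ℤ) :=
  {c | ∃ κ ∈ K, ∃ M : Matrix V V ℤ, (∀ κ ∈ K, trace (κ * M) = 0) ∧ c = κᵀ * Mᵀ + κ * M}

/-- equations of the centre of the derivation lattice modulo its radical -/
def EqC (K : Set (Matrix V V ℤ)) : Set (Matrix V V ℤ) :=
  EqL K ∪ {c | ∃ Y Y' : Matrix V V ℤ, (∀ c ∈ EqL K, trace (c * Y) = 0) ∧
    (∀ c ∈ EqL K, trace (c * Y') = 0) ∧ c = Y * Y' - Y' * Y}

lemma OmG.add {R : Type} [CommRing R] {A B : Matrix V V R} (a : OmG Γ A) (b : OmG Γ B) :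
    OmG Γ (A + B) :=
  ⟨fun x y => by rw [Matrix.add_apply, Matrix.add_apply, a.1 x y, b.1 x y]; ring,
    fun x => by simp [a.2.1 x, b.2.1 x], fun x y h => by simp [a.2.2 x y h, b.2.2 x y h]⟩

lemma OmG.smul {R : Type} [CommRing R] {A : Matrix V V R} (a : OmG Γ A) (t : R) : OmG Γ (t • A) :=
  ⟨fun x y => by rw [Matrix.smul_apply, Matrix.smul_apply, a.1 x y]; simp,
    fun x => by simp [a.2.1 x], fun x y h => by simp [a.2.2 x y h]⟩

lemma trace_der {R : Type} [CommRing R] (κ M X : Matrix V V R) :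
    trace (κ * (Xᵀ * M + M * X)) = trace ((κᵀ * Mᵀ + κ * M) * X) := by
  rw [Matrix.mul_add, Matrix.add_mul, trace_add, trace_add, Matrix.mul_assoc κ M X]
  congr 1
  rw [← trace_transpose, transpose_mul, transpose_mul, transpose_transpose, trace_mul_comm,
    Matrix.mul_assoc]

namespace Loc

variable {K : Set (Matrix V V ℤ)} {p : ℕ} [Fact p.Prime] (L : Loc Γ K p)

lemma up' {M : Matrix V V ℤ_[p]} (h : Om K ℤ_[p] M) : OmG Γ (L.Qᵀ * M * L.Q) := by
  refine span_mat K M h (fun M => OmG Γ (L.Qᵀ * M * L.Q)) ?_ (fun A B a b => ?_)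
    (fun t A a => ?_) L.up
  · simp [OmG]
  · simp only [Matrix.mul_add, Matrix.add_mul]; exact a.add b
  · simp only [Matrix.mul_smul, Matrix.smul_mul]; exact a.smul t

lemma tq : L.Qᵀ * L.Pᵀ = 1 := by rw [← transpose_mul, L.pq, transpose_one]

lemma tp : L.Pᵀ * L.Qᵀ = 1 := by rw [← transpose_mul, L.qp, transpose_one]

lemma inc_iff' (X : Matrix V V ℤ_[p]) :
    Inc Γ (L.P * X * L.Q) ↔ ∀ c ∈ EqL K, trace (cst ℤ_[p] c * X) = 0 := by
  rw [inc_iff]
  have e : ∀ M, (L.P * X * L.Q)ᵀ * (L.Qᵀ * M * L.Q) + L.Qᵀ * M * L.Q * (L.P * X * L.Q) =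
      L.Qᵀ * (Xᵀ * M + M * X) * L.Q := by
    intro M
    simp only [transpose_mul, Matrix.mul_assoc, Matrix.mul_add, Matrix.add_mul]
    rw [← Matrix.mul_assoc L.Pᵀ, L.tp, ← Matrix.mul_assoc L.Q L.P, L.qp]; simp
  have e2 : ∀ M, L.Pᵀ * (L.Qᵀ * M * L.Q) * L.P = M := by
    intro M
    simp only [Matrix.mul_assoc]
    rw [← Matrix.mul_assoc L.Pᵀ, L.tp, L.qp]; simp
  have e3 : ∀ M, L.Qᵀ * (L.Pᵀ * M * L.P) * L.Q = M := by
    intro M
    simp only [Matrix.mul_assoc]
    rw [← Matrix.mul_assoc L.Qᵀ, L.tq, L.pq]; simp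
  constructor
  · rintro h _ ⟨κ, hκ, M, hM, rfl⟩
    have := L.down _ (h _ (L.up M hM)) κ hκ
    rw [e, e2, trace_der] at this
    simpa only [map_add, map_mul, cst_transpose] using this
  · intro h M hM
    rw [← e3 M, e]
    refine L.up' fun κ hκ => ?_
    refine span_mat K _ (L.down M hM) (fun M => trace (cst ℤ_[p] κ * (Xᵀ * M + M * X)) = 0)
      (by simp) (fun A B a b => ?_) (fun t A a => ?_) (fun N hN => ?_)
    · have : Xᵀ * (A + B) + (A + B) * X = (Xᵀ * A + A * X) + (Xᵀ * B + B * X) := by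
        simp only [Matrix.mul_add, Matrix.add_mul]; abel
      simp only [this]
      rw [Matrix.mul_add, trace_add, a, b, add_zero]
    · simp only [Matrix.mul_smul, Matrix.smul_mul, ← smul_add, trace_smul]
      rw [a, smul_zero]
    · have := h _ ⟨κ, hκ, N, hN, rfl⟩
      rw [trace_der]
      simpa only [map_add, map_mul, cst_transpose] using this

lemma conj_trace (Y Y' X : Matrix V V ℤ_[p]) :
    trace ((L.P * Y * L.Q * (L.P * Y' * L.Q) - L.P * Y' * L.Q * (L.P * Y * L.Q)) *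
      (L.P * X * L.Q)) = trace ((Y * Y' - Y' * Y) * X) := by
  have k : ∀ A B, L.P * A * L.Q * (L.P * B * L.Q) = L.P * (A * B) * L.Q := fun A B => by
    simp only [Matrix.mul_assoc]; rw [← Matrix.mul_assoc L.Q L.P, L.qp]; simp
  rw [k, k, ← Matrix.sub_mul, ← Matrix.mul_sub, k, trace_mul_comm, ← Matrix.mul_assoc, L.qp]; simp

lemma back (T : Matrix V V ℤ_[p]) : L.P * (L.Q * T * L.P) * L.Q = T := by
  simp only [Matrix.mul_assoc]; rw [← Matrix.mul_assoc L.P L.Q, L.pq]; simp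

lemma tri_iff' (X : Matrix V V ℤ_[p]) :
    Tri Γ (L.P * X * L.Q) ↔ ∀ c ∈ EqC K, trace (cst ℤ_[p] c * X) = 0 := by
  have ci : ∀ Y : Matrix V V ℤ, (∀ c ∈ EqL K, trace (c * Y) = 0) →
      Inc Γ (L.P * cst ℤ_[p] Y * L.Q) := fun Y hY => (L.inc_iff' _).2 fun c hc => by
    rw [← map_mul, cst_trace, hY c hc, Int.cast_zero]
  rw [tri_iff, L.inc_iff']
  constructor
  · rintro ⟨h1, h2⟩ c (hc | ⟨Y, Y', hY, hY', rfl⟩)
    · exact h1 c hc
    · have := h2 _ _ (ci Y hY) (ci Y' hY')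
      rw [L.conj_trace] at this
      simpa only [map_sub, map_mul] using this
  · refine fun h => ⟨fun c hc => h c (Or.inl hc), fun Y Y' hY hY' => ?_⟩
    rw [← L.back Y] at hY
    rw [← L.back Y'] at hY'
    rw [← L.back Y, ← L.back Y', L.conj_trace]
    have lin : ∀ A B C : Matrix V V ℤ_[p], trace (((A + B) * C - C * (A + B)) * X) =
        trace ((A * C - C * A) * X) + trace ((B * C - C * B) * X) := fun A B C => by
      rw [← trace_add]; congr 1; noncomm_ring
    have lin' : ∀ A B C : Matrix V V ℤ_[p], trace ((C * (A + B) - (A + B) * C) * X) =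
        trace ((C * A - A * C) * X) + trace ((C * B - B * C) * X) := fun A B C => by
      rw [← trace_add]; congr 1; noncomm_ring
    refine span_mat _ _ ((L.inc_iff' _).1 hY)
      (fun A => trace ((A * (L.Q * Y' * L.P) - (L.Q * Y' * L.P) * A) * X) = 0) (by simp)
      (fun A B a b => by rw [lin, a, b, add_zero])
      (fun t A a => by
        simp only [Matrix.mul_smul, Matrix.smul_mul, ← smul_sub, trace_smul] at a ⊢
        rw [a, smul_zero]) (fun N hN => ?_)
    refine span_mat _ _ ((L.inc_iff' _).1 hY')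
      (fun A => trace ((cst ℤ_[p] N * A - A * cst ℤ_[p] N) * X) = 0) (by simp)
      (fun A B a b => by rw [lin', a, b, add_zero])
      (fun t A a => by
        simp only [Matrix.mul_smul, Matrix.smul_mul, ← smul_sub, trace_smul] at a ⊢
        rw [a, smul_zero]) (fun N' hN' => ?_)
    have := h _ (Or.inr ⟨N, N', hN, hN', rfl⟩)
    simpa only [map_sub, map_mul] using this

/-- conjugation into the standard basis -/
noncomputable def ψ : Matrix V V ℤ →+* Matrix V V ℤ_[p] where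
  toFun X := L.P * cst ℤ_[p] X * L.Q
  map_one' := by rw [map_one, Matrix.mul_one, L.pq]
  map_mul' A B := by
    simp only [map_mul, Matrix.mul_assoc]; rw [← Matrix.mul_assoc L.Q L.P, L.qp]; simp
  map_zero' := by simp
  map_add' A B := by simp only [map_add, Matrix.mul_add, Matrix.add_mul]

lemma ψ_apply (X : Matrix V V ℤ) : L.ψ X = L.P * cst ℤ_[p] X * L.Q := rfl

lemma cen_iff (X : Matrix V V ℤ) : Tri Γ (L.ψ X) ↔ ∀ c ∈ EqC K, trace (c * X) = 0 := by
  rw [ψ_apply, L.tri_iff']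
  refine forall₂_congr fun c _ => ?_
  rw [← map_mul, cst_trace, Int.cast_eq_zero]

lemma approx {T : Matrix V V ℤ_[p]} (hT : Tri Γ T) :
    ∃ X, Tri Γ (L.ψ X) ∧ ∀ v, PadicInt.toZMod (L.ψ X v v) = PadicInt.toZMod (T v v) := by
  rw [← L.back T] at hT ⊢
  refine span_mat _ _ ((L.tri_iff' _).1 hT) (fun A => ∃ X, Tri Γ (L.ψ X) ∧
    ∀ v, PadicInt.toZMod (L.ψ X v v) = PadicInt.toZMod ((L.P * A * L.Q) v v)) ?_ ?_ ?_ ?_
  · exact ⟨0, (L.cen_iff 0).2 (by simp), by simp⟩
  · rintro A B ⟨X, a, b⟩ ⟨Y, c, d⟩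
    refine ⟨X + Y, by rw [map_add]; exact a.add c, fun v => ?_⟩
    simp only [map_add, Matrix.mul_add, Matrix.add_mul, Matrix.add_apply, b, d]
  · rintro t A ⟨X, a, b⟩
    obtain ⟨n, hn⟩ := ZMod.intCast_surjective (PadicInt.toZMod t)
    refine ⟨n • X, (L.cen_iff _).2 fun c hc => ?_, fun v => ?_⟩
    · rw [Matrix.mul_smul, trace_smul, (L.cen_iff _).1 a c hc, smul_zero]
    · rw [map_zsmul, Matrix.smul_apply, Matrix.mul_smul, Matrix.smul_mul, Matrix.smul_apply,
        zsmul_eq_mul, smul_eq_mul, map_mul, map_mul, b, map_intCast, hn]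
  · exact fun X hX => ⟨X, (L.cen_iff X).2 hX, fun v => rfl⟩

lemma charpoly (X : Matrix V V ℤ) (h : Tri Γ (L.ψ X)) :
    X.charpoly.map (Int.castRingHom ℤ_[p]) = ∏ v, (Polynomial.X - C (L.ψ X v v)) := by
  rw [← h.charpoly, ψ_apply, charpoly_mul_comm, ← Matrix.mul_assoc, L.qp, Matrix.one_mul,
    ← charpoly_map]
  rfl

lemma ψ_aeval (X : Matrix V V ℤ) (f : ℤ[X]) : L.ψ (aeval X f) = aeval (L.ψ X) f :=
  (aeval_algHom_apply L.ψ.toIntAlgHom X f).symm

end Loc

section Global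

variable {K : Set (Matrix V V ℤ)}

lemma eigen_int (hL : ∀ (p : ℕ) [Fact p.Prime], Nonempty (Loc Γ K p)) {X : Matrix V V ℤ}
    (hX : ∀ c ∈ EqC K, trace (c * X) = 0) :
    ∃ s : Multiset ℤ, ∀ (p : ℕ) [Fact p.Prime] (L : Loc Γ K p),
      (Finset.univ.val.map fun v => L.ψ X v v) = s.map (Int.cast : ℤ → ℤ_[p]) := by
  obtain ⟨s, hs⟩ := prod_int_of_local X.charpoly (charpoly_monic X) (fun p _ => by
    obtain ⟨L⟩ := hL p
    rw [L.charpoly X ((L.cen_iff X).2 hX)]
    exact Splits.prod fun v _ => Splits.X_sub_C _)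
  refine ⟨s, fun p _ L => ?_⟩
  have h := L.charpoly X ((L.cen_iff X).2 hX)
  rw [hs, Polynomial.map_multiset_prod, Multiset.map_map] at h
  rw [← roots_multiset_prod_X_sub_C (Finset.univ.val.map fun v => L.ψ X v v),
    ← roots_multiset_prod_X_sub_C (s.map (Int.cast : ℤ → ℤ_[p])), Multiset.map_map,
    Multiset.map_map]
  congr 1
  refine Eq.trans h.symm ?_
  simp

lemma eigen_match (hL : ∀ (p : ℕ) [Fact p.Prime], Nonempty (Loc Γ K p)) {X : Matrix V V ℤ}
    (hX : ∀ c ∈ EqC K, trace (c * X) = 0) {p q : ℕ} [Fact p.Prime] [Fact q.Prime] (L : Loc Γ K p)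
    (L' : Loc Γ K q) (v : V) : ∃ (n : ℤ) (w : V), L.ψ X v v = n ∧ L'.ψ X w w = n := by
  obtain ⟨s, hs⟩ := eigen_int hL hX
  have h1 : L.ψ X v v ∈ s.map (Int.cast : ℤ → ℤ_[p]) := by
    rw [← hs p L]; exact Multiset.mem_map.2 ⟨v, Finset.mem_univ v, rfl⟩
  obtain ⟨n, hn, e⟩ := Multiset.mem_map.1 h1
  have h2 : (n : ℤ_[q]) ∈ Finset.univ.val.map fun v => L'.ψ X v v := by
    rw [hs q L']; exact Multiset.mem_map.2 ⟨n, hn, rfl⟩
  obtain ⟨w, -, e'⟩ := Multiset.mem_map.1 h2
  exact ⟨n, w, e.symm, e'⟩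

/-- equivalence classes of the domination preorder -/
def domSetoid (Γ : SimpleGraph V) : Setoid V :=
  ⟨fun v w => Dom Γ v w ∧ Dom Γ w v, fun v => ⟨Dom.refl v, Dom.refl v⟩, fun h => h.symm,
    fun a b => ⟨a.1.trans b.1, b.2.trans a.2⟩⟩

/-- the class of a vertex -/
def cl (Γ : SimpleGraph V) (v : V) : Quotient (domSetoid Γ) := Quotient.mk _ v

lemma cl_eq {v w : V} : cl Γ v = cl Γ w ↔ Dom Γ v w ∧ Dom Γ w v := Quotient.eq

open Classical in
lemma exists_mod (hL : ∀ (p : ℕ) [Fact p.Prime], Nonempty (Loc Γ K p)) {p : ℕ} [Fact p.Prime]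
    (L : Loc Γ K p) (q : ℕ) [Fact q.Prime] (c0 : Quotient (domSetoid Γ)) :
    ∃ X, (∀ c ∈ EqC K, trace (c * X) = 0) ∧ ∀ v, ∃ n : ℤ, L.ψ X v v = n ∧
      (n : ZMod q) = if cl Γ v = c0 then 1 else 0 := by
  obtain ⟨L'⟩ := hL q
  have : ∀ c : Quotient (domSetoid Γ), ∃ X, Tri Γ (L'.ψ X) ∧
      ∀ v, PadicInt.toZMod (L'.ψ X v v) = if cl Γ v = c then 1 else 0 := fun c => by
    obtain ⟨X, a, b⟩ := L'.approx (tri_diagonal (fun v => if cl Γ v = c then (1 : ℤ_[q]) else 0)
      fun v w a b => by rw [cl_eq.2 ⟨a, b⟩])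
    refine ⟨X, a, fun v => ?_⟩
    rw [b, diagonal_apply_eq]; split_ifs <;> simp
  choose X hX1 hX2 using this
  have hC : ∀ c, ∀ e ∈ EqC K, trace (e * X c) = 0 := fun c => (L'.cen_iff _).1 (hX1 c)
  choose lam w0 h1 h2 using fun c v => eigen_match hL (hC c) L L' v
  have val : ∀ c v, (lam c v : ZMod q) = 0 ∨ (lam c v : ZMod q) = 1 := fun c v => by
    have := hX2 c (w0 c v)
    rw [h2, map_intCast] at this
    rw [this]; split_ifs <;> simp
  have ne : ∀ c, ∃ v, (lam c v : ZMod q) = 1 := fun c => by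
    obtain ⟨u, rfl⟩ := Quotient.exists_rep c
    obtain ⟨n, v, a, b⟩ := eigen_match hL (hC (Quotient.mk _ u)) L' L u
    have := hX2 (Quotient.mk _ u) u
    rw [a, map_intCast, if_pos (by rfl)] at this
    exact ⟨v, by rw [Int.cast_injective ((h1 _ v).symm.trans b), this]⟩
  have disj : ∀ c c' v w, cl Γ v = cl Γ w → (lam c v : ZMod q) = 1 → (lam c' w : ZMod q) = 1 →
      c = c' := by
    intro c c' v w hvw a b
    by_contra hne
    have t : Tri Γ (L'.ψ (X c * X c')) := by rw [map_mul]; exact (hX1 c).mul (hX1 c')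
    obtain ⟨n, u, e1, e2⟩ := eigen_match hL ((L'.cen_iff _).1 t) L L' v
    have t1 := (L.cen_iff _).2 (hC c)
    have t2 := (L.cen_iff _).2 (hC c')
    rw [map_mul, t1.mul_diag t2, t2.2 v w (cl_eq.1 hvw).1 (cl_eq.1 hvw).2, h1, h1,
      ← Int.cast_mul] at e1
    have e3 := congrArg PadicInt.toZMod e2
    rw [map_mul, (hX1 c).mul_diag (hX1 c'), map_mul, hX2, hX2, map_intCast,
      ← Int.cast_injective e1, Int.cast_mul, a, b] at e3
    by_cases h : cl Γ u = c
    · rw [if_neg (show ¬ cl Γ u = c' from fun h' => hne (h.symm.trans h'))] at e3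
      simp at e3
    · rw [if_neg h] at e3
      simp at e3
  choose f hf using ne
  have inj : Function.Injective fun c => cl Γ (f c) := fun c c' h => disj c c' _ _ h (hf c) (hf c')
  have sur := Finite.surjective_of_injective inj
  obtain ⟨c, hc⟩ := sur c0
  refine ⟨X c, hC c, fun v => ⟨lam c v, h1 c v, ?_⟩⟩
  by_cases h : cl Γ v = c0
  · rw [if_pos h]
    have t1 := (L.cen_iff _).2 (hC c)
    have e := cl_eq.1 (h.trans hc.symm)
    have := t1.2 v (f c) e.1 e.2
    rw [h1, h1] at this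
    rw [Int.cast_injective this, hf]
  · rw [if_neg h]
    refine (val c v).resolve_right fun h' => h ?_
    obtain ⟨c', hc'⟩ := sur (cl Γ v)
    have := disj c c' v (f c') hc'.symm h' (hf c')
    rw [← hc, this]; exact hc'.symm

open Classical in
lemma exists_exact (hL : ∀ (p : ℕ) [Fact p.Prime], Nonempty (Loc Γ K p)) {p : ℕ} [Fact p.Prime]
    (L : Loc Γ K p) (c0 : Quotient (domSetoid Γ)) :
    ∃ X, Tri Γ (L.ψ X) ∧ ∀ v, L.ψ X v v = if cl Γ v = c0 then 1 else 0 := by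
  let M : Submodule ℤ (Quotient (domSetoid Γ) → ℤ) :=
    { carrier := {y | ∃ X, Tri Γ (L.ψ X) ∧ ∀ v, L.ψ X v v = y (cl Γ v)}
      zero_mem' := ⟨0, (L.cen_iff 0).2 (by simp), by simp⟩
      add_mem' := by
        rintro y z ⟨X, a, b⟩ ⟨Y, c, d⟩
        exact ⟨X + Y, by rw [map_add]; exact a.add c, fun v => by simp [b, d]⟩
      smul_mem' := by
        rintro n y ⟨X, a, b⟩
        refine ⟨n • X, (L.cen_iff _).2 fun c hc => ?_, fun v => ?_⟩
        · rw [Matrix.mul_smul, trace_smul, (L.cen_iff _).1 a c hc, smul_zero]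
        · rw [map_zsmul, Matrix.smul_apply, b]; simp }
  have key : ∀ q : ℕ, q.Prime → ∃ r : ℤ, (q : ℤ) ∣ r - 1 ∧ r • Pi.single c0 (1 : ℤ) ∈ M := by
    intro q hq
    have : Fact q.Prime := ⟨hq⟩
    obtain ⟨r, h1, h2⟩ := Submodule.exists_sub_one_mem_and_smul_le_of_fg_of_le_sup
      (I := Ideal.span {(q : ℤ)}) (N := M) (N' := ⊤) (P := ⊤) Module.Finite.fg_top le_rfl (by
        rw [← (Pi.basisFun ℤ _).span_eq, Submodule.span_le]
        rintro _ ⟨c, rfl⟩
        obtain ⟨X, a, b⟩ := exists_mod hL L q c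
        choose n h1 h2 using b
        have t := (L.cen_iff X).2 a
        have hy : ∀ v, L.ψ X v v = n (cl Γ v).out := fun v => by
          have e := cl_eq.1 (show cl Γ v = cl Γ (cl Γ v).out from (Quotient.out_eq _).symm)
          rw [t.2 _ _ e.1 e.2, h1]
        have dv : ∀ d : Quotient (domSetoid Γ), (q : ℤ) ∣ Pi.single (M := fun _ => ℤ) c 1 d - n d.out := by
          intro d
          rw [← ZMod.intCast_zmod_eq_zero_iff_dvd, Int.cast_sub, h2,
            show cl Γ d.out = d from Quotient.out_eq d, Pi.single_apply]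
          split_ifs <;> simp
        choose z hz using dv
        refine Submodule.mem_sup.2 ⟨fun d => n d.out, ⟨X, t, hy⟩, (q : ℤ) • z,
          Submodule.smul_mem_smul (Ideal.mem_span_singleton_self _) (by rw [(Pi.basisFun ℤ _).span_eq]; trivial), ?_⟩
        funext d
        simp only [Pi.add_apply, Pi.smul_apply, smul_eq_mul, ← hz, Pi.basisFun_apply]
        ring)
    exact ⟨r, Ideal.mem_span_singleton.1 h1, h2 (Submodule.smul_mem_pointwise_smul _ _ _ trivial)⟩
  let J : Ideal ℤ := M.comap (LinearMap.toSpanSingleton ℤ _ (Pi.single c0 (1 : ℤ)))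
  obtain ⟨d, hd⟩ := (IsPrincipalIdealRing.principal J).principal
  have h1 : (1 : ℤ) ∈ J := by
    by_contra hc
    have hd1 : d.natAbs ≠ 1 := fun h => hc (by
      rw [hd]; exact Ideal.mem_span_singleton.2 (Int.isUnit_iff_natAbs_eq.2 h).dvd)
    obtain ⟨q, hq, hqd⟩ := Nat.exists_prime_and_dvd hd1
    obtain ⟨r, a, b⟩ := key q hq
    have b' : r ∈ J := b
    rw [hd] at b'
    have c := (Int.natCast_dvd.2 hqd).trans (Ideal.mem_span_singleton.1 b')
    have : (q : ℤ) ∣ 1 := by simpa using dvd_sub c a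
    exact hq.not_dvd_one (by exact_mod_cast this)
  have h2 := Submodule.mem_comap.1 h1
  rw [LinearMap.toSpanSingleton_apply] at h2
  obtain ⟨X, a, b⟩ := h2
  refine ⟨X, a, fun v => ?_⟩
  rw [b, one_smul, Pi.single_apply]; split_ifs <;> simp

open Classical in
lemma exists_proj (hL : ∀ (p : ℕ) [Fact p.Prime], Nonempty (Loc Γ K p)) {p : ℕ} [Fact p.Prime]
    (L : Loc Γ K p) (c0 : Quotient (domSetoid Γ)) :
    ∃ (e : Matrix V V ℤ) (U : Matrix V V ℤ_[p]), Tri Γ (L.ψ e) ∧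
      (∀ v, L.ψ e v v = if cl Γ v = c0 then 1 else 0) ∧ Tri Γ U ∧
      (∀ v, cl Γ v ≠ c0 → U v v ≠ 0) ∧ U * L.ψ e = 0 := by
  obtain ⟨X, t, hX⟩ := exists_exact hL L c0
  set n := Fintype.card V with hn
  have cop : IsCoprime (Polynomial.X : ℤ[X]) (Polynomial.X - 1) := ⟨1, -1, by ring⟩
  obtain ⟨a, b, hab⟩ := cop.pow (m := n + 1) (n := n + 1)
  have dv : (L.ψ X).charpoly ∣ (Polynomial.X * (Polynomial.X - 1)) ^ (n + 1) := by
    rw [t.charpoly]
    refine Dvd.dvd.trans ?_ (pow_dvd_pow _ (Nat.le_succ n))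
    rw [hn, ← Finset.card_univ, ← Finset.prod_const]
    refine Finset.prod_dvd_prod_of_dvd _ _ fun v _ => ?_
    rw [hX]; split_ifs <;> simp
  have z : (L.ψ X * (L.ψ X - 1)) ^ (n + 1) = 0 := by
    obtain ⟨g, hg⟩ := dv
    have := congrArg (aeval (L.ψ X)) hg
    rw [map_mul, aeval_self_charpoly, zero_mul] at this
    simpa using this
  refine ⟨aeval X (a * Polynomial.X ^ (n + 1)), aeval (L.ψ X) ((Polynomial.X - 1 : ℤ[X]) ^ (n + 1)),
    ?_, fun v => ?_, (t.aeval _).1, fun v hv => ?_, ?_⟩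
  · rw [L.ψ_aeval]; exact (t.aeval _).1
  · rw [L.ψ_aeval, (t.aeval _).2, hX]
    split_ifs
    · have := congrArg (aeval (1 : ℤ_[p])) hab
      simpa using this
    · simp
  · rw [(t.aeval _).2, hX, if_neg hv]; simp
  · rw [L.ψ_aeval, ← map_mul,
      show (Polynomial.X - 1 : ℤ[X]) ^ (n + 1) * (a * Polynomial.X ^ (n + 1)) =
        a * (Polynomial.X * (Polynomial.X - 1)) ^ (n + 1) by rw [mul_pow]; ring, map_mul, map_pow, map_mul,
      map_sub, aeval_X, map_one, z, mul_zero]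

/-- the lattice has a basis adapted to the graph -/
theorem exists_basis (hL : ∀ (p : ℕ) [Fact p.Prime], Nonempty (Loc Γ K p)) :
    ∃ a : V → V → ℤ, Submodule.span ℤ (Set.range a) = ⊤ ∧ ∀ v w, Γ.Adj v w →
      ∀ M : Matrix V V ℤ, (∀ κ ∈ K, trace (κ * M) = 0) → a v ⬝ᵥ M *ᵥ a w = 0 := by
  classical
  have : Fact (Nat.Prime 2) := ⟨Nat.prime_two⟩
  obtain ⟨L⟩ := hL 2
  choose e U h1 h2 h3 h4 h5 using exists_proj hL L
  let φ : (V → ℤ) → V → ℤ_[2] := fun x => L.P *ᵥ fun v => (x v : ℤ_[2])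
  have cm : ∀ (M : Matrix V V ℤ) (x : V → ℤ), (fun v => ((M *ᵥ x) v : ℤ_[2])) =
      cst ℤ_[2] M *ᵥ fun v => (x v : ℤ_[2]) := fun M x => by
    funext v; simp [mulVec, dotProduct]
  have kill : ∀ c, ∀ x ∈ LinearMap.range (e c).mulVecLin, U c *ᵥ φ x = 0 := by
    rintro c _ ⟨y, rfl⟩
    have : L.P * cst ℤ_[2] (e c) = L.ψ (e c) * L.P := by
      rw [L.ψ_apply, Matrix.mul_assoc, L.qp, Matrix.mul_one]
    simp only [φ, mulVecLin_apply, cm, mulVec_mulVec]
    rw [this, ← Matrix.mul_assoc, h5]; simp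
  have gen : ∀ c, ∃ g : V → V → ℤ, (∀ v, g v ∈ LinearMap.range (e c).mulVecLin) ∧
      LinearMap.range (e c).mulVecLin ≤ Submodule.span ℤ (g '' {v | cl Γ v = c}) := by
    intro c
    let N := LinearMap.range (e c).mulVecLin
    let b := Module.finBasis ℤ N
    have li : LinearIndependent ℤ_[2] fun (i : Fin (Module.finrank ℤ N)) (v : {v // cl Γ v = c}) =>
        φ (b i) v := by
      rw [Fintype.linearIndependent_iff]
      intro t ht
      have k1 : U c *ᵥ (∑ i, t i • φ (b i)) = 0 := by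
        rw [mulVec_sum]
        exact Finset.sum_eq_zero fun i _ => by rw [mulVec_smul, kill c _ (b i).2, smul_zero]
      have k0 : ∀ v, cl Γ v = c → (∑ i, t i • φ (b i)) v = 0 := fun v hv => by
        simpa using congrFun ht ⟨v, hv⟩
      have k2 : ∑ i, t i • φ (b i) = 0 := by
        funext v
        by_cases hv : cl Γ v = c
        · exact k0 v hv
        · exact (h3 c).support k1 (fun u => cl Γ u ≠ c) (fun u w _ _ h hw => h (k0 w hw)) (h4 c) v hv
      have k3 : ∑ i, t i • (fun v => (((b i : V → ℤ) v : ℤ) : ℤ_[2])) = 0 := by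
        have := congrArg (L.Q *ᵥ ·) k2
        simp only [mulVec_sum, mulVec_smul, φ, mulVec_mulVec, L.qp, one_mulVec, mulVec_zero] at this
        exact this
      have k4 := span_int_solutions (R := ℤ_[2])
        (Set.range fun (v : V) (i : Fin (Module.finrank ℤ N)) => (b i : V → ℤ) v) t (by
          rintro _ ⟨v, rfl⟩
          simpa [mul_comm] using congrFun k3 v)
      have k5 : t = 0 := by
        refine (Submodule.mem_bot ℤ_[2]).1 ((Submodule.span_le.2 ?_) k4)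
        rintro _ ⟨x, hx, rfl⟩
        have : x = 0 := funext (Fintype.linearIndependent_iff.1 b.linearIndependent x (by
          ext v
          simpa [mul_comm] using hx _ ⟨v, rfl⟩))
        rw [this]; exact (Submodule.mem_bot _).2 (by funext i; simp)
      exact congrFun k5
    have le := li.fintype_card_le_finrank
    rw [Module.finrank_fintype_fun_eq_card] at le
    obtain ⟨j⟩ := Function.Embedding.nonempty_of_card_le le
    let j' : Fin (Module.finrank ℤ N) → V := fun i => (j i).1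
    have ij : Function.Injective j' := Subtype.val_injective.comp j.injective
    refine ⟨Function.extend j' (fun i => (b i : V → ℤ)) 0, fun v => ?_, fun x hx => ?_⟩
    · by_cases h : ∃ i, j' i = v
      · obtain ⟨i, rfl⟩ := h
        rw [ij.extend_apply]; exact (b i).2
      · rw [Function.extend_apply' _ _ _ h]; exact Submodule.zero_mem _
    · have := congrArg Subtype.val (b.sum_repr ⟨x, hx⟩)
      rw [Submodule.coe_sum] at this
      rw [show x = _ from this.symm]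
      exact Submodule.sum_mem _ fun i _ => Submodule.smul_mem _ _
        (Submodule.subset_span ⟨j' i, (j i).2, ij.extend_apply _ _ i⟩)
  choose g hg1 hg2 using gen
  refine ⟨fun v => g (cl Γ v) v, ?_, fun v w hvw M hM => ?_⟩
  · have tr : ∀ s : Finset (Quotient (domSetoid Γ)), Tri Γ (L.ψ (∑ c ∈ s, e c)) := fun s =>
      (L.cen_iff _).2 fun c hc => by
        rw [Matrix.mul_sum, trace_sum]
        exact Finset.sum_eq_zero fun d _ => (L.cen_iff _).1 (h1 d) c hc
    have d1 : (L.ψ (∑ c, e c)).det = 1 := by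
      rw [(tr _).det]
      refine Finset.prod_eq_one fun v _ => ?_
      rw [map_sum, Matrix.sum_apply]; simp [h2]
    have d2 : (∑ c, e c).det = 1 := by
      rw [L.ψ_apply, det_mul, det_mul, mul_right_comm, ← det_mul, L.pq, det_one, one_mul,
        ← RingHom.map_det] at d1
      exact Int.cast_injective (α := ℤ_[2]) (by simpa using d1)
    rw [eq_top_iff]
    intro x _
    have : x = ∑ c, e c *ᵥ ((∑ c, e c)⁻¹ *ᵥ x) := by
      rw [← sum_mulVec, mulVec_mulVec, mul_nonsing_inv _ (by rw [d2]; exact isUnit_one), one_mulVec]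
    rw [this]
    refine Submodule.sum_mem _ fun c _ => Submodule.span_mono ?_ (hg2 c ⟨_, rfl⟩)
    rintro _ ⟨v, rfl, rfl⟩
    exact ⟨v, rfl⟩
  · have sup : ∀ v u, ¬ Dom Γ v u → φ (g (cl Γ v) v) u = 0 := fun v =>
      (h3 _).support (kill _ _ (hg1 _ v)) (fun u => ¬ Dom Γ v u)
        (fun u w a b _ c => a (c.trans b)) (fun u a => h4 _ u fun h => a (cl_eq.1 h).2)
    have hM' := L.up M hM
    have z : φ (g (cl Γ v) v) ⬝ᵥ (L.Qᵀ * cst ℤ_[2] M * L.Q) *ᵥ φ (g (cl Γ w) w) = 0 := by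
      simp only [dotProduct, mulVec, Finset.mul_sum]
      refine Finset.sum_eq_zero fun a _ => Finset.sum_eq_zero fun b _ => ?_
      by_cases ha : Dom Γ v a
      · by_cases hb : Dom Γ w b
        · rw [hM'.zero (ha.adj hvw hb)]; simp
        · rw [sup w b hb]; simp
      · rw [sup v a ha]; simp
    simp only [φ] at z
    rw [mulVec_mulVec, Matrix.mul_assoc, L.qp, Matrix.mul_one, ← mulVec_mulVec, dotProduct_mulVec,
      vecMul_transpose, mulVec_mulVec, L.qp, one_mulVec, ← cm] at z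
    refine Int.cast_injective (α := ℤ_[2]) ?_
    simpa [dotProduct] using z

end Global

end Pool.Agent.Lib.MP_a8bb0e_al
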