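import Pool.Agent.Lib.MP_a8bb0e_al.Ext

/-! Groups with the same finite images have locally equivalent commutator forms. -/

open scoped commutatorElement IsMulCommutative
open Matrix Filter Topology

namespace Pool.Agent.Lib.MP_a8bb0e_al

variable {G H : Type} [Group G] [Group H] {n : ℕ} {I : Type} [Fintype I] [DecidableEq I]

/-- structure constants -/
noncomputable def Ext.t (E : Ext G (Fin n) I) : Matrix (Pr n) I ℤ :=
  Matrix.of fun q => E.w (Pi.single q.1.1 1) (Pi.single q.1.2 1)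

omit [Fintype I] [DecidableEq I] in
lemma Ext.w_eq (E : Ext G (Fin n) I) (x y : Fin n → ℤ) (a : I) :
    E.w x y a = ∑ q : Pr n, (x q.1.1 * y q.1.2 - x q.1.2 * y q.1.1) * E.t q a := by
  have h := conj_alt (Matrix.of fun i (_ : Unit) => x i) (Matrix.of fun i (_ : Unit) => y i)
    (fun q => E.t q a) () ()
  rw [alt_ext (M := Matrix.of fun i j => E.w (Pi.single i 1) (Pi.single j 1) a) (v := fun q => E.t q a)
    (fun i j => congrFun (E.w_swap _ _) a) (fun i => congrFun (E.w_self _) a) fun _ => rfl] at h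
  refine Eq.trans ?_ h
  conv_lhs => rw [pi_eq_sum_univ' x, pi_eq_sum_univ' y]
  simp only [map_sum, map_smul, LinearMap.sum_apply, LinearMap.smul_apply, Finset.sum_apply,
    Pi.smul_apply, smul_eq_mul, Matrix.mul_apply, of_apply, transpose_apply, mul_comm]

lemma level4 (E : Ext G (Fin n) I) (E' : Ext H (Fin n) I)
    (hs : ∀ M, 0 < M → ∃ f : H →* G ⧸ Vm G M, Function.Surjective f) {M : ℕ} (hM : 0 < M) :
    ∃ (g g' : Matrix (Fin n) (Fin n) (ZMod M)) (h h' : Matrix I I (ZMod M)), Iso E.t E'.t g g' h h' := by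
  obtain ⟨g, g', g0, h, h', h1, h2, h3, h4⟩ := level3 E E' hs hM
  refine ⟨g, g', _, h', h1, mul_eq_one_comm.1 h2, ?_⟩
  ext q a
  have := h4 q.1.1 q.1.2 a
  rw [E.w_eq] at this
  simpa [Matrix.mul_apply, wedge, h3, vecMul, dotProduct, Ext.t] using this

lemma lim_zero' {p : ℕ} [Fact p.Prime] {X : Type} [TopologicalSpace X] {u : ℕ → X} {x : X}
    {φ : ℕ → ℕ} (hφ : StrictMono φ) (hu : Tendsto (u ∘ φ) atTop (𝓝 x)) (F : X → ℤ_[p])
    (hF : Continuous F) (h : ∀ k, PadicInt.toZModPow k (F (u k)) = 0) : F x = 0 := by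
  refine tendsto_nhds_unique ((hF.tendsto x).comp hu) (squeeze_zero_norm
    (a := fun k => ‖(p : ℤ_[p])‖ ^ φ k) (fun k => ?_) ?_)
  · have := h (φ k)
    rw [← RingHom.mem_ker, PadicInt.ker_toZModPow, Ideal.mem_span_singleton] at this
    obtain ⟨c, hc⟩ := this
    change ‖F (u (φ k))‖ ≤ _
    rw [hc, norm_mul, norm_pow]
    exact mul_le_of_le_one_right (by positivity) c.norm_le_one
  · refine (tendsto_pow_atTop_nhds_zero_of_lt_one (norm_nonneg _) ?_).comp hφ.tendsto_atTop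
    rw [PadicInt.norm_p]
    exact inv_lt_one_of_one_lt₀ (by exact_mod_cast (Fact.out : p.Prime).one_lt)

lemma iso_padic {t t' : Matrix (Pr n) I ℤ} (p : ℕ) [Fact p.Prime]
    (h : ∀ k, ∃ (g g' : Matrix (Fin n) (Fin n) (ZMod (p ^ k))) (h h' : Matrix I I (ZMod (p ^ k))),
      Iso t t' g g' h h') :
    ∃ (g g' : Matrix (Fin n) (Fin n) ℤ_[p]) (h h' : Matrix I I ℤ_[p]), Iso t t' g g' h h' := by
  have : ∀ k, ∃ u : ((Fin n → Fin n → ℤ_[p]) × (Fin n → Fin n → ℤ_[p])) × (I → I → ℤ_[p]) × (I → I → ℤ_[p]),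
      Iso t t' ((Matrix.of u.1.1).map (PadicInt.toZModPow k)) ((Matrix.of u.1.2).map (PadicInt.toZModPow k))
        ((Matrix.of u.2.1).map (PadicInt.toZModPow k)) ((Matrix.of u.2.2).map (PadicInt.toZModPow k)) :=
    fun k => by
      obtain ⟨g, g', h, h', H⟩ := h k
      choose s hs using ZMod.ringHom_surjective (PadicInt.toZModPow (p := p) k)
      refine ⟨⟨⟨g.map s, g'.map s⟩, h.map s, h'.map s⟩, ?_⟩
      convert H <;> ext <;> exact hs _
  choose u hu using this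
  obtain ⟨x, φ, hφ, hx⟩ := CompactSpace.tendsto_subseq u
  simp only [iso_map_iff, ← map_eq_iff] at hu
  refine ⟨Matrix.of x.1.1, Matrix.of x.1.2, Matrix.of x.2.1, Matrix.of x.2.2, ?_, ?_, ?_⟩ <;>
    ext i j <;> refine sub_eq_zero.1 ?_
  · refine lim_zero' hφ hx (fun X => (Matrix.of X.1.1 * Matrix.of X.1.2) i j -
      (1 : Matrix _ _ ℤ_[p]) i j) ?_ fun k => (hu k).1 i j
    simp only [Matrix.mul_apply, of_apply]; fun_prop
  · refine lim_zero' hφ hx (fun X => (Matrix.of X.2.1 * Matrix.of X.2.2) i j -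
      (1 : Matrix _ _ ℤ_[p]) i j) ?_ fun k => (hu k).2.1 i j
    simp only [Matrix.mul_apply, of_apply]; fun_prop
  · refine lim_zero' hφ hx (fun X => (wedge (Matrix.of X.1.1) (Matrix.of X.1.1) *
      t.map (Int.castRingHom ℤ_[p])) i j - (t'.map (Int.castRingHom ℤ_[p]) * Matrix.of X.2.1) i j) ?_
      fun k => (hu k).2.2 i j
    simp only [Matrix.mul_apply, of_apply, wedge]; fun_prop

lemma Iso.symm {R : Type} [CommRing R] {t t' : Matrix (Pr n) I ℤ} {g g' : Matrix (Fin n) (Fin n) R}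
    {h h' : Matrix I I R} (H : Iso t t' g g' h h') : Iso t' t g' g h' h :=
  ⟨mul_eq_one_comm.1 H.1, mul_eq_one_comm.1 H.2.1, by
    rw [← Matrix.mul_one (t'.map _), ← H.2.1, ← Matrix.mul_assoc (t'.map _), ← H.2.2,
      ← Matrix.mul_assoc, ← Matrix.mul_assoc, ← wedge_mul, H.1, wedge_one, Matrix.one_mul]⟩

section
variable [Group.IsNilpotent G] [Group.FG G] [Group.IsNilpotent H] [Group.FG H]

lemma SameFin.cl2 [Cl2 G] (h : SameFin G H) : Cl2 H := ⟨fun a b c => by
  refine commutatorElement_eq_one_iff_commute.1 (eq_one_of_Vm fun m hm => ?_)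
  obtain ⟨f, -, hf⟩ := h.exists_hom hm
  apply hf
  rw [map_commutatorElement, map_commutatorElement]
  obtain ⟨x, hx⟩ := QuotientGroup.mk'_surjective _ (f a)
  obtain ⟨y, hy⟩ := QuotientGroup.mk'_surjective _ (f b)
  obtain ⟨z, hz⟩ := QuotientGroup.mk'_surjective _ (f c)
  rw [← hx, ← hy, ← hz, ← map_commutatorElement, ← map_commutatorElement,
    commutatorElement_eq_one_iff_commute.2 (Cl2.c x y z), map_one]⟩

lemma SameFin.tf {σ I : Type} (E : Ext G σ I) (h : SameFin G H) {x : H} {k : ℕ} (hk : 0 < k)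
    (hx : x ^ k = 1) : x = 1 := by
  refine eq_one_of_Vm fun M hM => ?_
  obtain ⟨f, hf, hker⟩ := h.exists_hom (m := 2 * (k * M)) (by positivity)
  obtain ⟨g, hg⟩ := QuotientGroup.mk_surjective (f x)
  obtain ⟨u, d, rfl⟩ := E.root2 hM hk (g := g) (by
    rw [← QuotientGroup.eq_one_iff, QuotientGroup.mk_pow, hg, ← map_pow, hx, map_one])
  obtain ⟨u', hu⟩ := hf u
  obtain ⟨d', hd⟩ := hf d
  have h1 := hker (x * (u' ^ (2 * M) * d' ^ M)⁻¹) (by
    rw [map_mul, map_inv, map_mul, map_pow, map_pow, hu, hd, ← hg]; simp)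
  have h2 := Vm_le (N := Vm H M) (fun g => by
    rw [← mul_assoc, pow_mul]; exact pow_mem_Vm _ _) h1
  rwa [(Vm H M).mul_mem_cancel_right (inv_mem (mul_mem (by rw [pow_mul]; exact pow_mem_Vm _ _)
    (pow_mem_Vm _ _)))] at h2

end

lemma exists_ext [Cl2 H] [Group.FG H] (tf : ∀ (x : H) (k : ℕ), 0 < k → x ^ k = 1 → x = 1) :
    ∃ n m, Nonempty (Ext H (Fin n) (Fin m)) := by
  have : Group.FG (Abelianization H) :=
    Group.fg_of_surjective (f := Abelianization.of) (QuotientGroup.mk_surjective)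
  have : Module.Finite ℤ (Ab H) := Module.Finite.iff_addGroup_fg.2 inferInstance
  have : Module.Finite ℤ (Der H) := Module.Finite.of_surjective (TensorProduct.lift (om (H := H))) fun c =>
    der_le (LinearMap.range (TensorProduct.lift (om (H := H)))).toAddSubgroup
      (fun a b => LinearMap.mem_range_self _ (a ⊗ₜ b)) c
  let T := Submodule.torsion ℤ (Ab H)
  let b := (Module.finBasis ℤ (Ab H ⧸ T)).equivFun
  let P : H →* Multiplicative (Fin (Module.finrank ℤ (Ab H ⧸ T)) → ℤ) :=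
    MonoidHom.mk' (fun x => .ofAdd (b (T.mkQ (ab x)))) fun x y => by rw [ab_mul, map_add, map_add]; rfl
  have tor : ∀ c ∈ P.ker, ∃ N : ℕ, 0 < N ∧ c ^ N ∈ commutator H := fun c hc => by
    have h1 : ab c ∈ T := (Submodule.Quotient.mk_eq_zero T).1 (b.map_eq_zero_iff.1 hc)
    obtain ⟨N, hN, e⟩ := isOfFinAddOrder_iff_nsmul_eq_zero.1
      (show ab c ∈ AddCommGroup.torsion (Ab H) by rwa [← Submodule.torsion_int])
    exact ⟨N, hN, ab_eq_zero.1 (by rw [ab_pow, e])⟩
  have cen : ∀ c ∈ P.ker, ∀ k, Commute c k := fun c hc k => by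
    obtain ⟨N, hN, e⟩ := tor c hc
    refine commutatorElement_eq_one_iff_commute.1 (tf _ N hN ?_)
    rw [← comm_pow_left (Cl2.c c k c), commutatorElement_eq_one_iff_commute.2 (comm_central e k)]
  have : IsMulCommutative P.ker := ⟨⟨fun a b => Subtype.ext (cen _ a.2 b)⟩⟩
  have le : commutator H ≤ P.ker := Abelianization.commutator_subset_ker P
  have : IsNoetherian ℤ (Additive P.ker) := isNoetherian_of_range_eq_ker
    (MonoidHom.toAdditive (Subgroup.inclusion le)).toIntLinearMap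
    (MonoidHom.toAdditive (Abelianization.of.comp P.ker.subtype)).toIntLinearMap (by
      ext x
      exact ⟨fun ⟨y, hy⟩ => hy ▸ ab_eq_zero.2 y.toMul.2, fun hx => ⟨.ofMul ⟨_, ab_eq_zero.1 hx⟩, rfl⟩⟩)
  have : IsAddTorsionFree (Additive P.ker) := ⟨fun n hn a b e => sub_eq_zero.1
    (Subtype.ext (tf _ n (Nat.pos_of_ne_zero hn) (congrArg Subtype.val
      (show n • (a - b) = 0 by rw [smul_sub]; exact sub_eq_zero.2 e))))⟩
  let b' := (Module.finBasis ℤ (Additive P.ker)).equivFun.symm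
  exact ⟨_, _, ⟨⟨P, P.ker.subtype.comp (AddMonoidHom.toMultiplicativeLeft b'.toAddMonoidHom),
    fun x => by
      obtain ⟨y, hy⟩ := T.mkQ_surjective (b.symm x.toAdd)
      obtain ⟨y, rfl⟩ := ab_surj y
      exact ⟨y, congrArg Multiplicative.ofAdd (b.eq_symm_apply.1 hy)⟩,
    Subtype.val_injective.comp b'.injective,
    fun k => ⟨fun hk => ⟨.ofAdd (b'.symm (.ofMul ⟨k, hk⟩)),
      congrArg (fun x : Additive P.ker => (x.toMul : H)) (b'.apply_symm_apply _)⟩,
      fun ⟨c, hc⟩ => hc ▸ (b' c.toAdd).toMul.2⟩,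
    fun c => cen _ (b' c.toAdd).toMul.2, fun c => tor _ (b' c.toAdd).toMul.2⟩⟩⟩

end Pool.Agent.Lib.MP_a8bb0e_al
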