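import Mathlib

set_option autoImplicit false
open scoped commutatorElement

namespace Pool.Agent.Lib.MP_a8bb0e_al

universe u

lemma finite_of_torsion (G : Type u) [Group G] [Group.IsNilpotent G] :
    Group.FG G → IsMulTorsion G → Finite G := by
  refine Group.nilpotent_center_quotient_ind
    (P := fun G _ _ => Group.FG G → IsMulTorsion G → Finite G) G
    (fun G _ _ _ _ => inferInstance) fun G _ _ ih hfg ht => ?_
  have h1 : Finite (G ⧸ Subgroup.center G) :=
    ih inferInstance fun g => by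
      obtain ⟨g, rfl⟩ := QuotientGroup.mk_surjective g
      exact (QuotientGroup.mk' _).isOfFinOrder (ht g)
  have : (Subgroup.center G).FiniteIndex := Subgroup.finiteIndex_of_finite_quotient
  let : CommGroup (Subgroup.center G) :=
    { (inferInstance : Group (Subgroup.center G)) with
      mul_comm := fun a b => Subtype.ext (Subgroup.mem_center_iff.1 b.2 a) }
  have : Finite (Subgroup.center G) :=
    CommGroup.finite_of_fg_isMulTorsion _ (ht.subgroup _)
  exact Finite.of_subgroup_quotient (Subgroup.center G)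

lemma comm_pow_left {G : Type u} [Group G] {x y : G} (h : Commute ⁅x, y⁆ x) (n : ℕ) :
    ⁅x ^ n, y⁆ = ⁅x, y⁆ ^ n := by
  induction n with
  | zero => simp
  | succ n ih =>
    have e : ⁅x ^ (n + 1), y⁆ = x * ⁅x ^ n, y⁆ * x⁻¹ * ⁅x, y⁆ := by
      simp only [commutatorElement_def, pow_succ']; group
    rw [e, ih, ← (h.pow_left n).eq, pow_succ]; group

lemma torsion_of_center (G : Type u) [Group G] [Group.IsNilpotent G] :
    Group.FG G → (∀ z ∈ Subgroup.center G, IsOfFinOrder z) → IsMulTorsion G := by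
  refine Group.nilpotent_center_quotient_ind
    (P := fun G _ _ => Group.FG G → (∀ z ∈ Subgroup.center G, IsOfFinOrder z) → IsMulTorsion G) G
    (fun G _ _ _ _ g => by rw [Subsingleton.elim g 1]; exact IsOfFinOrder.one)
    fun G _ _ ih hfg ht => ?_
  have h1 := ih inferInstance fun z hz => by
    obtain ⟨x, rfl⟩ := QuotientGroup.mk_surjective z
    have hc : ∀ y, ⁅x, y⁆ ∈ Subgroup.center G := fun y => by
      rw [← QuotientGroup.eq_one_iff]
      change QuotientGroup.mk' _ ⁅x, y⁆ = 1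
      rw [map_commutatorElement, commutatorElement_eq_one_iff_mul_comm]
      exact (Subgroup.mem_center_iff.1 hz _).symm
    obtain ⟨S, hS⟩ := hfg.1
    have hm : 0 < ∏ y ∈ S, orderOf ⁅x, y⁆ := Finset.prod_pos fun y _ => (ht _ (hc y)).orderOf_pos
    refine isOfFinOrder_iff_pow_eq_one.2 ⟨_, hm, ?_⟩
    rw [← QuotientGroup.mk_pow, QuotientGroup.eq_one_iff, Subgroup.mem_center_iff]
    intro g
    have hg : g ∈ Subgroup.closure (S : Set G) := by rw [hS]; trivial
    have : Subgroup.closure (S : Set G) ≤ Subgroup.centralizer {x ^ ∏ y ∈ S, orderOf ⁅x, y⁆} := by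
      rw [Subgroup.closure_le]
      intro y hy
      rw [SetLike.mem_coe, Subgroup.mem_centralizer_singleton_iff, eq_comm,
        ← commutatorElement_eq_one_iff_mul_comm,
        comm_pow_left (Subgroup.mem_center_iff.1 (hc y) x).symm]
      exact orderOf_dvd_iff_pow_eq_one.1 (Finset.dvd_prod_of_mem _ hy)
    exact Subgroup.mem_centralizer_singleton_iff.1 (this hg)
  intro g
  obtain ⟨n, hn, e⟩ := isOfFinOrder_iff_pow_eq_one.1 (h1 (g : G ⧸ Subgroup.center G))
  rw [← QuotientGroup.mk_pow, QuotientGroup.eq_one_iff] at e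
  exact (ht _ e).of_pow hn.ne'

/-- the subgroup generated by `m`-th powers -/
def Vm (G : Type u) [Group G] (m : ℕ) : Subgroup G :=
  Subgroup.normalClosure (Set.range fun g : G => g ^ m)

instance (G : Type u) [Group G] (m : ℕ) : (Vm G m).Normal := Subgroup.normalClosure_normal

lemma pow_mem_Vm {G : Type u} [Group G] (m : ℕ) (g : G) : g ^ m ∈ Vm G m :=
  Subgroup.subset_normalClosure ⟨g, rfl⟩

lemma Vm_le {G : Type u} [Group G] {m : ℕ} {N : Subgroup G} [N.Normal] (h : ∀ g, g ^ m ∈ N) :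
    Vm G m ≤ N :=
  Subgroup.normalClosure_le_normal (by rintro _ ⟨g, rfl⟩; exact h g)

lemma Vm_le_ker {G : Type u} {Q : Type*} [Group G] [Group Q] {m : ℕ} (f : G →* Q)
    (h : ∀ q : Q, q ^ m = 1) : Vm G m ≤ f.ker :=
  Vm_le fun g => by rw [MonoidHom.mem_ker, map_pow, h]

lemma quot_pow {G : Type u} [Group G] (m : ℕ) (q : G ⧸ Vm G m) : q ^ m = 1 := by
  obtain ⟨g, rfl⟩ := QuotientGroup.mk_surjective q
  rw [← QuotientGroup.mk_pow, QuotientGroup.eq_one_iff]
  exact pow_mem_Vm m g

lemma finite_quot (G : Type u) [Group G] [Group.IsNilpotent G] [Group.FG G] {m : ℕ} (hm : 0 < m) :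
    Finite (G ⧸ Vm G m) :=
  finite_of_torsion _ inferInstance fun q => isOfFinOrder_iff_pow_eq_one.2 ⟨m, hm, quot_pow m q⟩

/-- finitely generated nilpotent groups are residually finite -/
theorem eq_one_of_Vm {G : Type u} [Group G] [Group.IsNilpotent G] [Group.FG G] {x : G}
    (hx : ∀ m, 0 < m → x ∈ Vm G m) : x = 1 := by
  by_contra h1
  obtain ⟨N, -, hN⟩ := zorn_le_nonempty₀ {N : Subgroup G | N.Normal ∧ x ∉ N} (by
    intro c hc hch y hy
    have ne : c.Nonempty := ⟨y, hy⟩
    refine ⟨sSup c, ⟨⟨fun a ha g => ?_⟩, fun h => ?_⟩, fun z hz => le_sSup hz⟩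
    · obtain ⟨K, hK, h⟩ := (Subgroup.mem_sSup_of_directedOn ne hch.directedOn).1 ha
      exact le_sSup hK ((hc hK).1.conj_mem a h g)
    · obtain ⟨K, hK, h⟩ := (Subgroup.mem_sSup_of_directedOn ne hch.directedOn).1 h
      exact (hc hK).2 h) ⊥ ⟨inferInstance, by simpa using h1⟩
  have := hN.1.1
  have mono : ∀ z ∈ Subgroup.center (G ⧸ N), z ≠ 1 → ∃ k : ℤ, z ^ k = (x : G ⧸ N) := by
    intro z hz z1
    have nz : (Subgroup.zpowers z).Normal := ⟨by
      rintro _ ⟨k, rfl⟩ g
      refine ⟨k, ?_⟩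
      simp only [Subgroup.mem_center_iff.1 (Subgroup.zpow_mem _ hz k) g, mul_inv_cancel_right]⟩
    by_contra hc
    have le : N ≤ (Subgroup.zpowers z).comap (QuotientGroup.mk' N) := fun a ha => by
      rw [Subgroup.mem_comap, QuotientGroup.mk'_apply, (QuotientGroup.eq_one_iff a).2 ha]
      exact one_mem _
    have := hN.2 (y := (Subgroup.zpowers z).comap (QuotientGroup.mk' N))
      ⟨inferInstance, hc⟩ le
    obtain ⟨g, rfl⟩ := QuotientGroup.mk_surjective z
    exact z1 ((QuotientGroup.eq_one_iff g).2 (this (Subgroup.mem_zpowers _)))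
  have x1 : (x : G ⧸ N) ≠ 1 := fun h => hN.1.2 ((QuotientGroup.eq_one_iff x).1 h)
  have fin : Finite (G ⧸ N) := finite_of_torsion _ inferInstance
    (torsion_of_center _ inferInstance fun z hz => by
      by_contra hc
      have inj := injective_zpow_iff_not_isOfFinOrder.2 hc
      obtain ⟨k, hk⟩ := mono z hz (by rintro rfl; exact hc IsOfFinOrder.one)
      have k0 : k ≠ 0 := by rintro rfl; exact x1 (by rw [← hk, zpow_zero])
      obtain ⟨j, hj⟩ := mono (z ^ (2 * k)) (Subgroup.zpow_mem _ hz _) (fun h => k0 (by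
        have : 2 * k = 0 := inj (by simpa using h)
        omega))
      rw [← hk, ← zpow_mul] at hj
      have h2 : 2 * k * j = k := inj hj
      have h3 : k * (2 * j - 1) = 0 := by linarith
      rcases mul_eq_zero.1 h3 with h | h
      · exact k0 h
      · omega)
  refine hN.1.2 (Vm_le (fun g => ?_) (hx (Nat.card (G ⧸ N)) Nat.card_pos))
  rw [← QuotientGroup.eq_one_iff, QuotientGroup.mk_pow, pow_card_eq_one']

/-- the two groups have the same finite images -/
def SameFin (G H : Type) [Group G] [Group H] : Prop :=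
  ∀ (Q : Type) [Group Q] [Finite Q],
    (∃ f : H →* Q, Function.Surjective f) ↔ (∃ f : G →* Q, Function.Surjective f)

lemma lift_surj {G Q : Type} [Group G] [Group Q] {m : ℕ} (f : G →* Q) (hf : Function.Surjective f)
    (h : ∀ q : Q, q ^ m = 1) :
    Function.Surjective (QuotientGroup.lift (Vm G m) f (Vm_le_ker f h)) := fun q => by
  obtain ⟨g, rfl⟩ := hf q
  exact ⟨g, rfl⟩

section
variable {G H : Type} [Group G] [Group H] [Group.IsNilpotent G] [Group.FG G] [Group.IsNilpotent H]
  [Group.FG H]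

lemma SameFin.card (h : SameFin G H) {m : ℕ} (hm : 0 < m) :
    Nat.card (G ⧸ Vm G m) = Nat.card (H ⧸ Vm H m) := by
  have := finite_quot G hm
  have := finite_quot H hm
  obtain ⟨f, hf⟩ := (h (G ⧸ Vm G m)).2 ⟨_, QuotientGroup.mk'_surjective _⟩
  obtain ⟨g, hg⟩ := (h (H ⧸ Vm H m)).1 ⟨_, QuotientGroup.mk'_surjective _⟩
  exact le_antisymm (Nat.card_le_card_of_surjective _ (lift_surj f hf (quot_pow m)))
    (Nat.card_le_card_of_surjective _ (lift_surj g hg (quot_pow m)))

lemma ker_of_card {Q : Type} [Group Q] {m : ℕ} (hm : 0 < m) (f : H →* Q)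
    (hf : Function.Surjective f) (hq : ∀ q : Q, q ^ m = 1)
    (hc : Nat.card (H ⧸ Vm H m) = Nat.card Q) {x : H} (hx : f x = 1) : x ∈ Vm H m := by
  have := finite_quot H hm
  have bij := (Nat.bijective_iff_surjective_and_card _).2 ⟨lift_surj f hf hq, hc⟩
  rw [← QuotientGroup.eq_one_iff]
  exact bij.1 (by rw [map_one]; exact hx)

lemma SameFin.exists_hom (h : SameFin G H) {m : ℕ} (hm : 0 < m) :
    ∃ f : H →* G ⧸ Vm G m, Function.Surjective f ∧ ∀ x, f x = 1 → x ∈ Vm H m := by
  have := finite_quot G hm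
  obtain ⟨f, hf⟩ := (h (G ⧸ Vm G m)).2 ⟨_, QuotientGroup.mk'_surjective _⟩
  exact ⟨f, hf, fun x hx => ker_of_card hm f hf (quot_pow m) (h.card hm).symm hx⟩

lemma SameFin.inj (h : SameFin G H) (F : G →* H) (hF : Function.Surjective F) :
    Function.Injective F := by
  refine (injective_iff_map_eq_one F).2 fun x hx => eq_one_of_Vm fun m hm => ?_
  exact ker_of_card hm ((QuotientGroup.mk' (Vm H m)).comp F)
    ((QuotientGroup.mk'_surjective _).comp hF) (quot_pow m) (h.card hm) (by simp [hx])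

end

/-- nilpotency class at most two -/
class Cl2 (H : Type) [Group H] : Prop where
  c : ∀ a b c : H, Commute ⁅a, b⁆ c

section
variable {H : Type} [Group H] [Cl2 H]

lemma comm_central {c : H} (hc : c ∈ commutator H) (g : H) : Commute c g := by
  have : commutator H ≤ Subgroup.center H :=
    Subgroup.commutator_le.2 fun a _ b _ => Subgroup.mem_center_iff.2 fun g => (Cl2.c a b g).symm
  exact (Subgroup.mem_center_iff.1 (this hc) g).symm

instance : CommGroup (commutator H) :=
  { (inferInstance : Group (commutator H)) with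
    mul_comm := fun a b => Subtype.ext (comm_central a.2 b) }

instance : Group.IsNilpotent H :=
  Subgroup.nilpotent_iff_lowerCentralSeries.2 ⟨2, by
    rw [Subgroup.lowerCentralSeries_succ, Subgroup.top_lowerCentralSeries_one, eq_bot_iff,
      Subgroup.commutator_le]
    intro a ha b _
    exact Subgroup.mem_bot.2 (commutatorElement_eq_one_iff_commute.2 (comm_central ha b))⟩

/-- the commutator as an element of the derived subgroup -/
def cm (a b : H) : commutator H :=
  ⟨⁅a, b⁆, Subgroup.commutator_mem_commutator trivial trivial⟩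

lemma cm_mul_left (a a' b : H) : cm (a * a') b = cm a b * cm a' b := Subtype.ext (by
  have e : ⁅a * a', b⁆ = a * ⁅a', b⁆ * a⁻¹ * ⁅a, b⁆ := by
    simp only [commutatorElement_def]; group
  change ⁅a * a', b⁆ = ⁅a, b⁆ * ⁅a', b⁆
  rw [e, ← (Cl2.c a' b a).eq, mul_inv_cancel_right, (Cl2.c a' b _).eq])

lemma cm_swap (a b : H) : cm a b = (cm b a)⁻¹ :=
  Subtype.ext (commutatorElement_inv b a).symm

lemma cm_mul_right (a b b' : H) : cm a (b * b') = cm a b * cm a b' := by
  rw [cm_swap, cm_mul_left, mul_inv, ← cm_swap, ← cm_swap]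

/-- abelianisation, written additively -/
abbrev Ab (H : Type) [Group H] := Additive (Abelianization H)

/-- derived subgroup, written additively -/
abbrev Der (H : Type) [Group H] := Additive (commutator H)

/-- image in the abelianisation -/
def ab {H : Type} [Group H] (h : H) : Ab H := Additive.ofMul (Abelianization.of h)

/-- the commutator pairing on the abelianisation -/
def om0 : Abelianization H →* Abelianization H →* commutator H :=
  Abelianization.lift (MonoidHom.mk'
    (fun a => Abelianization.lift (MonoidHom.mk' (cm a) (cm_mul_right a))) fun a a' => by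
      ext b
      simp [cm_mul_left])

/-- the commutator pairing as a bilinear map -/
def om : Ab H →ₗ[ℤ] Ab H →ₗ[ℤ] Der H :=
  (AddMonoidHom.mk' (fun a : Ab H => (MonoidHom.toAdditive (om0 a.toMul)).toIntLinearMap)
    fun a a' => by
      ext b
      simp).toIntLinearMap

lemma om_ab (a b : H) : om (ab a) (ab b) = Additive.ofMul (cm a b) := rfl

omit [Cl2 H] in
lemma ab_surj (a : Ab H) : ∃ h : H, ab h = a := QuotientGroup.mk_surjective a.toMul

omit [Cl2 H] in
lemma ab_mul (a b : H) : ab (a * b) = ab a + ab b := rfl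

omit [Cl2 H] in
lemma ab_pow (a : H) (n : ℕ) : ab (a ^ n) = n • ab a := by simp [ab]

omit [Cl2 H] in
lemma ab_inv (a : H) : ab a⁻¹ = -ab a := rfl

omit [Cl2 H] in
lemma ab_eq_zero {a : H} : ab a = 0 ↔ a ∈ commutator H := by
  rw [← Abelianization.ker_of]; rfl

lemma om_swap (a b : Ab H) : om a b = -om b a := by
  obtain ⟨a, rfl⟩ := ab_surj a
  obtain ⟨b, rfl⟩ := ab_surj b
  rw [om_ab, om_ab, cm_swap]; rfl

lemma om_self (a : Ab H) : om a a = 0 := by
  obtain ⟨a, rfl⟩ := ab_surj a
  rw [om_ab]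
  exact Subtype.ext (commutatorElement_self a)

lemma der_le (S : AddSubgroup (Der H)) (h : ∀ a b, om a b ∈ S) (c : Der H) : c ∈ S := by
  have : commutator H ≤ (S.toSubgroup'.map (commutator H).subtype) :=
    Subgroup.commutator_le.2 fun a _ b _ => ⟨cm a b, h (ab a) (ab b), rfl⟩
  obtain ⟨d, hd, e⟩ := this c.toMul.2
  have : d = c.toMul := Subtype.ext e
  rw [this] at hd
  exact hd

lemma mul_pow_cl2 (h k : H) (n : ℕ) : (h * k) ^ n = h ^ n * k ^ n * ⁅k, h⁆ ^ n.choose 2 := by
  induction n with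
  | zero => simp
  | succ n ih =>
    have e : k ^ n * h = ⁅k, h⁆ ^ n * (h * k ^ n) := by
      rw [← comm_pow_left (Cl2.c k h k)]; simp only [commutatorElement_def]; group
    have c := fun (j : ℕ) (g : H) => ((Cl2.c k h g).pow_left j).eq
    have e2 : (n + 1).choose 2 = n + n.choose 2 := by
      rw [Nat.choose_succ_succ' n 1, Nat.choose_one_right]
    calc (h * k) ^ (n + 1) = h ^ n * (k ^ n * (⁅k, h⁆ ^ n.choose 2 * (h * k))) := by
          rw [pow_succ, ih]; simp only [mul_assoc]
      _ = h ^ n * (k ^ n * h * (k * ⁅k, h⁆ ^ n.choose 2)) := by rw [c]; simp only [mul_assoc]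
      _ = h ^ n * (h * k ^ n * ⁅k, h⁆ ^ n * (k * ⁅k, h⁆ ^ n.choose 2)) := by rw [e, c n]
      _ = h ^ n * (h * k ^ n * (k * ⁅k, h⁆ ^ n * ⁅k, h⁆ ^ n.choose 2)) := by
          rw [← c n k]; simp only [mul_assoc]
      _ = _ := by rw [e2, pow_add ⁅k, h⁆, pow_succ h, pow_succ k]; simp only [mul_assoc]

lemma Vm_inter (tf : ∀ (a : Ab H) (n : ℕ), 0 < n → n • a = 0 → a = 0) {m : ℕ} (hm : 0 < m)
    (c : Der H) (hc : (c.toMul : H) ∈ Vm H (2 * m)) : ∃ d : Der H, c = m • d := by
  let W : Subgroup H :=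
    { carrier := {y | ∃ h : H, ∃ d ∈ commutator H, y = h ^ (2 * m) * d ^ m}
      one_mem' := ⟨1, 1, one_mem _, by simp⟩
      mul_mem' := by
        rintro _ _ ⟨h, d, hd, rfl⟩ ⟨k, e, he, rfl⟩
        have hx : ⁅k, h⁆ ∈ commutator H := (cm k h).2
        refine ⟨h * k, (⁅k, h⁆ ^ (2 * m - 1))⁻¹ * (d * e),
          mul_mem (inv_mem (pow_mem hx _)) (mul_mem hd he), ?_⟩
        have e1 : (2 * m).choose 2 = (2 * m - 1) * m := by
          rw [Nat.choose_two_right, mul_assoc, Nat.mul_div_cancel_left _ two_pos, mul_comm]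
        rw [mul_pow_cl2, e1, pow_mul ⁅k, h⁆, (comm_central (inv_mem (pow_mem hx _)) _).mul_pow,
          inv_pow, (comm_central hd e).mul_pow]
        simp only [mul_assoc, mul_inv_cancel_left]
        rw [← mul_assoc (d ^ m), (comm_central (pow_mem hd m) _).eq, mul_assoc]
      inv_mem' := by
        rintro _ ⟨h, d, hd, rfl⟩
        exact ⟨h⁻¹, d⁻¹, inv_mem hd, by
          rw [← (comm_central (pow_mem hd m) _).eq, mul_inv_rev, inv_pow, inv_pow]⟩ }
  have : W.Normal := ⟨by
    rintro _ ⟨h, d, hd, rfl⟩ g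
    exact ⟨g * h * g⁻¹, d, hd, by
      rw [conj_pow, mul_assoc, mul_assoc, (comm_central (pow_mem hd m) _).eq]
      simp only [mul_assoc]⟩⟩
  obtain ⟨h, d, hd, e⟩ := Vm_le (N := W) (fun g => ⟨g, 1, one_mem _, by simp⟩) hc
  have h0 : h ∈ commutator H := by
    refine ab_eq_zero.1 (tf _ (2 * m) (by omega) ?_)
    have := congrArg ab e
    rw [ab_eq_zero.2 c.toMul.2, ab_mul, ab_eq_zero.2 (pow_mem hd m), add_zero, ab_pow] at this
    exact this.symm
  refine ⟨Additive.ofMul ⟨h ^ 2 * d, mul_mem (pow_mem h0 2) hd⟩, Subtype.ext ?_⟩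
  change (c.toMul : H) = (h ^ 2 * d) ^ m
  rw [e, (comm_central hd _).symm.mul_pow, pow_mul]

end

end Pool.Agent.Lib.MP_a8bb0e_al
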