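import Pool.Agent.Lib.MP_a8bb0e_al.Lattice
import Pool.Agent.Lib.MP_a8bb0e_al.Nil

set_option autoImplicit false
open scoped commutatorElement
open Matrix Filter Topology

namespace Pool.Agent.Lib.MP_a8bb0e_al

/-- the Heisenberg group over `R` -/
structure Heis (R : Type) where
  a : R
  b : R
  c : R

namespace Heis

variable {R : Type} [CommRing R]

lemma ext' {x y : Heis R} (h1 : x.a = y.a) (h2 : x.b = y.b) (h3 : x.c = y.c) : x = y := by
  cases x; cases y; simp_all

instance : Mul (Heis R) := ⟨fun x y => ⟨x.a + y.a, x.b + y.b, x.c + y.c + x.a * y.b⟩⟩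
instance : One (Heis R) := ⟨⟨0, 0, 0⟩⟩
instance : Inv (Heis R) := ⟨fun x => ⟨-x.a, -x.b, -x.c + x.a * x.b⟩⟩

lemma mul_a (x y : Heis R) : (x * y).a = x.a + y.a := rfl
lemma mul_b (x y : Heis R) : (x * y).b = x.b + y.b := rfl
lemma mul_c (x y : Heis R) : (x * y).c = x.c + y.c + x.a * y.b := rfl
lemma inv_a (x : Heis R) : x⁻¹.a = -x.a := rfl
lemma inv_b (x : Heis R) : x⁻¹.b = -x.b := rfl
lemma inv_c (x : Heis R) : x⁻¹.c = -x.c + x.a * x.b := rfl
lemma one_a : (1 : Heis R).a = 0 := rfl
lemma one_b : (1 : Heis R).b = 0 := rfl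
lemma one_c : (1 : Heis R).c = 0 := rfl

instance : Group (Heis R) := Group.ofLeftAxioms
  (fun x y z => ext' (by simp only [mul_a]; ring) (by simp only [mul_b]; ring)
    (by simp only [mul_a, mul_b, mul_c]; ring))
  (fun x => ext' (by simp [mul_a, one_a]) (by simp [mul_b, one_b]) (by simp [mul_c, one_c, one_a]))
  (fun x => ext' (by simp [mul_a, one_a, inv_a]) (by simp [mul_b, one_b, inv_b])
    (by simp [mul_c, one_c, inv_c, inv_a]))

lemma comm_eq (x y : Heis R) : ⁅x, y⁆ = ⟨0, 0, x.a * y.b - y.a * x.b⟩ :=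
  ext' (by simp only [commutatorElement_def, mul_a, inv_a]; ring)
    (by simp only [commutatorElement_def, mul_b, inv_b]; ring)
    (by simp only [commutatorElement_def, mul_a, mul_b, mul_c, inv_a, inv_b, inv_c]; ring)

lemma pow_eq (x : Heis R) (n : ℕ) :
    x ^ n = ⟨n * x.a, n * x.b, n * x.c + n.choose 2 * (x.a * x.b)⟩ := by
  induction n with
  | zero => exact ext' (by simp [one_a]) (by simp [one_b]) (by simp [one_c])
  | succ n ih =>
    have e2 : (n + 1).choose 2 = n + n.choose 2 := by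
      rw [Nat.choose_succ_succ' n 1, Nat.choose_one_right]
    rw [pow_succ, ih, e2]
    exact ext' (by simp only [mul_a]; push_cast; ring) (by simp only [mul_b]; push_cast; ring)
      (by simp only [mul_c]; push_cast; ring)

lemma exponent (m : ℕ) (x : Heis (ZMod m)) : x ^ (2 * m) = 1 := by
  have e1 : (2 * m).choose 2 = m * (2 * m - 1) := by
    rw [Nat.choose_two_right, mul_assoc, Nat.mul_div_cancel_left _ two_pos]
  rw [pow_eq, e1]
  exact ext' (by simp [one_a]) (by simp [one_b]) (by simp [one_c])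

/-- first coordinate -/
def fstHom : Heis R →* Multiplicative R :=
  MonoidHom.mk' (fun x => Multiplicative.ofAdd x.a) fun _ _ => rfl

/-- second coordinate -/
def sndHom : Heis R →* Multiplicative R :=
  MonoidHom.mk' (fun x => Multiplicative.ofAdd x.b) fun _ _ => rfl

/-- third coordinate on the derived subgroup -/
def third {H : Type} [Group H] [Cl2 H] (φ : H →* Heis R) : Der H →+ R :=
  AddMonoidHom.mk' (fun c => (φ (c.toMul : H)).c) fun c d => by
    have : (φ (c.toMul : H)).a = 0 :=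
      Abelianization.commutator_subset_ker (fstHom.comp φ) c.toMul.2
    change (φ ((c.toMul : H) * (d.toMul : H))).c = _
    rw [map_mul, mul_c, this, zero_mul, add_zero]

lemma third_om {H : Type} [Group H] [Cl2 H] (φ : H →* Heis R) (x y : H) :
    third φ (om (ab x) (ab y)) = (φ x).a * (φ y).b - (φ y).a * (φ x).b := by
  change (φ ⁅x, y⁆).c = _
  rw [map_commutatorElement, comm_eq]

end Heis

variable {V : Type} [Fintype V] [DecidableEq V] (Γ : SimpleGraph V)

/-- relators of the class two quotient of the right-angled Artin group -/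
def rels : Set (FreeGroup V) :=
  {r | (∃ a b, Γ.Adj a b ∧ r = ⁅FreeGroup.of a, FreeGroup.of b⁆) ∨
    ∃ u v w : FreeGroup V, r = ⁅⁅u, v⁆, w⁆}

/-- the class two quotient of the right-angled Artin group -/
abbrev GG := PresentedGroup (rels Γ)

instance : Cl2 (GG Γ) := ⟨fun a b c => by
  obtain ⟨a, rfl⟩ := PresentedGroup.mk_surjective _ a
  obtain ⟨b, rfl⟩ := PresentedGroup.mk_surjective _ b
  obtain ⟨c, rfl⟩ := PresentedGroup.mk_surjective _ c
  rw [← commutatorElement_eq_one_iff_commute, ← map_commutatorElement, ← map_commutatorElement]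
  exact PresentedGroup.one_of_mem (Or.inr ⟨a, b, c, rfl⟩)⟩

instance : Group.FG (GG Γ) :=
  Group.fg_of_surjective (PresentedGroup.mk_surjective (rels Γ))

variable {Γ}

lemma gen_comm {a b : V} (h : Γ.Adj a b) :
    ⁅(PresentedGroup.of a : GG Γ), (PresentedGroup.of b : GG Γ)⁆ = 1 := by
  have := PresentedGroup.one_of_mem (rels := rels Γ) (Or.inl ⟨a, b, h, rfl⟩)
  rwa [map_commutatorElement] at this

/-- the universal property -/
def liftG {H : Type} [Group H] (hc : ∀ a b c : H, ⁅⁅a, b⁆, c⁆ = 1) (y : V → H)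
    (hy : ∀ a b, Γ.Adj a b → ⁅y a, y b⁆ = 1) : GG Γ →* H :=
  PresentedGroup.toGroup (f := y) (by
    rintro r (⟨a, b, h, rfl⟩ | ⟨u, v, w, rfl⟩)
    · rw [map_commutatorElement, FreeGroup.lift_apply_of, FreeGroup.lift_apply_of, hy a b h]
    · rw [map_commutatorElement, map_commutatorElement, hc])

lemma liftG_of {H : Type} [Group H] (hc : ∀ a b c : H, ⁅⁅a, b⁆, c⁆ = 1) (y : V → H)
    (hy : ∀ a b, Γ.Adj a b → ⁅y a, y b⁆ = 1) (v : V) :
    liftG hc y hy (PresentedGroup.of v) = y v := PresentedGroup.toGroup.of _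

variable (Γ)

/-- exponent sums -/
def pi0 : GG Γ →* Multiplicative (V → ℤ) :=
  liftG (fun _ _ _ => commutatorElement_eq_one_iff_mul_comm.2 (mul_comm _ _))
    (fun v => Multiplicative.ofAdd (Pi.single v 1))
    (fun _ _ _ => commutatorElement_eq_one_iff_mul_comm.2 (mul_comm _ _))

/-- exponent sum vector -/
def piv (g : GG Γ) : V → ℤ := (pi0 Γ g).toAdd

variable {Γ}

lemma piv_of (v : V) : piv Γ (PresentedGroup.of v) = Pi.single v 1 := by
  simp [piv, pi0, liftG_of]

lemma ab_eq_piv (g : GG Γ) : ab g = ∑ v, piv Γ g v • ab (PresentedGroup.of v : GG Γ) := by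
  let s : (V → ℤ) →+ Ab (GG Γ) :=
    (Fintype.linearCombination ℤ fun v => ab (PresentedGroup.of v : GG Γ)).toAddMonoidHom
  have : (AddMonoidHom.toMultiplicativeLeft s).comp (pi0 Γ) = Abelianization.of := by
    refine PresentedGroup.ext fun v => ?_
    change Additive.toMul (s (piv Γ (PresentedGroup.of v))) = _
    rw [piv_of]
    simp [s, ab]
  have h := DFunLike.congr_fun this g
  change Additive.toMul (s (piv Γ g)) = _ at h
  rw [ab, ← h]
  simp [s, Fintype.linearCombination_apply]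

/-- a Heisenberg quotient attached to a non-edge -/
def rho (m : ℕ) {a b : V} (h : ¬ Γ.Adj a b) : GG Γ →* Heis (ZMod m) :=
  liftG (fun x y z => by rw [Heis.comm_eq x y, Heis.comm_eq]; exact Heis.ext' rfl rfl (by simp [Heis.one_c]))
    (fun v => ⟨if v = a then 1 else 0, if v = b then 1 else 0, 0⟩) (fun u v huv => by
      rw [Heis.comm_eq]
      refine Heis.ext' rfl rfl ?_
      have k : ∀ u v, Γ.Adj u v →
          (if u = a then (1 : ZMod m) else 0) * (if v = b then 1 else 0) = 0 := by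
        intro u v huv
        split_ifs with h1 h2
        · exact absurd (h1 ▸ h2 ▸ huv) h
        all_goals simp
      simp only [k u v huv, k v u huv.symm, sub_zero, Heis.one_c])

lemma rho_a (m : ℕ) {a b : V} (h : ¬ Γ.Adj a b) (g : GG Γ) : (rho m h g).a = (piv Γ g a : ZMod m) := by
  have : Heis.fstHom.comp (rho m h) = (AddMonoidHom.toMultiplicative
      ((Int.castAddHom (ZMod m)).comp (Pi.evalAddMonoidHom (fun _ => ℤ) a))).comp (pi0 Γ) := by
    refine PresentedGroup.ext fun v => ?_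
    change Multiplicative.ofAdd (rho m h (PresentedGroup.of v)).a =
      Multiplicative.ofAdd ((piv Γ (PresentedGroup.of v) a : ℤ) : ZMod m)
    rw [piv_of, rho, liftG_of]
    simp [Pi.single_apply, eq_comm]
  exact DFunLike.congr_fun this g

lemma rho_b (m : ℕ) {a b : V} (h : ¬ Γ.Adj a b) (g : GG Γ) : (rho m h g).b = (piv Γ g b : ZMod m) := by
  have : Heis.sndHom.comp (rho m h) = (AddMonoidHom.toMultiplicative
      ((Int.castAddHom (ZMod m)).comp (Pi.evalAddMonoidHom (fun _ => ℤ) b))).comp (pi0 Γ) := by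
    refine PresentedGroup.ext fun v => ?_
    change Multiplicative.ofAdd (rho m h (PresentedGroup.of v)).b =
      Multiplicative.ofAdd ((piv Γ (PresentedGroup.of v) b : ℤ) : ZMod m)
    rw [piv_of, rho, liftG_of]
    simp [Pi.single_apply, eq_comm]
  exact DFunLike.congr_fun this g

section
variable {H : Type} [Group H] [Group.IsNilpotent H] [Group.FG H]

lemma cl2_of_same (h : SameFin (GG Γ) H) : Cl2 H := ⟨fun a b c => by
  refine commutatorElement_eq_one_iff_commute.1 (eq_one_of_Vm fun m hm => ?_)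
  obtain ⟨f, -, hf⟩ := h.exists_hom hm
  apply hf
  rw [map_commutatorElement, map_commutatorElement]
  obtain ⟨x, hx⟩ := QuotientGroup.mk'_surjective _ (f a)
  obtain ⟨y, hy⟩ := QuotientGroup.mk'_surjective _ (f b)
  obtain ⟨z, hz⟩ := QuotientGroup.mk'_surjective _ (f c)
  rw [← hx, ← hy, ← hz, ← map_commutatorElement, ← map_commutatorElement,
    commutatorElement_eq_one_iff_commute.2 (Cl2.c x y z), map_one]⟩

omit [Group.IsNilpotent H] [Group.FG H] in
lemma ab_Vm {M : ℕ} {x : H} (hx : x ∈ Vm H M) : ∃ s : Ab H, ab x = M • s := by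
  obtain ⟨s, hs⟩ := Vm_le (N := (powMonoidHom (α := Abelianization H) M).range.comap
    Abelianization.of) (fun g => ⟨Abelianization.of g, by simp⟩) hx
  exact ⟨Additive.ofMul s, by rw [ab, ← hs]; rfl⟩

omit [Group.IsNilpotent H] [Group.FG H] in
lemma exists_phi {M : ℕ} (f : H →* GG Γ ⧸ Vm (GG Γ) M) (hf : Function.Surjective f)
    (hk : ∀ x, f x = 1 → x ∈ Vm H M) :
    ∃ φ : Ab H →+ (V → ZMod M),
      (∀ (t : H) (g : GG Γ), (g : GG Γ ⧸ Vm (GG Γ) M) = f t → φ (ab t) = fun v => (piv Γ g v : ZMod M)) ∧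
      ∀ a, φ a = 0 → ∃ s, a = M • s := by
  let c : Multiplicative (V → ℤ) →* Multiplicative (V → ZMod M) :=
    AddMonoidHom.toMultiplicative ((Int.castAddHom (ZMod M)).compLeft V)
  let πM := QuotientGroup.lift (Vm (GG Γ) M) (c.comp (pi0 Γ)) (Vm_le_ker _ fun q => by
    change Multiplicative.ofAdd (M • q.toAdd) = 1
    ext v; simp)
  let φ : Ab H →+ (V → ZMod M) := MonoidHom.toAdditiveLeft (Abelianization.lift (πM.comp f))
  have h1 : ∀ (t : H) (g : GG Γ), (g : GG Γ ⧸ Vm (GG Γ) M) = f t →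
      φ (ab t) = fun v => (piv Γ g v : ZMod M) := fun t g e => by
    change Multiplicative.toAdd (πM (f t)) = _
    rw [← e]; rfl
  refine ⟨φ, h1, fun a ha => ?_⟩
  obtain ⟨t, rfl⟩ := ab_surj a
  obtain ⟨g, hg⟩ := QuotientGroup.mk_surjective (f t)
  rw [h1 t g hg] at ha
  choose y hy using fun v => (ZMod.intCast_zmod_eq_zero_iff_dvd _ _).1 (congrFun ha v)
  obtain ⟨g', hg'⟩ := ab_surj (∑ v, y v • ab (PresentedGroup.of v : GG Γ))
  have e1 : g * (g' ^ M)⁻¹ ∈ commutator (GG Γ) := by
    rw [← ab_eq_zero, ab_mul, ab_inv, ab_pow, hg', ab_eq_piv g, Finset.smul_sum, add_neg_eq_zero]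
    exact Finset.sum_congr rfl fun v _ => by rw [hy, mul_smul, natCast_zsmul]
  have e2 : f t ∈ commutator (GG Γ ⧸ Vm (GG Γ) M) := by
    have := (map_commutator_eq _ (QuotientGroup.mk' (Vm (GG Γ) M))).le ⟨_, e1, rfl⟩
    rw [map_mul, map_inv, map_pow, quot_pow, inv_one, mul_one] at this
    rw [← hg]
    exact Subgroup.commutator_mono le_top le_top this
  rw [commutator_def, ← MonoidHom.range_eq_top.2 hf, ← map_commutator_eq] at e2
  obtain ⟨d, hd, e3⟩ := e2
  obtain ⟨s, hs⟩ := ab_Vm (hk (t * d⁻¹) (by rw [map_mul, map_inv, e3, mul_inv_cancel]))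
  exact ⟨s, by rwa [ab_mul, ab_inv, ab_eq_zero.2 hd, neg_zero, add_zero] at hs⟩

omit [Group.IsNilpotent H] [Group.FG H] in
lemma phi_surj {M : ℕ} (f : H →* GG Γ ⧸ Vm (GG Γ) M) (hf : Function.Surjective f)
    (φ : Ab H →+ (V → ZMod M))
    (h1 : ∀ (t : H) (g : GG Γ), (g : GG Γ ⧸ Vm (GG Γ) M) = f t →
      φ (ab t) = fun v => (piv Γ g v : ZMod M)) : Function.Surjective φ := by
  intro y
  choose h hh using fun v : V => hf (PresentedGroup.of v : GG Γ)
  choose z hz using fun v => ZMod.intCast_surjective (y v)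
  refine ⟨∑ v, z v • ab (h v), ?_⟩
  funext u
  simp only [map_sum, map_zsmul, h1 _ _ (hh _).symm, piv_of, Finset.sum_apply, Pi.smul_apply,
    zsmul_eq_mul, hz]
  simp [Pi.single_apply, hz]

omit [Group.IsNilpotent H] in
lemma ab_rf (a : Ab H) (h : ∀ m : ℕ, 0 < m → ∃ s, a = m • s) : a = 0 := by
  have : Group.FG (Abelianization H) :=
    Group.fg_of_surjective (f := Abelianization.of) (QuotientGroup.mk_surjective)
  exact eq_one_of_Vm (G := Abelianization H) (x := a.toMul) fun m hm => by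
    obtain ⟨s, rfl⟩ := h m hm
    exact pow_mem_Vm m s.toMul

lemma ab_tf (h : SameFin (GG Γ) H) (a : Ab H) (n : ℕ) (hn : 0 < n) (ha : n • a = 0) : a = 0 := by
  refine ab_rf a fun m hm => ?_
  obtain ⟨f, hf, hk⟩ := h.exists_hom (Nat.mul_pos hn hm)
  obtain ⟨φ, h1, h2⟩ := exists_phi f hf hk
  choose z hz using fun v => ZMod.intCast_surjective (φ a v)
  have dv : ∀ v, (m : ℤ) ∣ z v := fun v => by
    have : (((n : ℤ) * z v : ℤ) : ZMod (n * m)) = 0 := by
      have := congrFun (congrArg φ ha) v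
      rw [map_nsmul, map_zero] at this
      simpa [hz] using this
    rw [ZMod.intCast_zmod_eq_zero_iff_dvd, Nat.cast_mul] at this
    exact Int.dvd_of_mul_dvd_mul_left (by exact_mod_cast hn.ne') this
  choose y hy using dv
  obtain ⟨s, hs⟩ := phi_surj f hf φ h1 fun v => (y v : ZMod (n * m))
  obtain ⟨t, ht⟩ := h2 (a - m • s) (by
    funext v
    rw [map_sub, map_nsmul, hs, Pi.sub_apply, ← hz, hy]; simp)
  exact ⟨s + n • t, by rw [smul_add, smul_smul, mul_comm, ← ht]; abel⟩

lemma exists_ab_basis (h : SameFin (GG Γ) H) : Nonempty (Module.Basis V ℤ (Ab H)) := by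
  have : Group.FG (Abelianization H) :=
    Group.fg_of_surjective (f := Abelianization.of) (QuotientGroup.mk_surjective)
  have : Module.Finite ℤ (Ab H) := Module.Finite.iff_addGroup_fg.2 inferInstance
  have : IsAddTorsionFree (Ab H) := ⟨fun n hn a b e => sub_eq_zero.1
    (ab_tf h _ n (Nat.pos_of_ne_zero hn) (by rw [smul_sub]; exact sub_eq_zero.2 e))⟩
  have : Module.Free ℤ (Ab H) := Module.free_of_finite_type_torsion_free'
  let b := Module.finBasis ℤ (Ab H)
  obtain ⟨f, hf, hk⟩ := h.exists_hom two_pos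
  obtain ⟨φ, h1, h2⟩ := exists_phi f hf hk
  let ψ : Ab H →+ (Fin (Module.finrank ℤ (Ab H)) → ZMod 2) :=
    ((Int.castAddHom (ZMod 2)).compLeft _).comp b.equivFun.toAddMonoidHom
  have ψs : Function.Surjective ψ := fun y => by
    choose z hz using fun v => ZMod.intCast_surjective (y v)
    exact ⟨b.equivFun.symm z, by funext i; simp [ψ, hz, -Module.Basis.equivFun_symm_apply]⟩
  have ker : φ.ker = ψ.ker := by
    ext a
    simp only [AddMonoidHom.mem_ker]
    constructor
    · intro ha
      obtain ⟨s, rfl⟩ := h2 a ha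
      rw [map_nsmul]; funext i
      exact (nsmul_eq_mul 2 _).trans (mul_eq_zero_of_left rfl _)
    · intro ha
      choose y hy using fun i =>
        (ZMod.intCast_zmod_eq_zero_iff_dvd (b.equivFun a i) 2).1 (congrFun ha i)
      have : a = 2 • b.equivFun.symm y := by
        apply b.equivFun.injective
        rw [map_nsmul, LinearEquiv.apply_symm_apply]
        funext i
        simpa using hy i
      rw [this, map_nsmul]; funext i
      exact (nsmul_eq_mul 2 _).trans (mul_eq_zero_of_left rfl _)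
  have c1 := Nat.card_congr (QuotientAddGroup.quotientKerEquivOfSurjective φ
    (phi_surj f hf φ h1)).toEquiv
  have c2 := Nat.card_congr (QuotientAddGroup.quotientKerEquivOfSurjective ψ ψs).toEquiv
  rw [ker, c2] at c1
  rw [Nat.card_fun, Nat.card_fun, Nat.card_zmod, Nat.card_eq_fintype_card,
    Nat.card_eq_fintype_card] at c1
  exact ⟨b.reindex (Fintype.equivOfCardEq (Nat.pow_right_injective le_rfl c1))⟩

end

end Pool.Agent.Lib.MP_a8bb0e_al
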