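import Pool.Agent.Lib.MP_a8bb0e_al.Local

/-! The presented group attached to a tuple of integral forms. -/

open scoped commutatorElement IsMulCommutative
open Matrix

namespace Pool.Agent.Lib.MP_a8bb0e_al

/-- the twisted product attached to a bilinear map -/
@[ext] structure Md {A C : Type} [AddCommGroup A] [AddCommGroup C] (B : A →+ A →+ C) where
  x : A
  c : C

namespace Md

variable {A C : Type} [AddCommGroup A] [AddCommGroup C] {B : A →+ A →+ C}

instance : Mul (Md B) := ⟨fun a b => ⟨a.x + b.x, a.c + b.c + B a.x b.x⟩⟩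
instance : One (Md B) := ⟨⟨0, 0⟩⟩
instance : Inv (Md B) := ⟨fun a => ⟨-a.x, -a.c + B a.x a.x⟩⟩

lemma mul_x (a b : Md B) : (a * b).x = a.x + b.x := rfl
lemma mul_c (a b : Md B) : (a * b).c = a.c + b.c + B a.x b.x := rfl
lemma inv_x (a : Md B) : a⁻¹.x = -a.x := rfl
lemma inv_c (a : Md B) : a⁻¹.c = -a.c + B a.x a.x := rfl
lemma one_x : (1 : Md B).x = 0 := rfl
lemma one_c : (1 : Md B).c = 0 := rfl

instance : Group (Md B) := Group.ofLeftAxioms
  (fun a b c => Md.ext (add_assoc _ _ _) (by
    simp only [mul_x, mul_c, map_add, AddMonoidHom.add_apply]; abel))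
  (fun a => Md.ext (zero_add _) (by simp [mul_c, one_c, one_x]))
  (fun a => Md.ext (neg_add_cancel _) (by simp [mul_c, one_c, inv_c, inv_x]))

lemma comm_eq (a b : Md B) : ⁅a, b⁆ = ⟨0, B a.x b.x - B b.x a.x⟩ :=
  Md.ext (by simp only [commutatorElement_def, mul_x, inv_x]; abel) (by
    simp only [commutatorElement_def, mul_x, mul_c, inv_x, inv_c, map_add, map_neg,
      AddMonoidHom.add_apply, AddMonoidHom.neg_apply]; abel)

/-- the central part -/
def j (B : A →+ A →+ C) : Multiplicative C →* Md B :=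
  MonoidHom.mk' (fun c => ⟨0, c.toAdd⟩) fun _ _ => Md.ext (by simp [mul_x]) (by simp [mul_c])

lemma j_cen (c : Multiplicative C) (k : Md B) : Commute (j B c) k :=
  commutatorElement_eq_one_iff_commute.1 (by
    rw [comm_eq]; exact Md.ext rfl (by simp [j, one_c]))

end Md

variable {n m : ℕ} {K : Type} [Group K]

lemma exists_hom_center {σ : Type} [Fintype σ] [DecidableEq σ] (w : σ → K)
    (hw : ∀ a, w a ∈ Subgroup.center K) : ∃ j : Multiplicative (σ → ℤ) →* K,
      (∀ a, j (.ofAdd (Pi.single a 1)) = w a) ∧ ∀ c k, Commute (j c) k := by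
  let l : (σ → ℤ) →ₗ[ℤ] Additive (Subgroup.center K) :=
    Fintype.linearCombination ℤ fun a => .ofMul ⟨w a, hw a⟩
  refine ⟨(Subgroup.center K).subtype.comp (AddMonoidHom.toMultiplicativeLeft l.toAddMonoidHom),
    fun a => ?_, fun c k => (Subgroup.mem_center_iff.1 (l c.toAdd).toMul.2 k).symm⟩
  change ((l (Pi.single a 1)).toMul : K) = _
  simp [l]

lemma zp_eq (j : Multiplicative (Fin m → ℤ) →* K) (c : Fin m → ℤ) :
    (List.ofFn fun a => j (.ofAdd (Pi.single a 1)) ^ c a).prod = j (.ofAdd c) := by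
  have : (List.ofFn fun a => Multiplicative.ofAdd (Pi.single a 1 : Fin m → ℤ) ^ c a).prod = .ofAdd c := by
    rw [List.prod_ofFn]
    conv_rhs => rw [pi_eq_sum_univ' c, ofAdd_sum]
    rfl
  rw [← this, map_list_prod, List.map_ofFn]
  simp only [Function.comp_def, map_zpow]

/-- the relators -/
def relsT (t : Matrix (Pr n) (Fin m) ℤ) : Set (FreeGroup (Fin n ⊕ Fin m)) :=
  {r | (∃ a w, r = ⁅(FreeGroup.of (Sum.inr a) : FreeGroup (Fin n ⊕ Fin m)), w⁆) ∨ ∃ q : Pr n,
    r = ⁅(FreeGroup.of (Sum.inl q.1.1) : FreeGroup (Fin n ⊕ Fin m)), FreeGroup.of (Sum.inl q.1.2)⁆ *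
      (List.ofFn fun a => FreeGroup.of (Sum.inr a) ^ t q a).prod⁻¹}

/-- the presented group -/
abbrev GP (t : Matrix (Pr n) (Fin m) ℤ) := PresentedGroup (relsT t)

variable {t : Matrix (Pr n) (Fin m) ℤ}

instance : Group.FG (GP t) := Group.fg_of_surjective (PresentedGroup.mk_surjective _)

lemma exists_lift (y : Fin n → K) (j : Multiplicative (Fin m → ℤ) →* K) (cen : ∀ c k, Commute (j c) k)
    (hc : ∀ q : Pr n, ⁅y q.1.1, y q.1.2⁆ = j (.ofAdd (t q))) :
    ∃ F : GP t →* K, (∀ i, F (.of (.inl i)) = y i) ∧ ∀ a, F (.of (.inr a)) = j (.ofAdd (Pi.single a 1)) :=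
  ⟨PresentedGroup.toGroup (f := Sum.elim y fun a => j (.ofAdd (Pi.single a 1))) (by
    rintro r (⟨a, u, rfl⟩ | ⟨q, rfl⟩)
    · rw [map_commutatorElement, FreeGroup.lift_apply_of, commutatorElement_eq_one_iff_commute]
      exact cen _ _
    · rw [map_mul, map_inv, map_commutatorElement, map_list_prod, List.map_ofFn, mul_inv_eq_one]
      simp only [Function.comp_def, map_zpow, FreeGroup.lift_apply_of, Sum.elim_inl, Sum.elim_inr]
      rw [zp_eq, hc]), fun _ => PresentedGroup.toGroup.of _, fun _ => PresentedGroup.toGroup.of _⟩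

lemma mem_center_of (f : GP t →* K) (hf : Function.Surjective f) {w : K}
    (h : ∀ u, Commute w (f (.of u))) : w ∈ Subgroup.center K :=
  Subgroup.mem_center_iff.2 fun k => by
    obtain ⟨g, rfl⟩ := hf k
    exact Subgroup.mem_centralizer_singleton_iff.1 (PresentedGroup.generated_by _
      ((Subgroup.centralizer {w}).comap f)
      (fun u => Subgroup.mem_centralizer_singleton_iff.2 (h u).symm) g)

lemma hom_ext {σ : Type} [Finite σ] [DecidableEq σ] {j j' : Multiplicative (σ → ℤ) →* K}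
    (h : ∀ a, j (.ofAdd (Pi.single a 1)) = j' (.ofAdd (Pi.single a 1))) (c : Multiplicative (σ → ℤ)) :
    j c = j' c :=
  pi_ind (j.eqLocus j').toAddSubgroup' h c.toAdd

lemma exists_ext_GP (ht : ∀ c : Fin m → ℚ, t.map (Int.castRingHom ℚ) *ᵥ c = 0 → c = 0) :
    ∃ E : Ext (GP t) (Fin n) (Fin m), E.t = t := by
  suffices ∃ E : Ext (GP t) (Fin n) (Fin m), (∀ i, E.p (.of (.inl i)) = Pi.single i 1) ∧
      ∀ q : Pr n, ⁅(.of (.inl q.1.1) : GP t), (.of (.inl q.1.2) : GP t)⁆ = E.i (t q) by
    obtain ⟨E, h1, h2⟩ := this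
    exact ⟨E, funext fun q => E.i_inj (by rw [← h2, ← E.i_w, h1, h1]; rfl)⟩
  obtain ⟨J, hJ, cen⟩ := exists_hom_center (K := GP t) (fun a => .of (.inr a)) fun a =>
    mem_center_of (MonoidHom.id _) Function.surjective_id fun u =>
      commutatorElement_eq_one_iff_commute.1 ((map_commutatorElement _ _ _).symm.trans
        (PresentedGroup.one_of_mem (Or.inl ⟨a, .of u, rfl⟩)))
  have rel : ∀ q : Pr n, ⁅(.of (.inl q.1.1) : GP t), (.of (.inl q.1.2) : GP t)⁆ = J (.ofAdd (t q)) :=
    fun q => by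
      have := PresentedGroup.mk_eq_mk_of_mul_inv_mem (rels := relsT t) (Or.inr ⟨q, rfl⟩)
      rw [map_commutatorElement, map_list_prod, List.map_ofFn] at this
      rw [← zp_eq]
      simpa only [Function.comp_def, map_zpow, hJ, PresentedGroup.of] using this
  obtain ⟨P, hP, hP'⟩ := exists_lift (t := t) (fun i => Multiplicative.ofAdd (Pi.single i 1 : Fin n → ℤ)) 1
    (fun _ _ => Commute.all _ _) fun _ => commutatorElement_eq_one_iff_commute.2 (Commute.all _ _)
  let B : (Fin n → ℤ) →+ (Fin n → ℤ) →+ (Fin m → ℤ) := AddMonoidHom.mk'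
    (fun x => AddMonoidHom.mk' (fun y => ∑ q : Pr n, (x q.1.1 * y q.1.2) • t q) fun y y' => by
      simp only [Pi.add_apply, mul_add, add_smul, Finset.sum_add_distrib]) fun x x' => by
      refine AddMonoidHom.ext fun y => ?_
      simp only [AddMonoidHom.mk'_apply, AddMonoidHom.add_apply, Pi.add_apply, add_mul, add_smul,
        Finset.sum_add_distrib]
  obtain ⟨ρ, -, hρ⟩ := exists_lift (t := t) (fun i => (⟨Pi.single i 1, 0⟩ : Md B)) (Md.j B) Md.j_cen
    fun q => by
      rw [Md.comm_eq]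
      refine Md.ext rfl ?_
      change ∑ r : Pr n, _ - ∑ r : Pr n, _ = t q
      rw [Finset.sum_eq_single q, Finset.sum_eq_zero]
      · simp
      · intro r _
        simp only [Pi.single_apply, mul_ite, mul_one, mul_zero]
        split_ifs with h1 h2
        · exact absurd r.2 (by rw [h1, h2]; exact lt_asymm q.2)
        all_goals exact zero_smul _ _
      · intro r _ hr
        simp only [Pi.single_apply, mul_ite, mul_one, mul_zero]
        split_ifs with h1 h2
        · exact absurd (Subtype.ext (Prod.ext h2 h1)) hr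
        all_goals exact zero_smul _ _
      · simp
  have : J.range.Normal := ⟨by
    rintro _ ⟨c, rfl⟩ g
    exact ⟨c, by rw [← (cen c g).eq, mul_inv_cancel_right]⟩⟩
  have hz : ∀ c, QuotientGroup.mk' J.range (J c) = 1 := fun c => (QuotientGroup.eq_one_iff _).2 ⟨c, rfl⟩
  obtain ⟨s, hs, -⟩ := exists_hom_center (fun i => QuotientGroup.mk' J.range (.of (.inl i))) fun i =>
    mem_center_of _ (QuotientGroup.mk'_surjective _) (by
      have : ∀ i j : Fin n, i < j → Commute (QuotientGroup.mk' J.range (.of (.inl i)))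
          (QuotientGroup.mk' J.range (.of (.inl j))) := fun i j h =>
        commutatorElement_eq_one_iff_commute.1 (by rw [← map_commutatorElement, rel ⟨(i, j), h⟩, hz])
      rintro (j | a)
      · rcases lt_trichotomy i j with h | rfl | h
        exacts [this i j h, Commute.refl _, (this j i h).symm]
      · rw [← hJ, hz]; exact Commute.one_right _)
  have hsP : s.comp P = QuotientGroup.mk' J.range := PresentedGroup.ext (by
    rintro (i | a)
    · rw [MonoidHom.comp_apply, hP, hs]
    · rw [MonoidHom.comp_apply, hP', ← hJ, hz, MonoidHom.one_apply, map_one])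
  obtain ⟨S, hS⟩ := left_inv (S := t.map (Int.castRingHom ℚ)) ((injective_iff_map_eq_zero _).2 ht)
  obtain ⟨b, hb⟩ := IsLocalization.exist_integer_multiples_of_finite (nonZeroDivisors ℤ)
    fun x : Fin m × Pr n => S x.1 x.2
  choose u hu using hb
  have hb : ∀ a, ∑ q, u (a, q) • t q = (b : ℤ) • Pi.single a 1 := fun a => funext fun a' => by
    have := congrFun (congrFun hS a) a'
    have hu' : ∀ q, (u (a, q) : ℚ) = (b : ℤ) * S a q := fun q => by
      simpa [Submonoid.smul_def] using hu (a, q)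
    apply Int.cast_injective (α := ℚ)
    simp only [Matrix.mul_apply, map_apply, eq_intCast] at this
    simp [hu', mul_assoc, ← Finset.mul_sum, this, one_apply, Pi.single_apply, eq_comm]
  let T := ((commutator (GP t)).comap J).toAddSubgroup'
  refine ⟨⟨P, J, fun x => pi_ind P.range.toAddSubgroup' (fun i => ⟨_, hP i⟩) x.toAdd, fun c d h => ?_,
    fun k => ⟨fun h => ?_, ?_⟩, cen, fun c => ⟨(b : ℤ).natAbs,
      Int.natAbs_pos.2 (nonZeroDivisors.ne_zero b.2), ?_⟩⟩, hP, rel⟩
  · have e := hom_ext (j := ρ.comp J) (j' := Md.j B) fun a => by rw [MonoidHom.comp_apply, hJ, hρ]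
    have := (e c).symm.trans ((congrArg ρ h).trans (e d))
    exact congrArg Md.c this
  · rw [← QuotientGroup.eq_one_iff, ← QuotientGroup.mk'_apply, ← hsP, MonoidHom.comp_apply, h, map_one]
  · rintro ⟨c, rfl⟩
    exact hom_ext (j := P.comp J) (j' := 1) (fun a => by rw [MonoidHom.comp_apply, hJ, hP']) c
  · have h1 : (b : ℤ) • c.toAdd ∈ T :=
      pi_ind (T.comap (zsmulAddGroupHom (b : ℤ))) (fun a => by
        change (b : ℤ) • Pi.single a 1 ∈ T
        rw [← hb]
        refine T.sum_mem fun q _ => T.zsmul_mem ?_ _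
        change J (.ofAdd (t q)) ∈ commutator _
        rw [← rel]
        exact Subgroup.commutator_mem_commutator trivial trivial) c.toAdd
    have h2 : J c ^ (b : ℤ) ∈ commutator (GP t) := by rw [← map_zpow]; exact h1
    rcases Int.natAbs_eq (b : ℤ) with e | e <;> rw [e] at h2
    · rwa [zpow_natCast] at h2
    · rwa [_root_.zpow_neg, inv_mem_iff, zpow_natCast] at h2

lemma exists_surj {H : Type} [Group H] (E : Ext H (Fin n) (Fin m)) {g g' : Matrix (Fin n) (Fin n) ℤ}
    {h h' : Matrix (Fin m) (Fin m) ℤ} (hI : Iso E.t t g g' h h') :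
    ∃ F : GP t →* H, Function.Surjective F := by
  choose y hy using fun i => E.p_surj fun k => g k i
  let j : Multiplicative (Fin m → ℤ) →* H :=
    MonoidHom.mk' (fun c => E.i (c.toAdd ᵥ* h)) fun a b => by rw [toAdd_mul, add_vecMul, E.i_add]
  obtain ⟨F, h1, h2⟩ := exists_lift (t := t) y j (fun _ _ => E.i_cen _ _) fun q => by
    rw [← E.i_w, hy, hy]
    refine congrArg E.i (funext fun a => ?_)
    rw [E.w_eq]
    simpa [Matrix.mul_apply, wedge, vecMul, dotProduct] using congrFun (congrFun hI.2.2 q) a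
  have s1 : ∀ c, E.i c ∈ F.range := fun c => by
    have := pi_ind (F.range.comap j).toAddSubgroup' (fun a => ⟨_, h2 a⟩) (c ᵥ* h')
    change E.i (c ᵥ* h' ᵥ* h) ∈ F.range at this
    rwa [vecMul_vecMul, mul_eq_one_comm.1 hI.2.1, vecMul_one] at this
  refine ⟨F, fun k => ?_⟩
  have := pi_ind ((F.range.map E.P).toAddSubgroup'.comap g.mulVecLin.toAddMonoidHom)
    (fun i => ⟨y i, ⟨_, h1 i⟩, (hy i).trans (mulVec_single_one g i).symm⟩) (g' *ᵥ E.p k)
  obtain ⟨u, hu, e⟩ := this
  change E.p u = g *ᵥ g' *ᵥ E.p k at e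
  rw [mulVec_mulVec, hI.1, one_mulVec] at e
  obtain ⟨c, rfl⟩ := E.of_p_eq e.symm
  exact mul_mem hu (s1 c)

theorem genus_GP (ht : Rigid t) (hn : 0 < n) (hm : 0 < m) :
    Group.nilpotencyClass (GP t) = 2 ∧ ∀ (H : Type) [Group H] [Group.IsNilpotent H] [Group.FG H],
      SameFin (GP t) H → Nonempty (H ≃* GP t) := by
  obtain ⟨E, hE⟩ := exists_ext_GP (ht ℚ).1
  have := E.cl2
  refine ⟨le_antisymm ?_ ?_, fun H _ _ _ h => ?_⟩
  · refine Subgroup.lowerCentralSeries_eq_bot_iff_nilpotencyClass_le.1 ?_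
    rw [Subgroup.lowerCentralSeries_succ, Subgroup.top_lowerCentralSeries_one, eq_bot_iff,
      Subgroup.commutator_le]
    intro a ha b _
    exact Subgroup.mem_bot.2 (commutatorElement_eq_one_iff_commute.2 (comm_central ha b))
  · by_contra hlt
    have := Subgroup.lowerCentralSeries_eq_bot_iff_nilpotencyClass_le.2
      (show Group.nilpotencyClass (GP t) ≤ 1 by omega)
    rw [Subgroup.top_lowerCentralSeries_one] at this
    obtain ⟨N, hN, e⟩ := E.tor (.ofAdd 1)
    have e2 := E.i_inj ((E.i_smul N 1).trans ((Subgroup.mem_bot.1 (this ▸ e)).trans E.i_zero.symm))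
    simpa [hN.ne'] using congrFun e2 ⟨0, hm⟩
  · have := h.cl2
    obtain ⟨n', m', ⟨E'⟩⟩ := exists_ext fun _ _ => h.tf E
    have s1 := fun M (hM : 0 < M) => (h.exists_hom hM).imp fun _ h => h.1
    have s2 := fun M (hM : 0 < M) =>
      (SameFin.exists_hom (G := H) (H := GP t) (fun Q _ _ => (h Q).symm) hM).imp fun _ h => h.1
    obtain rfl : n = n' := by simpa using le_antisymm (card1 E E' s1) (card1 E' E s2)
    obtain rfl : m = m' := by simpa using le_antisymm (card2 E E' s1) (card2 E' E s2)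
    obtain ⟨g, g', k, k', hI⟩ := glue ht hn fun p _ => iso_padic p fun k =>
      hE ▸ level4 E E' s1 (pow_pos (Fact.out : p.Prime).pos k)
    obtain ⟨F, hF⟩ := exists_surj E' hI.symm
    exact ⟨(MulEquiv.ofBijective F ⟨h.inj F hF, hF⟩).symm⟩

end Pool.Agent.Lib.MP_a8bb0e_al
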