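import Mathlib

set_option autoImplicit false
open Polynomial NumberField

namespace Pool.Agent.Lib.MP_a8bb0e_al

/-- A Galois number field that embeds in every `ℚ_[p]` is `ℚ`. -/
lemma finrank_eq_one (K : Type) [Field K] [NumberField K] [IsGalois ℚ K]
    (h : ∀ (p : ℕ) [Fact p.Prime], Nonempty (K →ₐ[ℚ] ℚ_[p])) : Module.finrank ℚ K = 1 := by
  by_contra H
  have H' : 1 < Module.finrank ℚ K := lt_of_le_of_ne Module.finrank_pos (Ne.symm H)
  obtain ⟨p, hp, hP⟩ := NumberField.exists_not_isUnramifiedAt_int_of_isGalois (𝒪 := 𝓞 K) H'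
  have : Fact p.Prime := ⟨hp⟩
  obtain ⟨σ⟩ := h p
  have hint : ∀ x : 𝓞 K, ‖σ (x : K)‖ ≤ 1 := by
    intro x
    have h1 : IsIntegral ℤ (σ (x : K)) := (x.isIntegral_coe).map (σ.restrictScalars ℤ)
    have h2 : IsIntegral ℤ_[p] (σ (x : K)) := h1.tower_top
    obtain ⟨y, hy⟩ := IsIntegrallyClosed.algebraMap_eq_of_integral h2
    rw [← hy]
    exact y.2
  let τ : 𝓞 K →+* ℤ_[p] :=
    { toFun := fun x => ⟨σ (x : K), hint x⟩
      map_one' := Subtype.ext (by simp)
      map_mul' := fun x y => Subtype.ext (by simp)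
      map_zero' := Subtype.ext (by simp)
      map_add' := fun x y => Subtype.ext (by simp) }
  let P : Ideal (𝓞 K) := (Ideal.span {(p : ℤ_[p])}).comap τ
  have hpr : (Ideal.span {(p : ℤ_[p])}).IsPrime := by
    rw [← PadicInt.maximalIdeal_eq_span_p]; infer_instance
  have : P.IsPrime := Ideal.comap_isPrime τ _
  have hpP : (p : 𝓞 K) ∈ P := by
    simp [P, Ideal.mem_comap]
  apply hP P this hpP
  have hp' : Prime (p : ℤ) := Nat.prime_iff_prime_int.1 hp
  have lo : P.LiesOver (Ideal.span {(p : ℤ)}) :=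
    (Ideal.liesOver_span_iff Ideal.IsPrime.ne_top' hp').mpr (by simpa using hpP)
  have hne : Ideal.span {(p : ℤ)} ≠ ⊥ := by simpa using hp.ne_zero
  have mx : (Ideal.span {(p : ℤ)}).IsMaximal := PrincipalIdealRing.isMaximal_of_irreducible hp'.irreducible
  have e : P.under ℤ = Ideal.span {(p : ℤ)} := lo.over.symm
  have : (P.under ℤ).IsMaximal := e ▸ mx
  have : Finite (ℤ ⧸ P.under ℤ) := Ideal.finiteQuotientOfFreeOfNeBot _ (e ▸ hne)
  rw [← Ideal.ramificationIdx_eq_one_iff,
    ← Ideal.ramificationIdx'_eq_ramificationIdx (Ideal.span {(p : ℤ)}) P hne, ← not_ne_iff,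
    Ideal.ramificationIdx'_ne_one_iff (Ideal.map_le_of_le_comap lo.over.le)]
  intro hle
  have h1 : (p : 𝓞 K) ∈ P ^ 2 := hle (by
    simpa using Ideal.mem_map_of_mem (algebraMap ℤ (𝓞 K)) (Ideal.mem_span_singleton_self (p : ℤ)))
  have h2 : (p : ℤ_[p]) ∈ Ideal.span {(p : ℤ_[p])} ^ 2 := by
    have := Ideal.mem_map_of_mem τ h1
    rw [Ideal.map_pow, map_natCast] at this
    exact Ideal.pow_right_mono Ideal.map_comap_le 2 this
  rw [Ideal.span_singleton_pow, Ideal.mem_span_singleton, pow_two] at h2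
  have h3 : (p : ℤ_[p]) ∣ 1 := by
    have h0 : (p : ℤ_[p]) ≠ 0 := by exact_mod_cast hp.ne_zero
    rw [← mul_dvd_mul_iff_left h0, mul_one]; exact h2
  exact PadicInt.prime_p.not_isUnit (isUnit_of_dvd_one h3)

/-- A monic integer polynomial that is a product of linear factors over every `ℤ_[p]` is a
product of linear factors over `ℤ`. -/
theorem prod_int_of_local (f : ℤ[X]) (hf : f.Monic)
    (h : ∀ (p : ℕ) [Fact p.Prime], (f.map (Int.castRingHom ℤ_[p])).Splits) :
    ∃ s : Multiset ℤ, f = (s.map fun a => X - C a).prod := by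
  let g : ℚ[X] := f.map (algebraMap ℤ ℚ)
  let K := g.SplittingField
  have : CharZero K := algebraRat.charZero K
  have : @IsSplittingField ℚ K _ _ DivisionRing.toRatAlgebra g := by
    have e : (DivisionRing.toRatAlgebra : Algebra ℚ K) = SplittingField.instAlgebra g :=
      Subsingleton.elim _ _
    rw [e]; exact IsSplittingField.splittingField g
  have : NumberField K := { to_finiteDimensional := IsSplittingField.finiteDimensional K g }
  have : Normal ℚ K := Normal.of_isSplittingField g
  have : IsGalois ℚ K := ⟨⟩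
  have h1 := finrank_eq_one K (fun p _ => ⟨IsSplittingField.lift K g (by
    have := (h p).map (algebraMap ℤ_[p] ℚ_[p])
    rw [Polynomial.map_map] at this
    simp only [g, Polynomial.map_map]
    convert this using 2
    exact RingHom.ext_int _ _)⟩)
  have h2 : g.Splits := (IsSplittingField.splits_iff K g).2
    (Subalgebra.bot_eq_top_iff_finrank_eq_one.2 h1).symm
  have hg : g.Monic := hf.map _
  have h3 := h2.eq_prod_roots_of_monic hg
  have h4 : ∀ r ∈ g.roots, ∃ a : ℤ, (a : ℚ) = r := fun r hr => by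
    obtain ⟨a, ha, -⟩ := exists_integer_of_is_root_of_monic hf (r := r) (by
      rw [aeval_def, eval₂_eq_eval_map]; exact (mem_roots hg.ne_zero).1 hr)
    exact ⟨a, ha.symm⟩
  refine ⟨g.roots.map Rat.num, Polynomial.map_injective (algebraMap ℤ ℚ) (RingHom.injective_int _) ?_⟩
  change g = _
  conv_lhs => rw [h3]
  rw [Polynomial.map_multiset_prod, Multiset.map_map, Multiset.map_map]
  refine congrArg _ (Multiset.map_congr rfl fun r hr => ?_)
  obtain ⟨a, rfl⟩ := h4 r hr
  simp

/-- solutions of integer linear systems over a torsion free ring -/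
theorem span_int_solutions {ι R : Type*} [Fintype ι] [CommRing R] [IsAddTorsionFree R]
    (E : Set (ι → ℤ)) (y : ι → R) (hy : ∀ c ∈ E, ∑ i, (c i : R) * y i = 0) :
    y ∈ Submodule.span R ((fun (x : ι → ℤ) (i : ι) => (x i : R)) ''
      {x | ∀ c ∈ E, ∑ i, c i * x i = 0}) := by
  let N : Submodule ℤ R := Submodule.span ℤ (Set.range y)
  have : Module.Finite ℤ N := Module.Finite.span_of_finite ℤ (Set.finite_range y)
  have : Module.Free ℤ N := Module.free_of_finite_type_torsion_free'
  let b := Module.Free.chooseBasis ℤ N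
  let y' : ι → N := fun i => ⟨y i, Submodule.subset_span ⟨i, rfl⟩⟩
  have e : y = ∑ j, ((b j : N) : R) • fun i => ((b.repr (y' i) j : ℤ) : R) := by
    funext i
    have := congrArg Subtype.val (b.sum_repr (y' i))
    simp only [Finset.sum_apply, Pi.smul_apply, smul_eq_mul]
    refine this.symm.trans ?_
    rw [Submodule.coe_sum]
    exact Finset.sum_congr rfl fun j _ => by rw [Submodule.coe_smul, zsmul_eq_mul, mul_comm]
  rw [e]
  refine Submodule.sum_mem _ fun j _ => Submodule.smul_mem _ _ (Submodule.subset_span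
    ⟨fun i => b.repr (y' i) j, fun c hc => ?_, rfl⟩)
  have h0 : ∑ i, c i • y' i = 0 := Subtype.ext (by simpa [y'] using hy c hc)
  have := congrArg (fun z => b.repr z j) h0
  simpa [Finsupp.finsetSum_apply] using this

end Pool.Agent.Lib.MP_a8bb0e_al
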