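import Pool.Agent.Lib.MP_a8bb0e_al.Split

set_option autoImplicit false
open Polynomial Matrix

namespace Pool.Agent.Lib.MP_a8bb0e_al

variable {V : Type} [Fintype V] [DecidableEq V] (Γ : SimpleGraph V) {R : Type} [CommRing R]

/-- domination: the link of `v` lies in the star of `w` -/
def Dom (v w : V) : Prop := ∀ u, Γ.Adj u v → u = w ∨ Γ.Adj u w

variable {Γ}

lemma Dom.refl (v : V) : Dom Γ v v := fun _ h => Or.inr h

lemma Dom.trans {v w x : V} (h1 : Dom Γ v w) (h2 : Dom Γ w x) : Dom Γ v x := by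
  intro u hu
  rcases h1 u hu with rfl | h
  · rcases h2 v hu.symm with rfl | h
    · exact Or.inr hu
    · rcases h1 x h.symm with rfl | h'
      · exact Or.inl rfl
      · exact Or.inr h'.symm
  · exact h2 u h

lemma Dom.adj {v w v' w' : V} (h : Γ.Adj v w) (h1 : Dom Γ v v') (h2 : Dom Γ w w') :
    v' = w' ∨ Γ.Adj v' w' := by
  rcases h1 w h.symm with rfl | h3
  · rcases h2 v h with rfl | h4
    · exact Or.inr h.symm
    · exact (h1 w' h4.symm).imp Eq.symm fun h => h.symm
  · exact h2 v' h3.symm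

variable (Γ)

/-- alternating matrices supported on non-edges -/
def OmG (M : Matrix V V R) : Prop :=
  (∀ a b, M a b = -M b a) ∧ (∀ a, M a a = 0) ∧ ∀ a b, Γ.Adj a b → M a b = 0

/-- incidence algebra of the domination preorder -/
def Inc (T : Matrix V V R) : Prop := ∀ w v, T w v ≠ 0 → Dom Γ v w

/-- block triangular with scalar diagonal blocks -/
def Tri (T : Matrix V V R) : Prop :=
  (∀ w v, w ≠ v → T w v ≠ 0 → Dom Γ v w ∧ ¬ Dom Γ w v) ∧
    ∀ v w, Dom Γ v w → Dom Γ w v → T v v = T w w

variable {Γ}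

lemma OmG.zero {M : Matrix V V R} (h : OmG Γ M) {a b : V} (hab : a = b ∨ Γ.Adj a b) : M a b = 0 := by
  rcases hab with rfl | hab
  · exact h.2.1 a
  · exact h.2.2 a b hab

lemma inc_iff (T : Matrix V V R) : Inc Γ T ↔ ∀ M, OmG Γ M → OmG Γ (Tᵀ * M + M * T) := by
  constructor
  · intro h M hM
    have e : ∀ a b, (Tᵀ * M + M * T) a b = ∑ w, T w a * M w b - ∑ w, T w b * M w a := by
      intro a b
      simp only [Matrix.add_apply, Matrix.mul_apply, transpose_apply, sub_eq_add_neg,
        ← Finset.sum_neg_distrib]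
      congr 1
      exact Finset.sum_congr rfl fun w _ => by rw [hM.1 a w]; ring
    refine ⟨fun a b => by rw [e, e]; ring, fun a => by rw [e]; ring, fun a b hab => ?_⟩
    have k : ∀ a b, Γ.Adj a b → ∑ w, T w a * M w b = 0 := fun a b hab =>
      Finset.sum_eq_zero fun w _ => by
        by_cases h0 : T w a = 0
        · rw [h0, zero_mul]
        · rw [hM.zero ((h w a h0).adj (v' := w) (w' := b) hab (Dom.refl b) |> id), mul_zero]
    rw [e, k a b hab, k b a hab.symm, sub_zero]
  · intro h w v h0 u hu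
    by_contra hc
    push Not at hc
    have hvw : v ≠ w := by
      rintro rfl; exact hc.2 hu
    have := (h (single w u 1 - single u w 1) ⟨fun a b => by
      simp only [Matrix.sub_apply, single_apply, and_comm]; ring, fun a => by
      simp only [Matrix.sub_apply, single_apply, and_comm]; ring, fun a b hab => by
      simp only [Matrix.sub_apply, single_apply]
      rw [if_neg, if_neg, sub_zero]
      · rintro ⟨rfl, rfl⟩; exact hc.2 hab
      · rintro ⟨rfl, rfl⟩; exact hc.2 hab.symm⟩).2.2 v u hu.symm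
    apply h0
    simpa [Matrix.mul_sub, Matrix.sub_mul, Matrix.mul_apply, single_apply, ite_and, hvw.symm,
      hu.ne, hc.1.symm, hc.1] using this

lemma Tri.inc {T : Matrix V V R} (h : Tri Γ T) : Inc Γ T := fun w v h0 => by
  by_cases e : w = v
  · exact e ▸ Dom.refl w
  · exact (h.1 w v e h0).1

lemma tri_iff (T : Matrix V V R) : Tri Γ T ↔ Inc Γ T ∧
    ∀ Y Y' : Matrix V V R, Inc Γ Y → Inc Γ Y' → trace ((Y * Y' - Y' * Y) * T) = 0 := by
  constructor
  · refine fun h => ⟨h.inc, fun Y Y' hY hY' => ?_⟩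
    have k : ∀ Y Y' : Matrix V V R, Inc Γ Y → Inc Γ Y' →
        trace (Y * Y' * T) = ∑ a, ∑ b, Y a b * Y' b a * T a a := by
      intro Y Y' hY hY'
      simp only [trace, diag, Matrix.mul_apply, Finset.sum_mul]
      refine Finset.sum_congr rfl fun a _ => ?_
      rw [Finset.sum_eq_single a]
      · intro c _ hc
        refine Finset.sum_eq_zero fun b _ => ?_
        by_contra h0
        have h1 := h.1 c a hc (right_ne_zero_of_mul h0)
        have h2 := left_ne_zero_of_mul h0
        exact h1.2 ((hY' b c (right_ne_zero_of_mul h2)).trans (hY a b (left_ne_zero_of_mul h2)))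
      · simp
    rw [Matrix.sub_mul, trace_sub, k Y Y' hY hY', k Y' Y hY' hY, Finset.sum_comm, sub_eq_zero]
    refine Finset.sum_congr rfl fun a _ => Finset.sum_congr rfl fun b _ => ?_
    by_cases h0 : Y b a * Y' a b = 0
    · rw [mul_comm (Y' a b), h0, zero_mul, zero_mul]
    · rw [h.2 a b (hY b a (left_ne_zero_of_mul h0)) (hY' a b (right_ne_zero_of_mul h0))]; ring
  · rintro ⟨h1, h2⟩
    have sg : ∀ a b, Dom Γ b a → Inc Γ (single a b (1 : R)) := fun a b hab w v h0 => by
      rw [single_apply] at h0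
      split_ifs at h0 with h
      · exact h.1 ▸ h.2 ▸ hab
      · exact absurd rfl h0
    refine ⟨fun w v hne h0 => ⟨h1 w v h0, fun hd => h0 ?_⟩, fun v w a b => ?_⟩
    · have := h2 _ _ (sg v v (Dom.refl v)) (sg v w hd)
      rw [single_mul_single_same, single_mul_single_of_ne (h := hne), sub_zero,
        trace_single_mul] at this
      simpa using this
    · have := h2 _ _ (sg v w b) (sg w v a)
      rw [single_mul_single_same, single_mul_single_same, Matrix.sub_mul, trace_sub,
        trace_single_mul, trace_single_mul] at this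
      simpa [sub_eq_zero] using this

lemma Tri.mul_diag {S T : Matrix V V R} (hS : Tri Γ S) (hT : Tri Γ T) (v : V) :
    (S * T) v v = S v v * T v v := by
  rw [Matrix.mul_apply, Finset.sum_eq_single v]
  · intro u _ hu
    by_contra h0
    exact (hT.1 u v hu (right_ne_zero_of_mul h0)).2 (hS.inc v u (left_ne_zero_of_mul h0))
  · simp

lemma Tri.mul {S T : Matrix V V R} (hS : Tri Γ S) (hT : Tri Γ T) : Tri Γ (S * T) := by
  refine ⟨fun w v hne h0 => ?_, fun v w a b => by
    rw [hS.mul_diag hT, hS.mul_diag hT, hS.2 v w a b, hT.2 v w a b]⟩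
  rw [Matrix.mul_apply] at h0
  obtain ⟨u, -, hu⟩ := Finset.exists_ne_zero_of_sum_ne_zero h0
  have a := left_ne_zero_of_mul hu
  have b := right_ne_zero_of_mul hu
  refine ⟨(hT.inc u v b).trans (hS.inc w u a), fun hd => ?_⟩
  by_cases e : u = v
  · subst e; exact (hS.1 w u hne a).2 hd
  · exact (hT.1 u v e b).2 ((hS.inc w u a).trans hd)

lemma Tri.add {S T : Matrix V V R} (hS : Tri Γ S) (hT : Tri Γ T) : Tri Γ (S + T) := by
  refine ⟨fun w v hne h0 => ?_, fun v w a b => by
    rw [Matrix.add_apply, Matrix.add_apply, hS.2 v w a b, hT.2 v w a b]⟩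
  by_cases h1 : S w v = 0
  · exact hT.1 w v hne (by simpa [h1] using h0)
  · exact hS.1 w v hne h1

lemma tri_diagonal (d : V → R) (h : ∀ v w, Dom Γ v w → Dom Γ w v → d v = d w) :
    Tri Γ (diagonal d) :=
  ⟨fun w v hne h0 => absurd (diagonal_apply_ne d hne) h0, fun v w a b => by simp [h v w a b]⟩

lemma Tri.aeval {T : Matrix V V R} (h : Tri Γ T) (f : ℤ[X]) :
    Tri Γ (aeval T f) ∧ ∀ v, (aeval T f) v v = aeval (T v v) f := by
  induction f using Polynomial.induction_on with
  | C a =>
    have : (algebraMap ℤ (Matrix V V R)) a = diagonal fun _ => (a : R) := by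
      ext i j; simp [diagonal_apply, Matrix.intCast_apply]
    rw [aeval_C, this]
    exact ⟨tri_diagonal _ fun _ _ _ _ => rfl, fun v => by simp⟩
  | add f g hf hg =>
    rw [map_add]
    exact ⟨hf.1.add hg.1, fun v => by rw [Matrix.add_apply, hf.2, hg.2, map_add]⟩
  | monomial n a ih =>
    rw [pow_succ, ← mul_assoc, map_mul, aeval_X]
    exact ⟨ih.1.mul h, fun v => by rw [ih.1.mul_diag h, ih.2, map_mul (Polynomial.aeval _) _ X, aeval_X]⟩

open Classical in
/-- height function, strictly decreasing along strict domination -/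
noncomputable def ht (Γ : SimpleGraph V) (v : V) : ℕ := (Finset.univ.filter (Dom Γ v)).card

lemma ht_lt {v w : V} (h : Dom Γ v w ∧ ¬ Dom Γ w v) : ht Γ w < ht Γ v := by
  classical
  refine Finset.card_lt_card ⟨fun x hx => ?_, fun hs => h.2 ?_⟩
  · simp only [Finset.mem_filter, Finset.mem_univ, true_and] at hx ⊢
    exact h.1.trans hx
  · simpa using hs (show v ∈ Finset.univ.filter (Dom Γ v) by simp [Dom.refl])

lemma det_up (T : Matrix V V R) (h : V → ℕ) (hT : ∀ w v, w ≠ v → T w v ≠ 0 → h w < h v) :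
    T.det = ∏ v, T v v := by
  rw [Matrix.det_apply, Finset.sum_eq_single 1]
  · simp
  · intro σ _ hσ
    by_contra h0
    have h1 : ∀ v, T (σ v) v ≠ 0 := fun v hv => h0 (by
      rw [Finset.prod_eq_zero (f := fun i => T (σ i) i) (Finset.mem_univ v) hv, smul_zero])
    obtain ⟨v, hv⟩ : ∃ v, σ v ≠ v := by
      by_contra hc
      push Not at hc
      exact hσ (Equiv.ext hc)
    have := Finset.sum_lt_sum (s := Finset.univ) (f := fun v => h (σ v)) (g := h) (fun x _ => by
      by_cases e : σ x = x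
      · simp [e]
      · exact (hT _ _ e (h1 x)).le) ⟨v, Finset.mem_univ v, hT _ _ hv (h1 v)⟩
    rw [Equiv.sum_comp σ h] at this
    exact lt_irrefl _ this
  · simp

lemma Tri.det {T : Matrix V V R} (h : Tri Γ T) : T.det = ∏ v, T v v :=
  det_up T (ht Γ) fun w v a b => ht_lt (h.1 w v a b)

lemma Tri.charpoly {T : Matrix V V R} (h : Tri Γ T) : T.charpoly = ∏ v, (X - C (T v v)) := by
  rw [Matrix.charpoly, det_up _ (ht Γ) fun w v a b => ht_lt (h.1 w v a (by
    intro h0; apply b; rw [charmatrix_apply_ne _ _ _ a, h0]; simp))]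
  simp

lemma Tri.support [IsDomain R] {U : Matrix V V R} (h : Tri Γ U) {a : V → R} (ha : U *ᵥ a = 0)
    (B : V → Prop) (h1 : ∀ u w, B u → Dom Γ w u → a w ≠ 0 → B w) (h2 : ∀ u, B u → U u u ≠ 0) :
    ∀ u, B u → a u = 0 := by
  classical
  by_contra hc
  push Not at hc
  obtain ⟨u, hu, hm⟩ := (Finset.univ.filter fun u => B u ∧ a u ≠ 0).exists_max_image (ht Γ)
    (by obtain ⟨u, hu⟩ := hc; exact ⟨u, by simpa using hu⟩)
  simp only [Finset.mem_filter, Finset.mem_univ, true_and] at hu hm
  have := congrFun ha u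
  rw [mulVec, dotProduct, Finset.sum_eq_single u] at this
  · exact mul_ne_zero (h2 u hu.1) hu.2 this
  · intro w _ hw
    by_contra h0
    have k := h.1 u w hw.symm (left_ne_zero_of_mul h0)
    have := hm w ⟨h1 u w hu.1 k.1 (right_ne_zero_of_mul h0), right_ne_zero_of_mul h0⟩
    have := ht_lt k
    omega
  · simp

end Pool.Agent.Lib.MP_a8bb0e_al
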